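import Pool.Agent.GO3.V.Two

/-!
# GO3 / V / Fpos: the field of a minimiser is positive at the origin (V5 of the proof text) (helper30)

Let `ρ` be as in `two`, `D = dfc c n ρ ≤ C/n⁴`, `F₀ = 2 β(ρ)/ρ²`.

PROOFS.
* `Fbar`: the circle average of `F`; `Fbar_deriv`: differentiate under the integral; with the Euler-Lagrange equations
  `∂₁F = -j₂`, `∂₂F = j₁` and linearity of `j_v` in `v`: `∂_r F = - j (pt r χ) (i er χ) = - j (pt r χ) (i pt r χ)/r`.
* `Fbar_der_le`: `|j_v| ≤ ‖w‖ ‖D_v w‖`; Cauchy-Schwarz; `ang_Xo` with `d = 1/2` (`dist_small`, `|β s| ≤ 1/2`): `∫ ‖w‖² ≤ 4 Xo`;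
  `∫ ‖D_χ w‖² ≤ Xo`: so `|Fbar'| ≤ (1/2π)(1/s) 2 Xo s = Xo s/(π s)`.
* `F_pos`: `F₀ ≥ 2 (n³/20)/(4000 K n²)² = c_K/n`; `F₀ ≤ 2 (3n³/4)·16 K/n⁴ = 24 K/n`.  `flux_sub`: for `s ≤ 1`:
  `|β s| ≤ F₀ s²/2 + s √D ≤ 12 K/n + √C/n² ≤ 1/2` for large `n`.  Some `r ∈ [1/2, 1]` satisfies
  `∫ (F (pt r χ) - F₀)² dχ ≤ (16/3) D` (otherwise `∫_{ball 0 1} (F - F₀)² > 2 D` by `polar_ball`, against `dfc_le`; `1 ≤ ρ`), so
  `|Fbar r - F₀| ≤ √D ≤ √C/n²` (Cauchy-Schwarz, `(1/2π)(16/3) ≤ 1`).  `|Fbar r - F 0| ≤ ∫_0^r |Fbar'| ≤ (1/π) ∫_0^1 Xo/s ds ≤ (2/π) D`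
  (`int_Xo` on `[ε, 1]` and `ε → 0`, or directly `polar_ball`; `Fbar` is continuous, `Fbar 0 = F 0`).  So
  `F 0 ≥ c_K/n - √C/n² - C/n⁴ > 0` for large `n`.
-/

open MeasureTheory Filter Topology Set
open scoped ContDiff Real

noncomputable section

namespace GO3.Vc

variable {c : Cf} {n : ℕ}

/-- circle average of the field -/
def Fbar (c : Cf) (r : ℝ) : ℝ := 1 / (2 * π) * ∫ χ in (0 : ℝ)..2 * π, c.F (pt r χ)

private theorem j_lin (c : Cf) (z v : ℂ) :
    c.j z v = v.re * c.j z 1 + v.im * c.j z Complex.I := by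
  have h0 : v = v.re • (1 : ℂ) + v.im • Complex.I := by
    apply Complex.ext <;> simp
  have h1 : fderiv ℝ c.w z v = (v.re : ℂ) * fderiv ℝ c.w z 1 + (v.im : ℂ) * fderiv ℝ c.w z Complex.I := by
    conv_lhs => rw [h0]
    rw [map_add, map_smul, map_smul, Complex.real_smul, Complex.real_smul]
  have h2 : (ip (c.A z) v : ℂ) = (v.re : ℂ) * (ip (c.A z) 1 : ℂ) + (v.im : ℂ) * (ip (c.A z) Complex.I : ℂ) := by
    unfold ip
    simp
    ring
  have h3 : c.Dw z v = (v.re : ℂ) * c.Dw z 1 + (v.im : ℂ) * c.Dw z Complex.I := by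
    unfold Cf.Dw
    rw [h1, h2]
    ring
  unfold Cf.j
  rw [h3]
  have h4 : star (c.w z) * ((v.re : ℂ) * c.Dw z 1 + (v.im : ℂ) * c.Dw z Complex.I) =
      (v.re : ℂ) * (star (c.w z) * c.Dw z 1) + (v.im : ℂ) * (star (c.w z) * c.Dw z Complex.I) := by
    ring
  rw [h4, Complex.add_im, Complex.im_ofReal_mul, Complex.im_ofReal_mul]

private theorem fd_lin (L : ℂ →L[ℝ] ℝ) (v : ℂ) : L v = v.re * L 1 + v.im * L Complex.I := by
  have h0 : v = v.re • (1 : ℂ) + v.im • Complex.I := by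
    apply Complex.ext <;> simp
  conv_lhs => rw [h0]
  rw [map_add, map_smul, map_smul, smul_eq_mul, smul_eq_mul]

private theorem er_re (χ : ℝ) : (er χ).re = Real.cos χ := by
  unfold er; exact Complex.exp_ofReal_mul_I_re χ

private theorem er_im (χ : ℝ) : (er χ).im = Real.sin χ := by
  unfold er; exact Complex.exp_ofReal_mul_I_im χ

private theorem fF_eq (hEL : c.EL) {r : ℝ} (hr : r ≠ 0) (χ : ℝ) :
    fderiv ℝ c.F (pt r χ) (er χ) = -(c.j (pt r χ) (Complex.I * pt r χ) / r) := by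
  rw [fd_lin, hEL.eqF1, hEL.eqF2, j_lin c (pt r χ) (Complex.I * pt r χ), er_re, er_im]
  have h1 : (Complex.I * pt r χ).re = -(r * Real.sin χ) := by
    rw [pt_eq]
    simp [er_im, er_re]
  have h2 : (Complex.I * pt r χ).im = r * Real.cos χ := by
    rw [pt_eq]
    simp [er_im, er_re]
  rw [h1, h2]
  field_simp
  ring

private theorem d_par' {f f' : ℝ → ℝ → ℝ} (hf : Continuous (Function.uncurry f))
    (hf' : Continuous (Function.uncurry f'))
    (hd : ∀ r χ, HasDerivAt (fun r => f r χ) (f' r χ) r) (a b r : ℝ) :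
    HasDerivAt (fun r => ∫ χ in a..b, f r χ) (∫ χ in a..b, f' r χ) r := by
  have hK : IsCompact (Metric.closedBall r 1 ×ˢ uIcc a b) :=
    (isCompact_closedBall r 1).prod isCompact_uIcc
  obtain ⟨C, hC⟩ := hK.exists_bound_of_continuousOn hf'.continuousOn
  have hcf : ∀ x, Continuous (f x) := fun x => hf.comp (Continuous.prodMk_right x)
  have hcf' : ∀ x, Continuous (f' x) := fun x => hf'.comp (Continuous.prodMk_right x)
  refine (intervalIntegral.hasDerivAt_integral_of_dominated_loc_of_deriv_le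
    (μ := volume) (F := f) (F' := f') (s := Metric.closedBall r 1) (bound := fun _ => C)
    (Metric.closedBall_mem_nhds r one_pos)
    (Filter.Eventually.of_forall fun x => (hcf x).aestronglyMeasurable)
    ((hcf r).intervalIntegrable a b) (hcf' r).aestronglyMeasurable
    (Filter.Eventually.of_forall fun t ht x hx => ?_)
    intervalIntegrable_const
    (Filter.Eventually.of_forall fun t _ x _ => hd x t)).2
  exact hC (x, t) ⟨hx, uIoc_subset_uIcc ht⟩

private def Fd (c : Cf) (r : ℝ) : ℝ :=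
  1 / (2 * π) * ∫ χ in (0 : ℝ)..2 * π, fderiv ℝ c.F (pt r χ) (er χ)

private theorem cont_er : Continuous er := by unfold er; fun_prop

private theorem cont_fd (hc : c.Adm n) :
    Continuous (Function.uncurry fun r χ : ℝ => fderiv ℝ c.F (pt r χ) (er χ)) := by
  have h1 : Continuous fun q : ℝ × ℝ => fderiv ℝ c.F (pt q.1 q.2) :=
    ((Cf.Adm.contDiff_F hc).continuous_fderiv (by simp)).comp continuous_pt
  have h2 : Continuous fun q : ℝ × ℝ => er q.2 := cont_er.comp continuous_snd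
  exact h1.clm_apply h2

private theorem hasDeriv_Fd (hc : c.Adm n) (r : ℝ) : HasDerivAt (Fbar c) (Fd c r) r := by
  have hF := Cf.Adm.contDiff_F hc
  have h1 : Continuous (Function.uncurry fun r χ : ℝ => c.F (pt r χ)) :=
    hF.continuous.comp continuous_pt
  have h2 := d_par' h1 (cont_fd hc) (fun r χ => by
    have h3 := ((hF.differentiable (by simp)) (pt r χ)).hasFDerivAt
    exact h3.comp_hasDerivAt r (hasDerivAt_pt_r r χ)) 0 (2 * π) r
  exact h2.const_mul _

private theorem cont_Fd (hc : c.Adm n) : Continuous (Fd c) := by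
  unfold Fd
  exact continuous_const.mul
    (intervalIntegral.continuous_parametric_intervalIntegral_of_continuous' (cont_fd hc) _ _)

private theorem Fd_eq (hEL : c.EL) {r : ℝ} (hr : r ≠ 0) : Fd c r =
    -(1 / (2 * π) * ∫ χ in (0 : ℝ)..2 * π, c.j (pt r χ) (Complex.I * pt r χ) / r) := by
  unfold Fd
  rw [← mul_neg, ← intervalIntegral.integral_neg]
  congr 1
  exact intervalIntegral.integral_congr fun χ _ => fF_eq hEL hr χ

theorem Fbar_deriv (hc : c.Adm n) (hEL : c.EL) {r : ℝ} (hr : 0 < r) : HasDerivAt (Fbar c)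
    (-(1 / (2 * π) * ∫ χ in (0 : ℝ)..2 * π, c.j (pt r χ) (Complex.I * pt r χ) / r)) r := by
  rw [← Fd_eq hEL hr.ne']
  exact hasDeriv_Fd hc r

theorem Fbar_cont (hc : c.Adm n) : Continuous (Fbar c) :=
  continuous_iff_continuousAt.2 fun r => (hasDeriv_Fd hc r).continuousAt

theorem Fbar_zero (c : Cf) : Fbar c 0 = c.F 0 := by
  unfold Fbar
  have h : ∀ χ, pt 0 χ = 0 := fun χ => by unfold pt; simp
  simp only [h, intervalIntegral.integral_const, sub_zero, smul_eq_mul]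
  have := Real.pi_pos
  field_simp

private theorem cs_int' {f g : ℝ → ℝ} (hf : Continuous f) (hg : Continuous g) {a b : ℝ}
    (hab : a ≤ b) : (∫ x in a..b, f x * g x) ^ 2 ≤
      (∫ x in a..b, f x ^ 2) * ∫ x in a..b, g x ^ 2 := by
  have h1 : ∀ t : ℝ, 0 ≤ (∫ x in a..b, g x ^ 2) * (t * t) + (2 * ∫ x in a..b, f x * g x) * t +
      ∫ x in a..b, f x ^ 2 := by
    intro t
    have h2 : 0 ≤ ∫ x in a..b, (f x + t * g x) ^ 2 :=
      intervalIntegral.integral_nonneg hab fun x _ => sq_nonneg _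
    have h3 : ∫ x in a..b, (f x + t * g x) ^ 2 = (∫ x in a..b, g x ^ 2) * (t * t) +
        (2 * ∫ x in a..b, f x * g x) * t + ∫ x in a..b, f x ^ 2 := by
      have i1 : IntervalIntegrable (fun x => g x ^ 2 * (t * t)) volume a b :=
        Continuous.intervalIntegrable (by fun_prop) _ _
      have i2 : IntervalIntegrable (fun x => 2 * (f x * g x) * t) volume a b :=
        Continuous.intervalIntegrable (by fun_prop) _ _
      have i3 : IntervalIntegrable (fun x => f x ^ 2) volume a b :=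
        Continuous.intervalIntegrable (by fun_prop) _ _
      have e : ∀ x, (f x + t * g x) ^ 2 = (g x ^ 2 * (t * t) + 2 * (f x * g x) * t) + f x ^ 2 :=
        fun x => by ring
      simp only [e]
      rw [intervalIntegral.integral_add (i1.add i2) i3, intervalIntegral.integral_add i1 i2,
        intervalIntegral.integral_mul_const, intervalIntegral.integral_mul_const,
        intervalIntegral.integral_const_mul]
    rwa [h3] at h2
  have h4 := discrim_le_zero h1
  unfold discrim at h4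
  linarith [h4]

private theorem cont_cpt (r : ℝ) : Continuous fun χ : ℝ => pt r χ :=
  continuous_pt.comp (by fun_prop : Continuous fun χ : ℝ => (r, χ))

private theorem Xo_nonneg (c : Cf) (s : ℝ) : 0 ≤ c.Xo s :=
  intervalIntegral.integral_nonneg (by positivity) fun _ _ => Cf.nsq_nonneg c _ _

theorem Fbar_der_le (hn : 2 ≤ n) (hc : c.Adm n) {s : ℝ} (hs : 0 < s) (hβ : |c.beta n s| ≤ 1 / 2) :
    |-(1 / (2 * π) * ∫ χ in (0 : ℝ)..2 * π, c.j (pt s χ) (Complex.I * pt s χ) / s)| ≤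
      c.Xo s / (π * s) := by
  have hn0 : 0 < n := by omega
  have hpi := Real.pi_pos
  have hcw : Continuous fun χ => ‖c.w (pt s χ)‖ := (hc.sw.continuous.comp (cont_cpt s)).norm
  have hcD0 : Continuous fun χ => c.Dw (pt s χ) (Complex.I * pt s χ) :=
    (Cf.Adm.contDiff_Dw hc).continuous.comp
      ((cont_cpt s).prodMk (continuous_const.mul (cont_cpt s)))
  have hcD : Continuous fun χ => ‖c.Dw (pt s χ) (Complex.I * pt s χ)‖ := hcD0.norm
  have hcn : Continuous fun χ => c.nsq (pt s χ) (Complex.I * pt s χ) :=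
    (Cf.Adm.contDiff_nsq hc).continuous.comp
      ((cont_cpt s).prodMk (continuous_const.mul (cont_cpt s)))
  have hX := Xo_nonneg c s
  have h1 : ∫ χ in (0 : ℝ)..2 * π, ‖c.w (pt s χ)‖ ^ 2 ≤ 4 * c.Xo s := by
    have := Cf.ang_Xo hn0 hc s (d := 1 / 2) (by norm_num) (fun k => by
      have := Cf.dist_small hn hβ (by norm_num) k
      linarith)
    calc _ ≤ _ := this
      _ = 4 * c.Xo s := by ring
  have h2 : ∫ χ in (0 : ℝ)..2 * π, ‖c.Dw (pt s χ) (Complex.I * pt s χ)‖ ^ 2 ≤ c.Xo s := by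
    unfold Cf.Xo
    exact intervalIntegral.integral_mono_on (by positivity) ((hcD.pow 2).intervalIntegrable _ _)
      (hcn.intervalIntegrable _ _) fun χ _ => Cf.norm_Dw_le c _ _
  have h3 := cs_int' hcw hcD (a := 0) (b := 2 * π) (by positivity)
  have h4 : ∫ χ in (0 : ℝ)..2 * π, ‖c.w (pt s χ)‖ * ‖c.Dw (pt s χ) (Complex.I * pt s χ)‖ ≤
      2 * c.Xo s := by
    refine abs_le_of_sq_le_sq' ?_ (by positivity) |>.2
    have h5 : 0 ≤ ∫ χ in (0 : ℝ)..2 * π, ‖c.Dw (pt s χ) (Complex.I * pt s χ)‖ ^ 2 :=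
      intervalIntegral.integral_nonneg (by positivity) fun _ _ => sq_nonneg _
    calc _ ≤ _ := h3
      _ ≤ (4 * c.Xo s) * c.Xo s := mul_le_mul h1 h2 h5 (by positivity)
      _ = (2 * c.Xo s) ^ 2 := by ring
  have h6 : ∀ χ, |c.j (pt s χ) (Complex.I * pt s χ) / s| ≤
      ‖c.w (pt s χ)‖ * ‖c.Dw (pt s χ) (Complex.I * pt s χ)‖ / s := by
    intro χ
    rw [abs_div, abs_of_pos hs]
    refine div_le_div_of_nonneg_right ?_ hs.le
    unfold Cf.j
    refine (Complex.abs_im_le_norm _).trans ?_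
    rw [norm_mul, norm_star]
  have h7 : |∫ χ in (0 : ℝ)..2 * π, c.j (pt s χ) (Complex.I * pt s χ) / s| ≤ 2 * c.Xo s / s := by
    have h8 : ‖∫ χ in (0 : ℝ)..2 * π, c.j (pt s χ) (Complex.I * pt s χ) / s‖ ≤
        ∫ χ in (0 : ℝ)..2 * π, ‖c.w (pt s χ)‖ * ‖c.Dw (pt s χ) (Complex.I * pt s χ)‖ / s := by
      refine intervalIntegral.norm_integral_le_of_norm_le (by positivity)
        (Filter.Eventually.of_forall fun χ _ => ?_) ?_
      · rw [Real.norm_eq_abs]; exact h6 χ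
      · exact ((hcw.mul hcD).div_const s).intervalIntegrable _ _
    rw [Real.norm_eq_abs] at h8
    refine h8.trans ?_
    rw [intervalIntegral.integral_div]
    exact div_le_div_of_nonneg_right h4 hs.le
  rw [abs_neg, abs_mul, abs_of_pos (by positivity : 0 < 1 / (2 * π))]
  calc 1 / (2 * π) * |∫ χ in (0 : ℝ)..2 * π, c.j (pt s χ) (Complex.I * pt s χ) / s|
      ≤ 1 / (2 * π) * (2 * c.Xo s / s) := mul_le_mul_of_nonneg_left h7 (by positivity)
    _ = c.Xo s / (π * s) := by field_simp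

/-- closeness of the circle averages to the uniform field at some radius -/
private theorem exists_close (hc : c.Adm n) {a D : ℝ} (hD : 0 ≤ D)
    (h : ∫ z in Metric.ball (0 : ℂ) 1, (c.F z - a) ^ 2 ≤ 2 * D) :
    ∃ r ∈ Icc (1 / 2 : ℝ) 1, |Fbar c r - a| ≤ Real.sqrt D := by
  have hpi := Real.pi_pos
  have hcF : Continuous fun z => (c.F z - a) ^ 2 := by
    have := (Cf.Adm.contDiff_F hc).continuous
    fun_prop
  set g : ℝ → ℝ := fun r => ∫ χ in (0 : ℝ)..2 * π, (c.F (0 + pt r χ) - a) ^ 2 with hg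
  have hgc : Continuous g := continuous_circle (fun z => (c.F z - a) ^ 2) hcF 0 0 (2 * π)
  have hg0 : ∀ r, 0 ≤ g r := fun r =>
    intervalIntegral.integral_nonneg (by positivity) fun _ _ => sq_nonneg _
  obtain ⟨r, hr, hmin⟩ := (isCompact_Icc (a := (1 / 2 : ℝ)) (b := 1)).exists_isMinOn
    ⟨1, by norm_num⟩ hgc.continuousOn
  have h1 : ∫ z in Metric.ball (0 : ℂ) 1, (c.F z - a) ^ 2 = ∫ r in (0 : ℝ)..1, r * g r :=
    polar_ball (fun z => (c.F z - a) ^ 2) hcF 0 zero_le_one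
  have hii : ∀ x y : ℝ, IntervalIntegrable (fun r => r * g r) volume x y := fun x y =>
    (continuous_id.mul hgc).intervalIntegrable _ _
  have h2 : ∫ r in (1 / 2 : ℝ)..1, r * g r ≤ ∫ r in (0 : ℝ)..1, r * g r := by
    rw [← intervalIntegral.integral_add_adjacent_intervals (hii 0 (1 / 2)) (hii (1 / 2) 1)]
    have : 0 ≤ ∫ r in (0 : ℝ)..1 / 2, r * g r :=
      intervalIntegral.integral_nonneg (by norm_num) fun x hx => mul_nonneg hx.1 (hg0 x)
    linarith
  have h3 : ∫ x in (1 / 2 : ℝ)..1, x * g r ≤ ∫ x in (1 / 2 : ℝ)..1, x * g x := by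
    refine intervalIntegral.integral_mono_on (by norm_num)
      ((continuous_id.mul continuous_const).intervalIntegrable _ _) (hii _ _) fun x hx => ?_
    exact mul_le_mul_of_nonneg_left (hmin hx) (by linarith [hx.1])
  have h4 : ∫ x in (1 / 2 : ℝ)..1, x * g r = 3 / 8 * g r := by
    rw [intervalIntegral.integral_mul_const, integral_id]
    norm_num
  have h5 : 3 / 8 * g r ≤ 2 * D := by rw [← h4]; linarith
  refine ⟨r, hr, ?_⟩
  have hcr : Continuous fun χ => c.F (pt r χ) - a :=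
    ((Cf.Adm.contDiff_F hc).continuous.comp (cont_cpt r)).sub continuous_const
  have h6 := cs_int' (f := fun _ => (1 : ℝ)) continuous_const hcr (a := 0) (b := 2 * π)
    (by positivity)
  simp only [one_mul, one_pow, intervalIntegral.integral_const, sub_zero, smul_eq_mul,
    mul_one] at h6
  have h7 : ∫ χ in (0 : ℝ)..2 * π, (c.F (pt r χ) - a) ^ 2 = g r := by
    simp only [hg, zero_add]
  rw [h7] at h6
  have h8 : Fbar c r - a = 1 / (2 * π) * ∫ χ in (0 : ℝ)..2 * π, (c.F (pt r χ) - a) := by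
    have hFi : IntervalIntegrable (fun χ => c.F (pt r χ)) volume 0 (2 * π) :=
      ((Cf.Adm.contDiff_F hc).continuous.comp (cont_cpt r)).intervalIntegrable _ _
    have hai : IntervalIntegrable (fun _ : ℝ => a) volume 0 (2 * π) :=
      continuous_const.intervalIntegrable _ _
    rw [intervalIntegral.integral_sub hFi hai]
    unfold Fbar
    simp only [intervalIntegral.integral_const, sub_zero, smul_eq_mul]
    field_simp
  refine Real.abs_le_sqrt ?_
  rw [h8, mul_pow]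
  calc (1 / (2 * π)) ^ 2 * (∫ χ in (0 : ℝ)..2 * π, (c.F (pt r χ) - a)) ^ 2
      ≤ (1 / (2 * π)) ^ 2 * (2 * π * g r) := mul_le_mul_of_nonneg_left h6 (by positivity)
    _ = g r / (2 * π) := by field_simp
    _ ≤ (16 / 3 * D) / (2 * π) := by
      refine div_le_div_of_nonneg_right ?_ (by positivity)
      linarith
    _ ≤ D := by
      rw [div_le_iff₀ (by positivity)]
      have := Real.pi_gt_three
      nlinarith

/-- the circle averages vary little -/
private theorem Fbar_var (hn : 2 ≤ n) (hc : c.Adm n) (hEL : c.EL) {r D : ℝ} (hr : 0 < r)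
    (hr1 : r ≤ 1) (hβ : ∀ s, 0 ≤ s → s ≤ 1 → |c.beta n s| ≤ 1 / 2)
    (h : ∫ z in Metric.ball (0 : ℂ) 1, c.grad z ≤ 2 * D) : |Fbar c r - c.F 0| ≤ D := by
  have hn0 : 0 < n := by omega
  have hpi := Real.pi_pos
  have key : ∀ ε ∈ Ioc (0 : ℝ) r, |Fbar c r - Fbar c ε| ≤ D := by
    intro ε hε
    have h1 : ∫ s in ε..r, Fd c s = Fbar c r - Fbar c ε :=
      intervalIntegral.integral_eq_sub_of_hasDerivAt (fun x _ => hasDeriv_Fd hc x)
        ((cont_Fd hc).intervalIntegrable _ _)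
    have hXc : ContinuousOn (fun s => c.Xo s / s) (uIcc ε r) := by
      refine (continuous_Xo hn0 hc).continuousOn.div continuousOn_id fun x hx => ?_
      rw [uIcc_of_le hε.2] at hx
      have : 0 < x := lt_of_lt_of_le hε.1 hx.1
      exact this.ne'
    have h2 : ‖∫ s in ε..r, Fd c s‖ ≤ ∫ s in ε..r, (1 / π) * (c.Xo s / s) := by
      refine intervalIntegral.norm_integral_le_of_norm_le hε.2
        (Filter.Eventually.of_forall fun s hs => ?_) ?_
      · have hs0 : 0 < s := lt_trans hε.1 hs.1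
        rw [Real.norm_eq_abs, Fd_eq hEL hs0.ne']
        refine (Fbar_der_le hn hc hs0 (hβ s hs0.le (hs.2.trans hr1))).trans (le_of_eq ?_)
        field_simp
      · exact (hXc.intervalIntegrable).const_mul _
    rw [h1, Real.norm_eq_abs, intervalIntegral.integral_const_mul] at h2
    refine h2.trans ?_
    have h3 := int_Xo hn0 hc hε.1 hε.2
    have h4 : ∫ z in Metric.ball (0 : ℂ) r, c.grad z ≤ ∫ z in Metric.ball (0 : ℂ) 1, c.grad z := by
      refine setIntegral_mono_set ?_ (Filter.Eventually.of_forall fun z => Cf.grad_nonneg c z)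
        (Metric.ball_subset_ball hr1).eventuallyLE
      exact (Cf.Adm.int_grad hc).integrableOn
    have h5 : ∫ s in ε..r, c.Xo s / s ≤ 2 * D := h3.trans (h4.trans h)
    have h6 : 0 ≤ ∫ s in ε..r, c.Xo s / s :=
      intervalIntegral.integral_nonneg hε.2 fun x hx =>
        div_nonneg (Xo_nonneg c x) (hε.1.le.trans hx.1)
    have h7 : 1 / π * (∫ s in ε..r, c.Xo s / s) ≤ 1 / 2 * (∫ s in ε..r, c.Xo s / s) := by
      refine mul_le_mul_of_nonneg_right ?_ h6
      have := Real.pi_gt_three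
      exact one_div_le_one_div_of_le (by norm_num) (by linarith)
    linarith
  have hlim : Tendsto (fun ε => |Fbar c r - Fbar c ε|) (𝓝[>] 0) (𝓝 |Fbar c r - Fbar c 0|) := by
    have h1 : Continuous fun ε => |Fbar c r - Fbar c ε| :=
      (continuous_const.sub (Fbar_cont hc)).abs
    exact (h1.tendsto 0).mono_left nhdsWithin_le_nhds
  rw [← Fbar_zero]
  refine le_of_tendsto hlim ?_
  filter_upwards [Ioc_mem_nhdsGT hr] with ε hε
  exact key ε hε

end GO3.Vc

namespace GO3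

open Vc

theorem F_pos (K : ℝ) (hK : 1 ≤ K) : ∃ n₀ : ℕ, 2 ≤ n₀ ∧ ∀ n : ℕ, n₀ ≤ n → ∀ c : Cf, c.Mini n 1 →
    c.EL → c.E ≤ K * n ^ 2 → 0 < c.F 0 := by
  obtain ⟨C, hC, n₁, hn₁, htwo⟩ := two K hK
  have hK0 : 0 < K := by linarith
  obtain ⟨κ, hκ⟩ : ∃ κ : ℝ, κ = 1 / (160000000 * K ^ 2) := ⟨_, rfl⟩
  have hκ0 : 0 < κ := by rw [hκ]; positivity
  obtain ⟨n₂, hn₂⟩ := exists_nat_ge (4 * K + 2 * (12 * K + Real.sqrt C) + (Real.sqrt C + C) / κ + 1)
  refine ⟨max n₁ n₂, le_trans hn₁ (le_max_left _ _), fun n hn c hM hEL hE => ?_⟩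
  have hnn₁ : n₁ ≤ n := le_trans (le_max_left _ _) hn
  have hnn₂ : n₂ ≤ n := le_trans (le_max_right _ _) hn
  have hn2 : 2 ≤ n := hn₁.trans hnn₁
  have hn0 : 0 < n := by omega
  have hnR : (n₂ : ℝ) ≤ n := by exact_mod_cast hnn₂
  have hsC : 0 ≤ Real.sqrt C := Real.sqrt_nonneg C
  have hq : 0 ≤ (Real.sqrt C + C) / κ := by positivity
  have hnK : 4 * K ≤ n := by nlinarith
  have hnβ : 2 * (12 * K + Real.sqrt C) ≤ n := by nlinarith
  have hnκ : (Real.sqrt C + C) / κ < n := by nlinarith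
  have hn1 : (1 : ℝ) ≤ n := by exact_mod_cast hn0
  have hnp : (0 : ℝ) < n := by linarith
  have hc : c.Adm n := hM.1.1
  have hr : c.Rad := hM.2.1
  obtain ⟨ρ, hρ1, hρ2, hβ1, hβ2, hD⟩ := htwo n hnn₁ c hM hE
  obtain ⟨D, hDd⟩ : ∃ D, D = dfc c n ρ := ⟨_, rfl⟩
  rw [← hDd] at hD
  -- `ρ ≥ 1`
  have hsK : Real.sqrt K ≤ K := by
    rw [Real.sqrt_le_left hK0.le]
    nlinarith
  have hsK0 : 0 < Real.sqrt K := Real.sqrt_pos.2 hK0
  have hρ : 1 ≤ ρ := by
    refine le_trans ?_ hρ1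
    rw [le_div_iff₀ (by positivity)]
    nlinarith
  have hρ0 : 0 < ρ := by linarith
  obtain ⟨F₀, hF₀⟩ : ∃ F₀, F₀ = 2 * c.beta n ρ / ρ ^ 2 := ⟨_, rfl⟩
  have hn3 : (0 : ℝ) < (n : ℝ) ^ 3 := by positivity
  have hβ0 : 0 < c.beta n ρ := lt_of_lt_of_le (by positivity) hβ1
  -- bounds of `F₀`
  have hFlow : κ / n ≤ F₀ := by
    rw [hF₀, hκ, div_div, div_le_div_iff₀ (by positivity) (by positivity), one_mul]
    have h1 : ρ ^ 2 ≤ (4000 * K * n ^ 2) ^ 2 := pow_le_pow_left₀ hρ0.le hρ2 2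
    have h2 : 2 * (n ^ 3 / 20) * (160000000 * K ^ 2 * n) ≤
        2 * c.beta n ρ * (160000000 * K ^ 2 * n) := by
      refine mul_le_mul_of_nonneg_right (by linarith) (by positivity)
    refine h1.trans (le_trans (le_of_eq ?_) h2)
    ring
  have hFup : F₀ ≤ 24 * K / n := by
    rw [hF₀, div_le_div_iff₀ (by positivity) hnp]
    have h1 : (n ^ 2 / (4 * Real.sqrt K)) ^ 2 ≤ ρ ^ 2 := pow_le_pow_left₀ (by positivity) hρ1 2
    have h2 : (n ^ 2 / (4 * Real.sqrt K)) ^ 2 = (n : ℝ) ^ 4 / (16 * K) := by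
      rw [div_pow, mul_pow, Real.sq_sqrt hK0.le]
      ring
    rw [h2] at h1
    have h3 : 24 * K * ((n : ℝ) ^ 4 / (16 * K)) ≤ 24 * K * ρ ^ 2 :=
      mul_le_mul_of_nonneg_left h1 (by positivity)
    have h4 : 24 * K * ((n : ℝ) ^ 4 / (16 * K)) = 3 / 2 * n ^ 4 := by
      field_simp
      ring
    rw [h4] at h3
    refine le_trans ?_ h3
    have h5 : 2 * c.beta n ρ * n ≤ 2 * (3 / 4 * n ^ 3) * n :=
      mul_le_mul_of_nonneg_right (by linarith) hnp.le
    refine h5.trans (le_of_eq ?_)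
    ring
  obtain ⟨hg1, hg2, hg3⟩ := dfc_le (c := c) (n := n) hc (ρ := ρ)
  rw [← hDd] at hg1 hg2 hg3
  -- `√D ≤ √C / n²`
  have hsD : Real.sqrt D ≤ Real.sqrt C / n ^ 2 := by
    rw [Real.sqrt_le_left (by positivity), div_pow, Real.sq_sqrt hC.le]
    refine hD.trans (le_of_eq ?_)
    ring
  have hsDn : Real.sqrt D ≤ Real.sqrt C / n := by
    refine hsD.trans (div_le_div_of_nonneg_left hsC hnp ?_)
    nlinarith
  have hDn : D ≤ C / n ^ 2 := by
    refine hD.trans (div_le_div_of_nonneg_left hC.le (by positivity) ?_)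
    exact pow_le_pow_right₀ hn1 (by norm_num)
  -- the flux is small in the unit disc
  have hβs : ∀ s, 0 ≤ s → s ≤ 1 → |c.beta n s| ≤ 1 / 2 := by
    intro s hs0 hs1
    have h1 := flux_sub hn0 hc hr hs0 (hs1.trans hρ)
    rw [← hDd] at h1
    have h2 : c.beta n ρ / ρ ^ 2 * s ^ 2 ≤ 12 * K / n := by
      have h3 : c.beta n ρ / ρ ^ 2 = F₀ / 2 := by rw [hF₀]; ring
      rw [h3]
      have h4 : s ^ 2 ≤ 1 := pow_le_one₀ hs0 hs1
      have h5 : 0 ≤ F₀ / 2 := by
        rw [hF₀]; positivity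
      calc F₀ / 2 * s ^ 2 ≤ F₀ / 2 * 1 := mul_le_mul_of_nonneg_left h4 h5
        _ ≤ 24 * K / n / 2 := by linarith
        _ = 12 * K / n := by ring
    have h3 : 0 ≤ c.beta n ρ / ρ ^ 2 * s ^ 2 := by positivity
    have h4 : s * Real.sqrt D ≤ Real.sqrt C / n := by
      calc s * Real.sqrt D ≤ 1 * Real.sqrt D :=
            mul_le_mul_of_nonneg_right hs1 (Real.sqrt_nonneg _)
        _ ≤ Real.sqrt C / n := by rw [one_mul]; exact hsDn
    have h5 : 12 * K / n + Real.sqrt C / n ≤ 1 / 2 := by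
      rw [← add_div, div_le_iff₀ hnp]
      linarith
    have h6 := abs_le.1 h1
    rw [abs_le]
    constructor <;> linarith [h6.1, h6.2]
  -- a good circle
  have hsub : Metric.ball (0 : ℂ) 1 ⊆ Metric.ball 0 ρ := Metric.ball_subset_ball hρ
  have hcF : Continuous fun z => (c.F z - F₀) ^ 2 := by
    have := (Cf.Adm.contDiff_F hc).continuous
    fun_prop
  have h1 : ∫ z in Metric.ball (0 : ℂ) 1, (c.F z - F₀) ^ 2 ≤ 2 * D := by
    refine le_trans ?_ hg2
    rw [← hF₀]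
    refine setIntegral_mono_set ?_ (Filter.Eventually.of_forall fun z => sq_nonneg _)
      hsub.eventuallyLE
    exact (hcF.continuousOn.integrableOn_compact (isCompact_closedBall (0 : ℂ) ρ)).mono_set
      Metric.ball_subset_closedBall
  have h2 : ∫ z in Metric.ball (0 : ℂ) 1, c.grad z ≤ 2 * D := by
    refine le_trans ?_ hg1
    refine setIntegral_mono_set (Cf.Adm.int_grad hc).integrableOn
      (Filter.Eventually.of_forall fun z => Cf.grad_nonneg c z) hsub.eventuallyLE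
  obtain ⟨r, hrI, hr1⟩ := exists_close hc hg3 h1
  have h3 := Fbar_var hn2 hc hEL (r := r) (by linarith [hrI.1]) hrI.2 hβs h2
  have h4 := abs_le.1 hr1
  have h5 := abs_le.1 h3
  -- conclusion
  have h6 : Real.sqrt D + D < κ / n := by
    have h7 : Real.sqrt D + D ≤ (Real.sqrt C + C) / n ^ 2 := by
      rw [add_div]
      linarith
    refine lt_of_le_of_lt h7 ?_
    rw [div_lt_div_iff₀ (by positivity) hnp]
    have h8 : Real.sqrt C + C < n * κ := by
      rwa [div_lt_iff₀ hκ0] at hnκ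
    nlinarith
  linarith [h4.1, h4.2, h5.1, h5.2]

end GO3
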