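import Pool.Agent.GO3.Gau

/-!
# GO3 / V / Arg: functions of the angle, the normalising gauge (helper30)

PROOFS.
* `smooth_arg`: if `z ∈ Complex.slitPlane`, `arg = im ∘ log` is smooth (`Complex.contDiffAt_log`, restrict scalars).  Otherwise
  `-z ∈ slitPlane` and near `z`: `arg y - arg (-y) ∈ {π, -π}` for `y ≠ 0`, so `f (arg y) = f (arg (-y) + π)` by periodicity
  (`Complex.arg_neg_eq_arg_add_pi_iff`, ... or: `y = ‖y‖ e^{i arg y}`, `-y = ‖y‖ e^{i arg (-y)}`, so `e^{i (arg y - arg (-y) - π)} = 1`,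
  `Complex.exp_eq_one_iff`), a smooth function.
* `arg_pt`: `e^{i arg (pt r χ)} = e^{i χ}`, so the difference is a multiple of `2π` (`Complex.exp_eq_exp_iff_exists_int`).
* `Omg`: `Ω χ = B ρ χ - β ρ χ`.  `Omg_per`: `B_rot`: `Ω (χ + 2 α) = Ω χ`, iterate `n ^ 3` times.  `Omg_odd`: `b` is even
  (`b_star`), so `B ρ (-χ) = -B ρ χ`.  `Omg_deriv`: fundamental theorem of calculus.
* `exists_norm`: `θ x = Real.smoothTransition (4 x / ρ - 1)` (`0` for `x ≤ ρ/4`, `1` for `x ≥ ρ/2`), `om z = -θ ‖z‖ Ω (arg z)`.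
  Smooth (zero near `0`).  `om (ζ z)`: `arg (ζ z) = arg z + 2 α` up to `2π ℤ`; `om (conj z) = -om z`: `arg (conj z) = - arg z` up to
  `2π ℤ`, `Omg_odd` (write `z = pt ‖z‖ χ`, `exists_pt`, and use `arg_pt`).  For `‖z‖ ≥ ρ/2`: `om` is constant along the ray, so
  `fderiv om z z = 0` (one-sided derivative is enough, `om` is smooth), and `ip (A z) z = 0` (`Rad.ip_self`), `ip_nab`.
  `b ρ χ`: `ip (A z + ∇om z) (i z) = b ρ χ + ∂_χ om (pt ρ χ) = b ρ χ - Ω' χ = β`.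
-/

open MeasureTheory Filter Topology Set
open scoped ContDiff Real

noncomputable section

namespace GO3.Vc

private theorem per_eq {f : ℝ → ℝ} (hp : ∀ x, f (x + 2 * π) = f x) {a b : ℝ}
    (h : Complex.exp (a * Complex.I) = Complex.exp (b * Complex.I)) : f a = f b := by
  rw [Complex.exp_eq_exp_iff_exists_int] at h
  obtain ⟨k, hk⟩ := h
  have h1 : (a : ℂ) = b + k * (2 * π) := by
    have h2 : ((a : ℂ) - (b + k * (2 * π))) * Complex.I = 0 := by linear_combination hk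
    rcases mul_eq_zero.1 h2 with h3 | h3
    · linear_combination h3
    · exact absurd h3 Complex.I_ne_zero
  have h2 : a = b + k * (2 * π) := by exact_mod_cast h1
  have hper : Function.Periodic f (2 * π) := hp
  rw [h2]
  exact hper.int_mul k b

private theorem smooth_arg0 {f : ℝ → ℝ} (hf : ContDiff ℝ ∞ f) {z : ℂ}
    (hz : z ∈ Complex.slitPlane) : ContDiffAt ℝ ∞ (fun y : ℂ => f y.arg) z := by
  have h1 : ContDiffAt ℝ ∞ Complex.log z := (Complex.contDiffAt_log hz).restrict_scalars ℝ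
  have h2 : ContDiffAt ℝ ∞ (fun y : ℂ => (Complex.log y).im) z :=
    Complex.imCLM.contDiff.contDiffAt.comp z h1
  have h3 : ContDiffAt ℝ ∞ (fun y : ℂ => y.arg) z :=
    h2.congr_of_eventuallyEq (Eventually.of_forall fun y => (Complex.log_im y).symm)
  exact hf.contDiffAt.comp z h3

theorem smooth_arg {f : ℝ → ℝ} (hf : ContDiff ℝ ∞ f) (hp : ∀ x, f (x + 2 * π) = f x) {z : ℂ}
    (hz : z ≠ 0) : ContDiffAt ℝ ∞ (fun y : ℂ => f y.arg) z := by
  by_cases h : z ∈ Complex.slitPlane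
  · exact smooth_arg0 hf h
  · have h1 : -z ∈ Complex.slitPlane := by
      rw [Complex.mem_slitPlane_iff] at h ⊢
      push Not at h
      obtain ⟨h2, h3⟩ := h
      left
      rw [Complex.neg_re]
      have h4 : z.re ≠ 0 := fun h5 => hz (Complex.ext h5 h3)
      have : z.re < 0 := lt_of_le_of_ne h2 h4
      linarith
    have hg : ContDiff ℝ ∞ (fun x => f (x + π)) := hf.comp (contDiff_id.add contDiff_const)
    have h2 : ContDiffAt ℝ ∞ (fun y : ℂ => f (y.arg + π)) (-z) := smooth_arg0 hg h1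
    have h3 : ContDiffAt ℝ ∞ (fun y : ℂ => f ((-y).arg + π)) z :=
      ContDiffAt.comp (g := fun y : ℂ => f (y.arg + π)) z h2 contDiff_neg.contDiffAt
    refine h3.congr_of_eventuallyEq ?_
    filter_upwards [isOpen_ne.mem_nhds hz] with y hy
    refine per_eq hp ?_
    have hy' : y ≠ 0 := hy
    have e1 := Complex.norm_mul_exp_arg_mul_I y
    have e2 := Complex.norm_mul_exp_arg_mul_I (-y)
    rw [norm_neg] at e2
    have hn : ((‖y‖ : ℝ) : ℂ) ≠ 0 := by
      exact_mod_cast (norm_pos_iff.2 hy').ne'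
    apply mul_left_cancel₀ hn
    push_cast
    rw [e1, add_mul, Complex.exp_add, Complex.exp_pi_mul_I, ← mul_assoc, e2]
    ring

theorem arg_pt {f : ℝ → ℝ} (hp : ∀ x, f (x + 2 * π) = f x) {r : ℝ} (hr : 0 < r) (χ : ℝ) :
    f (pt r χ).arg = f χ := by
  refine per_eq hp ?_
  have e1 := Complex.norm_mul_exp_arg_mul_I (pt r χ)
  rw [norm_pt, abs_of_pos hr] at e1
  have hn : ((r : ℝ) : ℂ) ≠ 0 := by exact_mod_cast hr.ne'
  exact mul_left_cancel₀ hn e1

variable {c : Cf} {n : ℕ}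

/-- `Ω χ = ∫_0^χ (b (ρ, t) - β (ρ)) dt` -/
def Omg (c : Cf) (n : ℕ) (ρ χ : ℝ) : ℝ := c.B ρ χ - c.beta n ρ * χ

theorem Omg_smooth (hc : c.Adm n) (ρ : ℝ) : ContDiff ℝ ∞ (Omg c n ρ) := by
  have h1 : ContDiff ℝ ∞ fun χ : ℝ => c.B ρ χ :=
    (Cf.Adm.contDiff_B hc).comp (contDiff_const.prodMk contDiff_id)
  exact h1.sub (contDiff_const.mul contDiff_id)

theorem Omg_rot (hn : 0 < n) (hc : c.Adm n) (ρ χ : ℝ) : Omg c n ρ (χ + 2 * al n) = Omg c n ρ χ := by
  unfold Omg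
  rw [Cf.Adm.B_rot hn hc]
  ring

theorem Omg_per (hn : 0 < n) (hc : c.Adm n) (ρ χ : ℝ) : Omg c n ρ (χ + 2 * π) = Omg c n ρ χ := by
  have h1 : Function.Periodic (Omg c n ρ) (2 * al n) := Omg_rot hn hc ρ
  have h2 := h1.nat_mul (n ^ 3) χ
  have hn0 : (n : ℝ) ≠ 0 := by exact_mod_cast hn.ne'
  have h3 : ((n ^ 3 : ℕ) : ℝ) * (2 * al n) = 2 * π := by
    unfold al
    push_cast
    field_simp
  rw [h3] at h2
  exact h2

private theorem cont_b (hc : c.Adm n) (ρ : ℝ) : Continuous (c.b ρ) :=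
  (Cf.Adm.contDiff_b hc).continuous.comp (Continuous.prodMk_right ρ)

theorem Omg_odd (hc : c.Adm n) (ρ χ : ℝ) : Omg c n ρ (-χ) = -Omg c n ρ χ := by
  have h1 : c.B ρ (-χ) = -c.B ρ χ := by
    unfold Cf.B
    have h2 := intervalIntegral.integral_comp_neg (a := 0) (b := χ) (fun t => c.b ρ t)
    rw [neg_zero] at h2
    rw [intervalIntegral.integral_symm, ← h2]
    congr 1
    exact intervalIntegral.integral_congr fun t _ => Cf.Adm.b_star hc ρ t
  unfold Omg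
  rw [h1]
  ring

theorem Omg_deriv (hc : c.Adm n) (ρ χ : ℝ) :
    HasDerivAt (Omg c n ρ) (c.b ρ χ - c.beta n ρ) χ := by
  have h1 : HasDerivAt (fun χ => c.B ρ χ) (c.b ρ χ) χ :=
    ((cont_b hc ρ).integral_hasStrictDerivAt 0 χ).hasDerivAt
  have h2 : HasDerivAt (fun χ : ℝ => c.beta n ρ * χ) (c.beta n ρ) χ := by
    simpa using (hasDerivAt_id χ).const_mul (c.beta n ρ)
  exact h1.sub h2

/-- The normalising gauge: for `|z| ≥ ρ/2` the gauge is radial and `b (ρ, χ) = β (ρ)` for all `χ`. -/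
theorem exists_norm (hn : 0 < n) (hc : c.Adm n) (hr : c.Rad) {ρ : ℝ} (hρ : 0 < ρ) :
    ∃ om : ℂ → ℝ, GSym n om ∧ (∀ z : ℂ, ρ / 2 ≤ ‖z‖ → ip ((c.gt om).A z) z = 0) ∧
      ∀ χ, (c.gt om).b ρ χ = c.beta n ρ := by
  have hper := Omg_per hn hc ρ
  obtain ⟨θ, hθ⟩ : ∃ θ : ℝ → ℝ, θ = fun x => Real.smoothTransition (4 * x / ρ - 1) := ⟨_, rfl⟩
  have hθs : ContDiff ℝ ∞ θ := by
    rw [hθ]
    exact Real.smoothTransition.contDiff.comp
      (((contDiff_const.mul contDiff_id).div_const ρ).sub contDiff_const)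
  have hθ0 : ∀ x, x ≤ ρ / 4 → θ x = 0 := by
    intro x hx
    rw [hθ]
    refine Real.smoothTransition.zero_of_nonpos ?_
    rw [sub_nonpos, div_le_one hρ]
    linarith
  have hθ1 : ∀ x, ρ / 2 ≤ x → θ x = 1 := by
    intro x hx
    rw [hθ]
    refine Real.smoothTransition.one_of_one_le ?_
    rw [le_sub_iff_add_le, le_div_iff₀ hρ]
    linarith
  obtain ⟨om, hom⟩ : ∃ om : ℂ → ℝ, om = fun z => -(θ ‖z‖ * Omg c n ρ z.arg) := ⟨_, rfl⟩
  have hpt : ∀ {r : ℝ}, 0 < r → ∀ χ, om (pt r χ) = -(θ r * Omg c n ρ χ) := by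
    intro r hr0 χ
    rw [hom]
    show -(θ ‖pt r χ‖ * Omg c n ρ (pt r χ).arg) = _
    rw [norm_pt, abs_of_pos hr0, arg_pt hper hr0]
  have hzero : om 0 = 0 := by
    rw [hom]
    show -(θ ‖(0 : ℂ)‖ * _) = 0
    rw [norm_zero, hθ0 0 (by positivity), zero_mul, neg_zero]
  have hsm : ContDiff ℝ ∞ om := by
    rw [contDiff_iff_contDiffAt]
    intro z
    by_cases hz : z = 0
    · subst hz
      have h1 : om =ᶠ[𝓝 0] fun _ => (0 : ℝ) := by
        have h2 : Metric.ball (0 : ℂ) (ρ / 4) ∈ 𝓝 (0 : ℂ) := Metric.ball_mem_nhds _ (by positivity)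
        filter_upwards [h2] with y hy
        rw [mem_ball_zero_iff] at hy
        rw [hom]
        show -(θ ‖y‖ * _) = 0
        rw [hθ0 _ hy.le, zero_mul, neg_zero]
      exact contDiffAt_const.congr_of_eventuallyEq h1
    · have h1 : ContDiffAt ℝ ∞ (fun z : ℂ => ‖z‖) z := contDiffAt_norm ℝ hz
      have h2 : ContDiffAt ℝ ∞ (fun z : ℂ => θ ‖z‖) z := hθs.contDiffAt.comp z h1
      rw [hom]
      exact (h2.mul (smooth_arg (Omg_smooth hc ρ) hper hz)).neg
  have hG : GSym n om := by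
    refine ⟨hsm, fun z => ?_, fun z => ?_⟩
    · by_cases hz : z = 0
      · rw [hz, mul_zero]
      · obtain ⟨χ, -, hχ⟩ := exists_pt z
        have hz0 : 0 < ‖z‖ := norm_pos_iff.2 hz
        rw [hχ, ze_mul_pt, hpt hz0, hpt hz0, Omg_rot hn hc]
    · by_cases hz : z = 0
      · rw [hz, star_zero, hzero, neg_zero]
      · obtain ⟨χ, -, hχ⟩ := exists_pt z
        have hz0 : 0 < ‖z‖ := norm_pos_iff.2 hz
        rw [hχ, star_pt, hpt hz0, hpt hz0, Omg_odd hc]
        ring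
  refine ⟨om, hG, fun z hz => ?_, fun χ => ?_⟩
  · have hz0 : 0 < ‖z‖ := lt_of_lt_of_le (by positivity) hz
    have h1 : ip ((c.gt om).A z) z = ip (c.A z) z + ip (nab om z) z := by
      change ip (c.A z + nab om z) z = _
      unfold ip
      rw [Complex.add_re, Complex.add_im]
      ring
    have h2 : ip (c.A z) z = 0 := by
      have := Cf.Rad.ip_self hr z 1
      rwa [Complex.ofReal_one, one_mul] at this
    rw [h1, h2, zero_add, Cf.ip_nab hsm]
    obtain ⟨χ, -, hχ⟩ := exists_pt z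
    have hd : HasDerivAt (fun t : ℝ => om (pt t χ)) (fderiv ℝ om (pt ‖z‖ χ) (er χ)) ‖z‖ :=
      (hsm.differentiable (by simp) _).hasFDerivAt.comp_hasDerivAt ‖z‖ (hasDerivAt_pt_r ‖z‖ χ)
    have h3 : HasDerivWithinAt (fun t : ℝ => om (pt t χ)) 0 (Ici ‖z‖) ‖z‖ := by
      refine (hasDerivWithinAt_const ‖z‖ (Ici ‖z‖) (om (pt ‖z‖ χ))).congr (fun t ht => ?_) rfl
      have ht' : ‖z‖ ≤ t := ht
      rw [hpt (lt_of_lt_of_le hz0 ht'), hpt hz0, hθ1 t (hz.trans ht'), hθ1 _ hz]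
    have h4 : fderiv ℝ om (pt ‖z‖ χ) (er χ) = 0 :=
      (uniqueDiffWithinAt_Ici ‖z‖).eq_deriv _ hd.hasDerivWithinAt h3
    have h5 : z = ‖z‖ • er χ := by
      conv_lhs => rw [hχ]
      rw [pt_eq, Complex.real_smul]
    have h6 : fderiv ℝ om z z = ‖z‖ • fderiv ℝ om z (er χ) := by
      rw [← map_smul, ← h5]
    rw [h6]
    have h7 : fderiv ℝ om z (er χ) = 0 := by
      rw [← h4, ← hχ]
    rw [h7, smul_zero]
  · have h1 : (c.gt om).b ρ χ = c.b ρ χ + fderiv ℝ om (pt ρ χ) (Complex.I * pt ρ χ) := by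
      unfold Cf.b
      change ip (c.A (pt ρ χ) + nab om (pt ρ χ)) (Complex.I * pt ρ χ) = _
      rw [← Cf.ip_nab hsm]
      unfold ip
      rw [Complex.add_re, Complex.add_im]
      ring
    have hd : HasDerivAt (fun t : ℝ => om (pt ρ t)) (fderiv ℝ om (pt ρ χ) (Complex.I * pt ρ χ)) χ :=
      (hsm.differentiable (by simp) _).hasFDerivAt.comp_hasDerivAt χ (hasDerivAt_pt_chi ρ χ)
    have h2 : HasDerivAt (fun t : ℝ => om (pt ρ t)) (-(c.b ρ χ - c.beta n ρ)) χ := by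
      refine (Omg_deriv hc ρ χ).neg.congr_of_eventuallyEq (Eventually.of_forall fun t => ?_)
      show om (pt ρ t) = -Omg c n ρ t
      rw [hpt hρ, hθ1 ρ (by linarith), one_mul]
    rw [h1, hd.unique h2]
    ring

end GO3.Vc
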