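import Pool.Agent.GO3.V.Flux
import Pool.Agent.GO3.Ang
import Pool.Agent.GO3.Cng

/-!
# GO3 / V / Circ: the field is close to the vacuum on circles with flux in the middle range (helper30)

PROOF.  `l = n³/20 - 1 ≥ n³/40` (`n ≥ 4`); `1 + l ≤ β` and `β ≤ 3n³/4 ≤ n³ + 1 - l`, so by `dist_mid` and `ang_Xo`:
`P = ∫ ‖w‖² ≤ Xo/l² ≤ 1600 Xo/n⁶`.  `sup_w`: `‖w‖² ≤ P/π + 2 α X` with `Xo = 2 n³ X` (`Xo_eq`), `α = π/n³`:
`2 α X = π Xo/n⁶`; so `‖w‖² ≤ 600 Xo/n⁶ ≤ 600 C₁/n⁴ ≤ 1/4` for large `n`.  So `h² ≥ 3/4` on the circle, `h` has constant sign there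
(continuity in `χ`, connectedness).  `conf6`: if `cc ≤ 0` then `|sin a| ≤ C/√n`; but `a = α (β - 1) ∈ [π/20 - α, 3π/4]`, where
`sin a ≥ 1/10` for large `n` (`sin` is concave on `[0, π]`: it is at least the minimum of the values at the end points;
`sin (π/20 - α) ≥ (2/π)(π/20 - α)`).  So `cc > 0` for large `n`; `cc` is an average of `h`, so `h > 0`.
-/

open MeasureTheory Filter Topology Set
open scoped ContDiff Real

noncomputable section

namespace GO3.Vc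

theorem circ (K : ℝ) (hK : 1 ≤ K) (C₁ : ℝ) : ∃ n₀ : ℕ, 2 ≤ n₀ ∧ ∀ n : ℕ, n₀ ≤ n → ∀ c : Cf,
    c.Adm n → c.Rad → c.E ≤ K * n ^ 2 → ∀ ρ : ℝ, 0 ≤ ρ → n ^ 3 / 20 ≤ c.beta n ρ →
    c.beta n ρ ≤ 3 / 4 * n ^ 3 → c.Xo ρ ≤ C₁ * n ^ 2 →
    (∫ χ in (0 : ℝ)..2 * π, ‖c.w (pt ρ χ)‖ ^ 2) ≤ 1600 * c.Xo ρ / n ^ 6 ∧
    (∀ χ, ‖c.w (pt ρ χ)‖ ≤ 1 / 2) ∧ ∀ χ, 0 < c.h (pt ρ χ) := by
  obtain ⟨C, hC, h6⟩ := conf6 K hK
  obtain ⟨n₁, hn₁⟩ := exists_nat_ge (400 * C ^ 2 + 2400 * |C₁| + 5)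
  have hpi := Real.pi_pos
  have hpi3 := Real.pi_gt_three
  have hpi4 := Real.pi_lt_four
  refine ⟨n₁, ?_, ?_⟩
  · have : (2 : ℝ) ≤ n₁ := by nlinarith [sq_nonneg C, abs_nonneg C₁]
    exact_mod_cast this
  intro n hn c hc hr hE ρ hρ hb1 hb2 hX
  have hnR : 400 * C ^ 2 + 2400 * |C₁| + 5 ≤ (n : ℝ) := hn₁.trans (by exact_mod_cast hn)
  have hC1 := abs_nonneg C₁
  have hn5 : (5 : ℝ) ≤ n := by nlinarith [sq_nonneg C]
  have hn0 : 0 < n := by
    have : (0 : ℝ) < n := by linarith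
    exact_mod_cast this
  have hn2 : 2 ≤ n := by
    have : (2 : ℝ) ≤ n := by linarith
    exact_mod_cast this
  have hnp : (0 : ℝ) < n := by linarith
  have hα := al_pos hn0
  have hn3 : (125 : ℝ) ≤ (n : ℝ) ^ 3 := by
    calc (125 : ℝ) = 5 ^ 3 := by norm_num
      _ ≤ (n : ℝ) ^ 3 := pow_le_pow_left₀ (by norm_num) hn5 3
  have hXo0 : 0 ≤ c.Xo ρ := by
    unfold Cf.Xo
    refine intervalIntegral.integral_nonneg (by positivity) fun χ _ => ?_
    unfold Cf.nsq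
    positivity
  -- the integral
  have hP : (∫ χ in (0 : ℝ)..2 * π, ‖c.w (pt ρ χ)‖ ^ 2) ≤ 1600 * c.Xo ρ / n ^ 6 := by
    have hl0 : (0 : ℝ) < (n : ℝ) ^ 3 / 20 - 1 := by linarith
    have h1 := Cf.ang_Xo hn0 hc ρ hl0 (fun k => Cf.dist_mid (by linarith) (by linarith) k)
    refine h1.trans ?_
    have h2 : ((n : ℝ) ^ 3 / 40) ^ 2 ≤ ((n : ℝ) ^ 3 / 20 - 1) ^ 2 :=
      pow_le_pow_left₀ (by positivity) (by linarith) 2
    calc c.Xo ρ / ((n : ℝ) ^ 3 / 20 - 1) ^ 2 ≤ c.Xo ρ / ((n : ℝ) ^ 3 / 40) ^ 2 :=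
          div_le_div_of_nonneg_left hXo0 (by positivity) h2
      _ = 1600 * c.Xo ρ / n ^ 6 := by
          field_simp
          ring
  have hw2 : ∀ χ, ‖c.w (pt ρ χ)‖ ^ 2 ≤ 1 / 4 := by
    intro χ
    have h1 := Cf.sup_w hn0 hc ρ χ
    have h2 := Cf.Xo_eq hn0 hc ρ
    have h3 : 2 * (al n * c.X n ρ) = π * c.Xo ρ / n ^ 6 := by
      rw [h2]
      unfold al
      field_simp
    have h4 : 2 * ((1 / (2 * π)) * ∫ t in (0 : ℝ)..2 * π, ‖c.w (pt ρ t)‖ ^ 2) ≤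
        1600 / 3 * (c.Xo ρ / n ^ 6) := by
      have h5 : 2 * ((1 / (2 * π)) * ∫ t in (0 : ℝ)..2 * π, ‖c.w (pt ρ t)‖ ^ 2) =
          (∫ t in (0 : ℝ)..2 * π, ‖c.w (pt ρ t)‖ ^ 2) / π := by
        field_simp
      rw [h5, div_le_iff₀ hpi]
      refine hP.trans ?_
      have h6 : 0 ≤ c.Xo ρ / n ^ 6 := by positivity
      have h7 : 1600 * c.Xo ρ / (n : ℝ) ^ 6 = 1600 * (c.Xo ρ / n ^ 6) := by ring
      rw [h7]
      nlinarith
    have h5 : c.Xo ρ / n ^ 6 ≤ |C₁| / n := by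
      rw [div_le_div_iff₀ (by positivity) hnp]
      have h6 : c.Xo ρ ≤ |C₁| * n ^ 2 := hX.trans (by
        refine mul_le_mul_of_nonneg_right (le_abs_self _) (by positivity))
      calc c.Xo ρ * n ≤ |C₁| * n ^ 2 * n := mul_le_mul_of_nonneg_right h6 hnp.le
        _ = |C₁| * (n : ℝ) ^ 3 := by ring
        _ ≤ |C₁| * (n : ℝ) ^ 6 := by
            refine mul_le_mul_of_nonneg_left ?_ hC1
            refine pow_le_pow_right₀ (by linarith) (by norm_num)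
    have h6 : |C₁| / n ≤ 1 / 2400 := by
      rw [div_le_div_iff₀ hnp (by norm_num)]
      nlinarith [sq_nonneg C]
    have h7 : 0 ≤ c.Xo ρ / n ^ 6 := by positivity
    have h8 : π * c.Xo ρ / (n : ℝ) ^ 6 = π * (c.Xo ρ / n ^ 6) := by ring
    rw [h3, h8] at h1
    nlinarith
  refine ⟨hP, fun χ => ?_, ?_⟩
  · exact abs_le_of_sq_le_sq' (by nlinarith [hw2 χ] : ‖c.w (pt ρ χ)‖ ^ 2 ≤ (1 / 2) ^ 2) (by norm_num) |>.2
  have hcont : Continuous fun χ => c.h (pt ρ χ) :=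
    hc.sh.continuous.comp (continuous_pt.comp (by fun_prop : Continuous fun χ : ℝ => (ρ, χ)))
  have hne : ∀ χ, c.h (pt ρ χ) ≠ 0 := by
    intro χ h0
    have h1 := hc.unit (pt ρ χ)
    rw [h0] at h1
    have h2 := hw2 χ
    linarith
  by_contra hcon
  push Not at hcon
  obtain ⟨χ₀, hχ₀⟩ := hcon
  have hall : ∀ χ, c.h (pt ρ χ) ≤ 0 := by
    intro χ
    by_contra h1
    push Not at h1
    obtain ⟨χ₂, h2⟩ := intermediate_value_univ χ₀ χ hcont ⟨hχ₀, h1.le⟩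
    exact hne χ₂ h2
  have hcc : c.cc n ρ ≤ 0 := by
    unfold Cf.cc
    refine mul_nonpos_of_nonneg_of_nonpos (by positivity) ?_
    have h1 : 0 ≤ ∫ χ in (0 : ℝ)..al n, -c.h (pt ρ χ) :=
      intervalIntegral.integral_nonneg hα.le fun χ _ => by linarith [hall χ]
    rw [intervalIntegral.integral_neg] at h1
    linarith
  have hs := h6 n hn2 c hc hr hE ρ hρ hcc
  have hsq : 20 * C < Real.sqrt n := by
    rw [Real.lt_sqrt (by positivity)]
    nlinarith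
  have hlt : C / Real.sqrt n < 1 / 20 := by
    rw [div_lt_div_iff₀ (by linarith [mul_pos (by norm_num : (0 : ℝ) < 20) hC]) (by norm_num)]
    linarith
  have hαn : al n * (n : ℝ) ^ 3 = π := by
    unfold al
    field_simp
  have hα125 : al n ≤ π / 125 := by
    unfold al
    exact div_le_div_of_nonneg_left hpi.le (by norm_num) hn3
  have ha1 : π / 20 - π / 125 ≤ c.aa n ρ := by
    unfold Cf.aa
    have h1 : al n * ((n : ℝ) ^ 3 / 20) ≤ al n * c.beta n ρ := mul_le_mul_of_nonneg_left hb1 hα.le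
    have h2 : al n * ((n : ℝ) ^ 3 / 20) = π / 20 := by
      rw [← hαn]
      ring
    have h3 : al n * (c.beta n ρ - 1) = al n * c.beta n ρ - al n := by ring
    rw [h3]
    linarith
  have ha2 : c.aa n ρ ≤ 3 / 4 * π := by
    unfold Cf.aa
    have h1 : al n * c.beta n ρ ≤ al n * (3 / 4 * (n : ℝ) ^ 3) := mul_le_mul_of_nonneg_left hb2 hα.le
    have h2 : al n * (3 / 4 * (n : ℝ) ^ 3) = 3 / 4 * π := by
      rw [← hαn]
      ring
    have h3 : al n * (c.beta n ρ - 1) = al n * c.beta n ρ - al n := by ring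
    rw [h3]
    linarith
  have hsin : 1 / 20 ≤ Real.sin (c.aa n ρ) := by
    rcases le_total (c.aa n ρ) (π / 2) with h | h
    · have h1 := Real.mul_le_sin (x := c.aa n ρ) (by linarith) h
      have h2 : 2 / π * (π / 20 - π / 125) ≤ 2 / π * c.aa n ρ :=
        mul_le_mul_of_nonneg_left ha1 (by positivity)
      have h3 : 2 / π * (π / 20 - π / 125) = 21 / 250 := by
        field_simp
        norm_num
      linarith
    · have h1 := Real.mul_le_sin (x := π - c.aa n ρ) (by linarith) (by linarith)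
      rw [Real.sin_pi_sub] at h1
      have h2 : 2 / π * (π / 4) ≤ 2 / π * (π - c.aa n ρ) :=
        mul_le_mul_of_nonneg_left (by linarith) (by positivity)
      have h3 : 2 / π * (π / 4) = 1 / 2 := by
        field_simp
        norm_num
      linarith
  have h7 := le_abs_self (Real.sin (c.aa n ρ))
  linarith

end GO3.Vc
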