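import Pool.Agent.GO3.V.Vac
import Pool.Agent.GO3.V.Circ
import Pool.Agent.GO3.Lmo

/-!
# GO3 / V / Dfc: a minimiser has small defect (V2, V3 of the proof text) (helper30)

PROOFS.
* `psi_zero`: `a = α (β - 1) ≤ 3π/4`, so `|a - π| ≥ π/4` and `psi a = 0` (definition of `psi`).
* `cls_vac`: `Z' = Z` on `[0, ∞)`: for `r ≥ ρ` the data `aa, cc, V` agree; for `r ≤ ρ`: `β ≤ 3n³/4` gives `Z = 1`, and
  `β' = t β(ρ) r²/ρ² + (1 - t) β(r) ≤ 3n³/4` (`0 ≤ β ρ ≤ 3 n³/4`, `r²/ρ² ≤ 1`), so `Z' = 1`.  `wind_iff`, `Wd_congr`.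
* `defect`: let `X = Xo ρ`, `P ≤ 1600 X/n⁶` (`circ`), `L = 1/n` (`≤ ρ/2` for large `n`).  For every `ε > 0` `vac_exists` gives `c'` in
  the class (`cls_vac`), so `E ≤ E'`, i.e.
  `EOn (ball 0 ρ) ≤ 2 π β²/ρ² + C (ρ n P + X/(n ρ) + β²/(n³ ρ³) P + ρ P/n) + ε`.
  With `n²/(4√K) ≤ ρ ≤ 4000 K n²`, `0 ≤ β ≤ n³`: `ρ n P ≤ 6.4·10⁶ K X/n³`, `X/(nρ) ≤ 4√K X/n³`,
  `β² P/(n³ρ³) ≤ 64 K^{3/2} n⁶/(n³ n⁶) · 1600 X/n⁶ ≤ C X/n³`, `ρ P/n ≤ C X/n³`.  `square` gives `dfc ≤ C' X/n³ + ε`; `ε → 0`.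
-/

open MeasureTheory Filter Topology Set
open scoped ContDiff Real

noncomputable section

namespace GO3.Vc

theorem psi_zero {c : Cf} {n : ℕ} (hn : 2 ≤ n) {r : ℝ} (h : c.beta n r ≤ 3 / 4 * n ^ 3) :
    psi (c.aa n r) = 0 := by
  have hn0 : (0 : ℝ) < n := by exact_mod_cast (by omega : 0 < n)
  have hp := Real.pi_pos
  have h1 : c.aa n r ≤ 3 * π / 4 := by
    unfold Cf.aa al
    rw [div_mul_eq_mul_div, div_le_iff₀ (by positivity)]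
    nlinarith
  have h2 : π / 4 ≤ |c.aa n r - π| := by
    rw [abs_sub_comm]
    refine le_trans ?_ (le_abs_self _)
    linarith
  have h3 : 2 ≤ (8 / π) * |c.aa n r - π| := by
    have h4 := mul_le_mul_of_nonneg_left h2 (by positivity : 0 ≤ 8 / π)
    have h5 : 8 / π * (π / 4) = 2 := by
      field_simp
      norm_num
    linarith
  unfold psi
  refine max_eq_left ((min_le_right _ _).trans ?_)
  linarith

theorem cls_vac {c c' : Cf} {n : ℕ} (hn : 2 ≤ n) (hW : c.Wind n) (hc' : c'.Adm n) (h0 : c'.h 0 = 1)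
    {ρ : ℝ} (hρ : 0 < ρ) (hβ : ∀ r, 0 ≤ r → r ≤ ρ → c.beta n r ≤ 3 / 4 * n ^ 3) (hβ0 : 0 ≤ c.beta n ρ)
    (h1 : ∀ r, ρ ≤ r → c'.aa n r = c.aa n r ∧ c'.cc n r = c.cc n r ∧ c'.V n r = c.V n r)
    (h2 : ∀ r, 0 ≤ r → r ≤ ρ → ∃ t ∈ Icc (0 : ℝ) 1,
      c'.beta n r = t * (c.beta n ρ * r ^ 2 / ρ ^ 2) + (1 - t) * c.beta n r) : c'.Cls n 1 := by
  refine ⟨hc', ?_, h0⟩
  refine (wind_iff c' n).2 (Wd_congr ?_ ((wind_iff c n).1 hW))
  intro r hr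
  rcases le_total ρ r with hle | hle
  · obtain ⟨e1, e2, e3⟩ := h1 r hle
    unfold Cf.Z
    rw [e1, e2, e3]
  · have e1 := psi_zero hn (hβ r hr hle)
    have e2 : psi (c'.aa n r) = 0 := by
      refine psi_zero hn ?_
      obtain ⟨t, ht, e⟩ := h2 r hr hle
      rw [e]
      have h3 : c.beta n ρ * r ^ 2 / ρ ^ 2 ≤ 3 / 4 * n ^ 3 := by
        refine le_trans ?_ (hβ ρ hρ.le le_rfl)
        rw [div_le_iff₀ (by positivity)]
        exact mul_le_mul_of_nonneg_left (pow_le_pow_left₀ hr hle 2) hβ0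
      have h4 := mul_le_mul_of_nonneg_left h3 ht.1
      have h5 := mul_le_mul_of_nonneg_left (hβ r hr hle) (sub_nonneg.2 ht.2)
      linarith
    unfold Cf.Z
    rw [e1, e2]
    simp

private theorem dfc_arith {K N ρ β X P V : ℝ} (hK : 1 ≤ K) (hN : 1 ≤ N) (hρ0 : 0 < ρ)
    (h1 : N ^ 2 ≤ 4 * K * ρ) (h2 : ρ ≤ 4000 * K * N ^ 2) (hβ0 : 0 ≤ β) (hβ : β ≤ N ^ 3)
    (hX : 0 ≤ X) (hP0 : 0 ≤ P) (hP : P ≤ 1600 * X / N ^ 6) (hV : 0 ≤ V) :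
    V * (ρ / (1 / N) * P + 1 / N / ρ * X + β ^ 2 * (1 / N) ^ 3 / ρ ^ 3 * P + 1 / N * ρ * P) ≤
      V * (20000000 * K ^ 3) * X / N ^ 3 := by
  have hN0 : 0 < N := by linarith
  have hK0 : 0 < K := by linarith
  have hK2 : K ≤ K ^ 3 := by
    have h3 : 1 ≤ K ^ 2 := one_le_pow₀ hK
    nlinarith
  have hx : 0 ≤ X / N ^ 3 := by positivity
  -- first term
  have t1 : ρ / (1 / N) * P ≤ 6400000 * K ^ 3 * (X / N ^ 3) := by
    have e1 : ρ / (1 / N) * P ≤ (4000 * K * N ^ 2 * N) * (1600 * X / N ^ 6) := by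
      rw [div_div_eq_mul_div, div_one]
      refine mul_le_mul (mul_le_mul_of_nonneg_right h2 hN0.le) hP hP0 (by positivity)
    have e2 : (4000 * K * N ^ 2 * N) * (1600 * X / N ^ 6) = 6400000 * K * (X / N ^ 3) := by
      field_simp
      ring
    have e3 : 6400000 * K * (X / N ^ 3) ≤ 6400000 * K ^ 3 * (X / N ^ 3) :=
      mul_le_mul_of_nonneg_right (by linarith) hx
    linarith
  have hinv : 1 / ρ ≤ 4 * K / N ^ 2 := by
    rw [div_le_div_iff₀ hρ0 (by positivity)]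
    linarith
  have t2 : 1 / N / ρ * X ≤ 4 * K ^ 3 * (X / N ^ 3) := by
    have e1 : 1 / N / ρ * X = (X / N) * (1 / ρ) := by ring
    have e2 : (X / N) * (1 / ρ) ≤ (X / N) * (4 * K / N ^ 2) :=
      mul_le_mul_of_nonneg_left hinv (by positivity)
    have e3 : (X / N) * (4 * K / N ^ 2) = 4 * K * (X / N ^ 3) := by
      field_simp
    have e4 : 4 * K * (X / N ^ 3) ≤ 4 * K ^ 3 * (X / N ^ 3) :=
      mul_le_mul_of_nonneg_right (by linarith) hx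
    linarith
  have t3 : β ^ 2 * (1 / N) ^ 3 / ρ ^ 3 * P ≤ 102400 * K ^ 3 * (X / N ^ 3) := by
    have e1 : β ^ 2 * (1 / N) ^ 3 / ρ ^ 3 * P = (β ^ 2 * (1 / N) ^ 3) * (1 / ρ) ^ 3 * P := by
      rw [one_div ρ, inv_pow]
      ring
    have e2 : (β ^ 2 * (1 / N) ^ 3) * (1 / ρ) ^ 3 * P ≤
        ((N ^ 3) ^ 2 * (1 / N) ^ 3) * (4 * K / N ^ 2) ^ 3 * (1600 * X / N ^ 6) := by
      refine mul_le_mul ?_ hP hP0 (by positivity)
      refine mul_le_mul ?_ (pow_le_pow_left₀ (by positivity) hinv 3) (by positivity) (by positivity)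
      exact mul_le_mul_of_nonneg_right (pow_le_pow_left₀ hβ0 hβ 2) (by positivity)
    have e3 : ((N ^ 3) ^ 2 * (1 / N) ^ 3) * (4 * K / N ^ 2) ^ 3 * (1600 * X / N ^ 6) =
        102400 * K ^ 3 * (X / N ^ 3) * (1 / N ^ 6) := by
      field_simp
      ring
    have e4 : 102400 * K ^ 3 * (X / N ^ 3) * (1 / N ^ 6) ≤ 102400 * K ^ 3 * (X / N ^ 3) := by
      refine mul_le_of_le_one_right (by positivity) ?_
      rw [div_le_one (by positivity)]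
      exact one_le_pow₀ hN
    linarith
  have t4 : 1 / N * ρ * P ≤ 6400000 * K ^ 3 * (X / N ^ 3) := by
    have e0 : 1 / N ≤ N := by
      rw [div_le_iff₀ hN0]
      nlinarith
    have e1 : 1 / N * ρ * P ≤ ρ / (1 / N) * P := by
      rw [div_div_eq_mul_div, div_one]
      refine mul_le_mul_of_nonneg_right ?_ hP0
      rw [mul_comm]
      exact mul_le_mul_of_nonneg_left e0 hρ0.le
    linarith
  have e : V * (20000000 * K ^ 3) * X / N ^ 3 = V * (20000000 * K ^ 3 * (X / N ^ 3)) := by ring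
  rw [e]
  refine mul_le_mul_of_nonneg_left ?_ hV
  have : 0 ≤ K ^ 3 * (X / N ^ 3) := by positivity
  linarith

theorem defect (K : ℝ) (hK : 1 ≤ K) (C₁ : ℝ) : ∃ C : ℝ, 0 < C ∧ ∃ n₀ : ℕ, 2 ≤ n₀ ∧ ∀ n : ℕ, n₀ ≤ n →
    ∀ c : Cf, c.Mini n 1 → c.E ≤ K * n ^ 2 → ∀ ρ : ℝ, n ^ 2 / (4 * Real.sqrt K) ≤ ρ →
    ρ ≤ 4000 * K * n ^ 2 → (∀ r, 0 ≤ r → r ≤ ρ → c.beta n r ≤ 3 / 4 * n ^ 3) →
    n ^ 3 / 20 ≤ c.beta n ρ → c.Xo ρ ≤ C₁ * n ^ 2 → dfc c n ρ ≤ C * c.Xo ρ / n ^ 3 := by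
  obtain ⟨V, hV1, hV⟩ := vac_exists
  obtain ⟨n₁, hn₁, hcirc⟩ := circ K hK C₁
  obtain ⟨n₂, hn₂⟩ := exists_nat_ge (8 * K)
  have hK0 : 0 < K := by linarith
  have hs1 : 1 ≤ Real.sqrt K := Real.one_le_sqrt.2 hK
  have hsK : Real.sqrt K ≤ K := by
    have := Real.sq_sqrt hK0.le
    nlinarith
  refine ⟨V * (20000000 * K ^ 3), by positivity, max n₁ n₂, le_max_of_le_left hn₁, ?_⟩
  intro n hn c hM hE ρ hρ1 hρ2 hβ hβ1 hX
  have hnn1 : n₁ ≤ n := (le_max_left _ _).trans hn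
  have hnn2 : n₂ ≤ n := (le_max_right _ _).trans hn
  have hn2 : 2 ≤ n := hn₁.trans hnn1
  have hN2 : (2 : ℝ) ≤ n := by exact_mod_cast hn2
  have hN0 : (0 : ℝ) < n := by linarith
  have hN8 : 8 * K ≤ n := hn₂.trans (by exact_mod_cast hnn2)
  obtain ⟨⟨hA, hW, h0⟩, hR, hmin⟩ := hM
  have hρ0 : 0 < ρ := lt_of_lt_of_le (by positivity) hρ1
  have hρK : (n : ℝ) ^ 2 ≤ 4 * K * ρ := by
    rw [div_le_iff₀ (by positivity)] at hρ1
    nlinarith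
  have hL : 1 / (n : ℝ) ≤ ρ / 2 := by
    rw [div_le_div_iff₀ hN0 (by norm_num)]
    have h1 : 8 * K ≤ (n : ℝ) ^ 2 * n := by
      have h2 : (1 : ℝ) ≤ (n : ℝ) ^ 2 := one_le_pow₀ (by linarith)
      nlinarith
    have h3 : 8 * K ≤ 4 * K * ρ * n := h1.trans (mul_le_mul_of_nonneg_right hρK hN0.le)
    have h4 : 4 * K * 2 ≤ 4 * K * (ρ * n) := by linarith
    have h5 := le_of_mul_le_mul_left h4 (by positivity)
    linarith
  obtain ⟨hP, hw, hh⟩ := hcirc n hnn1 c hA hR hE ρ hρ0.le hβ1 (hβ ρ hρ0.le le_rfl) hX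
  have hβ0 : 0 ≤ c.beta n ρ := le_trans (by positivity) hβ1
  have hX0 : 0 ≤ c.Xo ρ := by
    unfold Cf.Xo
    exact intervalIntegral.integral_nonneg (by positivity) fun χ _ => c.nsq_nonneg _ _
  have hP0 : 0 ≤ ∫ χ in (0 : ℝ)..2 * π, ‖c.w (pt ρ χ)‖ ^ 2 :=
    intervalIntegral.integral_nonneg (by positivity) fun χ _ => sq_nonneg _
  have hsq := square (by omega) hA hR hρ0
  have hβN : c.beta n ρ ≤ (n : ℝ) ^ 3 := by
    have := hβ ρ hρ0.le le_rfl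
    have h3 : (0 : ℝ) < (n : ℝ) ^ 3 := by positivity
    linarith
  have har := dfc_arith (V := V) hK (by linarith : (1 : ℝ) ≤ n) hρ0 hρK hρ2 hβ0 hβN hX0 hP0 hP
    (by linarith)
  refine le_trans ?_ har
  refine le_of_forall_pos_le_add fun ε hε => ?_
  obtain ⟨c', hA', h0', hd1, hd2, hE'⟩ := hV n hn2 c hA hR ρ (1 / n) hρ0 (by positivity) hL hw hh ε hε
  have hC := cls_vac hn2 hW hA' h0' hρ0 hβ hβ0 hd1 hd2
  have h6 := hmin c' hC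
  linarith

end GO3.Vc
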