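import Pool.Agent.GO3.Bnd

/-!
# GO3 / V / Flux: flux through a disc, completion of the square, selection by mean value (helper30)

PROOFS.
* `flux`: `b (ρ, χ) = ∫_0^ρ s F (pt s χ) ds` (`Rad.b_eq`), so `∫_{ball 0 ρ} F = ∫_0^{2π} b (ρ, χ) dχ` (`polar_ball` and Fubini for
  continuous functions, `intervalIntegral.integral_integral_swap` or `MeasureTheory.integral_integral_swap`), and
  `∫_0^{2π} b = 2 n³ ∫_0^α b = 2 n³ B (ρ, α) = 2 n³ α β = 2 π β` (`wedge_circle`, `b_rot`, `b_star`).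
* `square`: `∫_{ball} (F - F₀)² = ∫ F² - 2 F₀ ∫ F + F₀² π ρ²` with `F₀ = 2 β/ρ²`, `∫ F = 2 π β`, so `= ∫ F² - 4 π β²/ρ²`.
* `int_Xo`: `∫_a^b Xo/r dr ≤ ∫_{ball 0 b} grad` for `0 < a ≤ b`: `polar_ball`, `grad_polar`, `nsq ≥ 0`.
* `sel_Xo`: if `Xo > m` on `[a, b]` with `m log (b/a) = S ≥ ∫ Xo/r` there is a contradiction (compactness gives `Xo ≥ m + η`).
* `int_Xo_E`: `∫_a^b Xo/r ≤ 2 E`: `int_X`, `Xo_eq` (or `int_Xo` and `∫_{ball} grad ≤ 2E`).
-/

open MeasureTheory Filter Topology Set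
open scoped ContDiff Real

noncomputable section

namespace GO3.Vc

variable {c : Cf} {n : ℕ}

private theorem swapF {F : ℝ → ℝ → ℝ} (hF : Continuous (Function.uncurry F)) (a b c d : ℝ) :
    ∫ x in a..b, ∫ y in c..d, F x y = ∫ y in c..d, ∫ x in a..b, F x y := by
  apply MeasureTheory.intervalIntegral_intervalIntegral_swap
  have hK : IsCompact (uIcc a b ×ˢ uIcc c d) := isCompact_uIcc.prod isCompact_uIcc
  exact (hF.continuousOn.integrableOn_compact hK).mono_set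
    (Set.prod_mono uIoc_subset_uIcc uIoc_subset_uIcc)

private theorem intBall {f : ℂ → ℝ} (hf : Continuous f) (ρ : ℝ) :
    IntegrableOn f (Metric.ball (0 : ℂ) ρ) :=
  (hf.continuousOn.integrableOn_compact (isCompact_closedBall 0 ρ)).mono_set
    Metric.ball_subset_closedBall

private theorem constBall (k : ℝ) {ρ : ℝ} (hρ : 0 ≤ ρ) :
    ∫ _ in Metric.ball (0 : ℂ) ρ, k = k * (π * ρ ^ 2) := by
  rw [polar_ball (fun _ => k) continuous_const 0 hρ]
  simp only [intervalIntegral.integral_const, sub_zero, smul_eq_mul]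
  rw [intervalIntegral.integral_mul_const, integral_id]
  ring

private theorem csBall {g : ℂ → ℝ} (hg : Continuous g) {s : ℝ} (hs : 0 ≤ s) :
    (∫ z in Metric.ball (0 : ℂ) s, g z) ^ 2 ≤
      π * s ^ 2 * ∫ z in Metric.ball (0 : ℂ) s, g z ^ 2 := by
  have hpi := Real.pi_pos
  rcases hs.eq_or_lt with h0 | h0
  · rw [← h0, Metric.ball_zero]
    simp
  have hv : 0 < π * s ^ 2 := by positivity
  obtain ⟨V, hV⟩ : ∃ V, V = π * s ^ 2 := ⟨_, rfl⟩
  obtain ⟨I, hI⟩ : ∃ I, I = ∫ z in Metric.ball (0 : ℂ) s, g z := ⟨_, rfl⟩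
  obtain ⟨J, hJ⟩ : ∃ J, J = ∫ z in Metric.ball (0 : ℂ) s, g z ^ 2 := ⟨_, rfl⟩
  have h1 : 0 ≤ ∫ z in Metric.ball (0 : ℂ) s, (g z - I / V) ^ 2 :=
    integral_nonneg fun z => sq_nonneg _
  have i1 : IntegrableOn (fun z => g z ^ 2) (Metric.ball (0 : ℂ) s) := intBall (hg.pow 2) s
  have i2 : IntegrableOn (fun z => 2 * (I / V) * g z) (Metric.ball (0 : ℂ) s) :=
    intBall (continuous_const.mul hg) s
  have i3 : IntegrableOn (fun _ => (I / V) ^ 2) (Metric.ball (0 : ℂ) s) :=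
    intBall continuous_const s
  have h2 : ∫ z in Metric.ball (0 : ℂ) s, (g z - I / V) ^ 2 =
      J - 2 * (I / V) * I + (I / V) ^ 2 * V := by
    have e : ∀ z, (g z - I / V) ^ 2 = (g z ^ 2 - 2 * (I / V) * g z) + (I / V) ^ 2 :=
      fun z => by ring
    have i12 : IntegrableOn (fun z => g z ^ 2 - 2 * (I / V) * g z) (Metric.ball (0 : ℂ) s) :=
      i1.sub i2
    simp only [e]
    rw [integral_add i12 i3, integral_sub i1 i2, constBall _ hs, integral_const_mul,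
      ← hI, ← hJ, ← hV]
  rw [h2] at h1
  rw [← hI, ← hJ, ← hV]
  rw [← hV] at hv
  have h3 : J - 2 * (I / V) * I + (I / V) ^ 2 * V = J - I ^ 2 / V := by
    have := hv.ne'
    field_simp
    ring
  rw [h3] at h1
  have h4 : I ^ 2 / V ≤ J := by linarith
  rw [div_le_iff₀ hv] at h4
  linarith

private theorem cont_pt1 (r : ℝ) : Continuous fun χ => pt r χ :=
  continuous_pt.comp (continuous_const.prodMk continuous_id)

theorem flux (hn : 0 < n) (hc : c.Adm n) (hr : c.Rad) {ρ : ℝ} (hρ : 0 ≤ ρ) :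
    ∫ z in Metric.ball (0 : ℂ) ρ, c.F z = 2 * π * c.beta n ρ := by
  have hF := hc.contDiff_F.continuous
  have hFc : Continuous fun q : ℝ × ℝ => q.1 * c.F (pt q.1 q.2) :=
    continuous_fst.mul (hF.comp continuous_pt)
  rw [polar_ball c.F hF 0 hρ]
  have h1 : ∫ r in (0 : ℝ)..ρ, r * ∫ χ in (0 : ℝ)..2 * π, c.F (0 + pt r χ) =
      ∫ r in (0 : ℝ)..ρ, ∫ χ in (0 : ℝ)..2 * π, r * c.F (pt r χ) := by
    refine intervalIntegral.integral_congr fun r _ => ?_
    rw [intervalIntegral.integral_const_mul]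
    simp only [zero_add]
  rw [h1, swapF (F := fun r χ => r * c.F (pt r χ)) hFc]
  have h2 : ∫ χ in (0 : ℝ)..2 * π, ∫ r in (0 : ℝ)..ρ, r * c.F (pt r χ) =
      ∫ χ in (0 : ℝ)..2 * π, c.b ρ χ := by
    refine intervalIntegral.integral_congr fun χ _ => ?_
    exact (hr.b_eq hc.sA ρ χ).symm
  have hb : Continuous fun χ => c.b ρ χ :=
    hc.contDiff_b.continuous.comp (continuous_const.prodMk continuous_id)
  rw [h2, wedge_circle hn (fun χ => c.b ρ χ) hb (fun χ => hc.b_rot ρ χ) (fun χ => hc.b_star ρ χ)]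
  have hal := al_pos hn
  have h3 : ∫ χ in (0 : ℝ)..al n, c.b ρ χ = al n * c.beta n ρ := by
    have : c.beta n ρ = (∫ χ in (0 : ℝ)..al n, c.b ρ χ) / al n := rfl
    rw [this, mul_div_cancel₀ _ hal.ne']
  have h4 : al n * (n : ℝ) ^ 3 = π := by
    unfold al
    have : (n : ℝ) ^ 3 ≠ 0 := by positivity
    field_simp
  rw [h3]
  linear_combination 2 * c.beta n ρ * h4

/-- the defect: energy in the disc relative to the uniform field -/
def dfc (c : Cf) (n : ℕ) (ρ : ℝ) : ℝ := 1 / 2 * ∫ z in Metric.ball (0 : ℂ) ρ,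
  (c.grad z + (1 - c.h z) ^ 2 + (c.F z - 2 * c.beta n ρ / ρ ^ 2) ^ 2)

theorem square (hn : 0 < n) (hc : c.Adm n) (hr : c.Rad) {ρ : ℝ} (hρ : 0 < ρ) :
    c.EOn (Metric.ball 0 ρ) = dfc c n ρ + 2 * π * c.beta n ρ ^ 2 / ρ ^ 2 := by
  have hpi := Real.pi_pos
  have hg := hc.contDiff_grad.continuous
  have hh : Continuous fun z => (1 - c.h z) ^ 2 := (continuous_const.sub hc.sh.continuous).pow 2
  have hF := hc.contDiff_F.continuous
  obtain ⟨k, hk⟩ : ∃ k, k = 2 * c.beta n ρ / ρ ^ 2 := ⟨_, rfl⟩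
  unfold Cf.EOn dfc
  rw [← hk]
  have i1 : IntegrableOn (fun z => c.grad z + (1 - c.h z) ^ 2 + (c.F z - k) ^ 2)
      (Metric.ball (0 : ℂ) ρ) := intBall ((hg.add hh).add ((hF.sub continuous_const).pow 2)) ρ
  have i2 : IntegrableOn (fun z => 2 * k * c.F z) (Metric.ball (0 : ℂ) ρ) :=
    intBall (continuous_const.mul hF) ρ
  have i3 : IntegrableOn (fun _ => k ^ 2) (Metric.ball (0 : ℂ) ρ) := intBall continuous_const ρ
  have e : ∀ z, c.dens z =
      (c.grad z + (1 - c.h z) ^ 2 + (c.F z - k) ^ 2) + (2 * k * c.F z - k ^ 2) := by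
    intro z
    unfold Cf.dens
    ring
  have h1 : ∫ z in Metric.ball (0 : ℂ) ρ, c.dens z =
      (∫ z in Metric.ball (0 : ℂ) ρ, (c.grad z + (1 - c.h z) ^ 2 + (c.F z - k) ^ 2)) +
        (2 * k * (2 * π * c.beta n ρ) - k ^ 2 * (π * ρ ^ 2)) := by
    have i23 : IntegrableOn (fun z => 2 * k * c.F z - k ^ 2) (Metric.ball (0 : ℂ) ρ) := i2.sub i3
    simp only [e]
    rw [integral_add i1 i23, integral_sub i2 i3, constBall _ hρ.le, integral_const_mul,
      flux hn hc hr hρ.le]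
  have h2 : 2 * k * (2 * π * c.beta n ρ) - k ^ 2 * (π * ρ ^ 2) =
      4 * π * c.beta n ρ ^ 2 / ρ ^ 2 := by
    rw [hk]
    field_simp
    ring
  rw [h1, h2]
  ring

theorem continuous_Xo (hn : 0 < n) (hc : c.Adm n) : Continuous c.Xo := by
  have h1 : c.Xo = fun r => 2 * (n : ℝ) ^ 3 * c.X n r := funext fun r => Cf.Xo_eq hn hc r
  rw [h1]
  exact continuous_const.mul (Cf.contDiff_X hc)

private theorem Xo_ptw (hc : c.Adm n) {r : ℝ} (hr : 0 < r) :
    c.Xo r / r ≤ r * ∫ χ in (0 : ℝ)..2 * π, c.grad (0 + pt r χ) := by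
  have hpi := Real.pi_pos
  have hcg : Continuous fun χ => c.grad (0 + pt r χ) :=
    hc.contDiff_grad.continuous.comp (continuous_const.add (cont_pt1 r))
  have hcn : Continuous fun χ => c.nsq (pt r χ) (Complex.I * pt r χ) :=
    hc.contDiff_nsq.continuous.comp ((cont_pt1 r).prodMk (continuous_const.mul (cont_pt1 r)))
  have h1 : ∫ χ in (0 : ℝ)..2 * π, c.nsq (pt r χ) (Complex.I * pt r χ) / r ^ 2 ≤
      ∫ χ in (0 : ℝ)..2 * π, c.grad (0 + pt r χ) := by
    refine intervalIntegral.integral_mono_on (by positivity)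
      ((hcn.div_const _).intervalIntegrable _ _) (hcg.intervalIntegrable _ _) fun χ _ => ?_
    rw [zero_add, Cf.grad_polar c hr.ne' χ]
    have := Cf.nsq_nonneg c (pt r χ) (er χ)
    linarith
  rw [intervalIntegral.integral_div] at h1
  have h2 : c.Xo r / r ^ 2 ≤ ∫ χ in (0 : ℝ)..2 * π, c.grad (0 + pt r χ) := h1
  have h3 := mul_le_mul_of_nonneg_left h2 hr.le
  have h4 : r * (c.Xo r / r ^ 2) = c.Xo r / r := by field_simp
  rw [h4] at h3
  exact h3

theorem int_Xo (hn : 0 < n) (hc : c.Adm n) {a b : ℝ} (ha : 0 < a) (hab : a ≤ b) :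
    ∫ r in a..b, c.Xo r / r ≤ ∫ z in Metric.ball (0 : ℂ) b, c.grad z := by
  have hpi := Real.pi_pos
  rw [polar_ball c.grad hc.contDiff_grad.continuous 0 (ha.le.trans hab)]
  have hcr : Continuous fun r => r * ∫ χ in (0 : ℝ)..2 * π, c.grad (0 + pt r χ) :=
    continuous_id.mul (continuous_circle c.grad hc.contDiff_grad.continuous 0 0 (2 * π))
  have hXi : IntervalIntegrable (fun r => c.Xo r / r) volume a b := by
    refine ContinuousOn.intervalIntegrable ?_
    rw [uIcc_of_le hab]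
    exact (continuous_Xo hn hc).continuousOn.div continuousOn_id
      fun x hx => (ha.trans_le hx.1).ne'
  have h1 : ∫ r in a..b, c.Xo r / r ≤
      ∫ r in a..b, r * ∫ χ in (0 : ℝ)..2 * π, c.grad (0 + pt r χ) :=
    intervalIntegral.integral_mono_on hab hXi (hcr.intervalIntegrable _ _)
      fun r hr => Xo_ptw hc (ha.trans_le hr.1)
  have h2 : 0 ≤ ∫ r in (0 : ℝ)..a, r * ∫ χ in (0 : ℝ)..2 * π, c.grad (0 + pt r χ) :=
    intervalIntegral.integral_nonneg ha.le fun r hr => mul_nonneg hr.1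
      (intervalIntegral.integral_nonneg (by positivity) fun χ _ => Cf.grad_nonneg c _)
  have h3 := intervalIntegral.integral_add_adjacent_intervals
    (hcr.intervalIntegrable (μ := volume) 0 a) (hcr.intervalIntegrable (μ := volume) a b)
  linarith

theorem int_Xo_E (hn : 0 < n) (hc : c.Adm n) {a b : ℝ} (ha : 0 < a) (hab : a ≤ b) :
    ∫ r in a..b, c.Xo r / r ≤ 2 * c.E := by
  refine (int_Xo hn hc ha hab).trans ?_
  have h3 : ∫ z in Metric.ball (0 : ℂ) b, c.grad z ≤ ∫ z, c.grad z :=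
    setIntegral_le_integral hc.int_grad (Eventually.of_forall fun z => Cf.grad_nonneg c z)
  have h4 := hc.E_eq
  have h5 : 0 ≤ ∫ z, c.F z ^ 2 := integral_nonneg fun z => sq_nonneg _
  have h6 : 0 ≤ ∫ z, (1 - c.h z) ^ 2 := integral_nonneg fun z => sq_nonneg _
  linarith

theorem sel_Xo (hn : 0 < n) (hc : c.Adm n) {a b S : ℝ} (ha : 0 < a) (hab : a < b)
    (h : ∫ r in a..b, c.Xo r / r ≤ S) : ∃ ρ ∈ Icc a b, c.Xo ρ ≤ S / Real.log (b / a) := by
  by_contra hcon
  push Not at hcon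
  have hb : 0 < b := ha.trans hab
  have hlog : 0 < Real.log (b / a) := Real.log_pos ((one_lt_div ha).2 hab)
  obtain ⟨m, hm⟩ : ∃ m, m = S / Real.log (b / a) := ⟨_, rfl⟩
  have hX : ContinuousOn (fun r => c.Xo r / r) (uIcc a b) := by
    rw [uIcc_of_le hab.le]
    exact (continuous_Xo hn hc).continuousOn.div continuousOn_id
      fun x hx => (ha.trans_le hx.1).ne'
  have hI : ContinuousOn (fun r : ℝ => r⁻¹) (uIcc a b) := by
    rw [uIcc_of_le hab.le]
    exact continuousOn_id.inv₀ fun x hx => (ha.trans_le hx.1).ne'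
  have i1 : IntervalIntegrable (fun r => c.Xo r / r) volume a b := hX.intervalIntegrable
  have i2 : IntervalIntegrable (fun r : ℝ => m * r⁻¹) volume a b :=
    (continuousOn_const.mul hI).intervalIntegrable
  have h1 : 0 < ∫ r in a..b, (c.Xo r / r - m * r⁻¹) := by
    refine intervalIntegral.intervalIntegral_pos_of_pos_on (i1.sub i2) ?_ hab
    intro x hx
    have hx0 : 0 < x := ha.trans hx.1
    have h2 := hcon x ⟨hx.1.le, hx.2.le⟩
    rw [← hm] at h2
    have h3 : c.Xo x / x - m * x⁻¹ = (c.Xo x - m) * x⁻¹ := by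
      rw [div_eq_mul_inv]
      ring
    show 0 < c.Xo x / x - m * x⁻¹
    rw [h3]
    exact mul_pos (by linarith) (inv_pos.2 hx0)
  rw [intervalIntegral.integral_sub i1 i2, intervalIntegral.integral_const_mul,
    integral_inv_of_pos ha hb] at h1
  have h4 : m * Real.log (b / a) = S := by
    rw [hm, div_mul_cancel₀ _ hlog.ne']
  linarith

/-- gradient energy and field energy are controlled by the defect -/
theorem dfc_le (hc : c.Adm n) {ρ : ℝ} : (∫ z in Metric.ball (0 : ℂ) ρ, c.grad z) ≤ 2 * dfc c n ρ ∧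
    (∫ z in Metric.ball (0 : ℂ) ρ, (c.F z - 2 * c.beta n ρ / ρ ^ 2) ^ 2) ≤ 2 * dfc c n ρ ∧
    0 ≤ dfc c n ρ := by
  have hg := hc.contDiff_grad.continuous
  have hh : Continuous fun z => (1 - c.h z) ^ 2 := (continuous_const.sub hc.sh.continuous).pow 2
  have hF := hc.contDiff_F.continuous
  obtain ⟨k, hk⟩ : ∃ k, k = 2 * c.beta n ρ / ρ ^ 2 := ⟨_, rfl⟩
  unfold dfc
  rw [← hk]
  have hk2 : Continuous fun z => (c.F z - k) ^ 2 := (hF.sub continuous_const).pow 2
  have i0 : IntegrableOn (fun z => c.grad z + (1 - c.h z) ^ 2 + (c.F z - k) ^ 2)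
      (Metric.ball (0 : ℂ) ρ) := intBall ((hg.add hh).add hk2) ρ
  have h0 : 0 ≤ ∫ z in Metric.ball (0 : ℂ) ρ,
      (c.grad z + (1 - c.h z) ^ 2 + (c.F z - k) ^ 2) := by
    refine integral_nonneg fun z => ?_
    have h1 := Cf.grad_nonneg c z
    show 0 ≤ c.grad z + (1 - c.h z) ^ 2 + (c.F z - k) ^ 2
    positivity
  have h1 : (∫ z in Metric.ball (0 : ℂ) ρ, c.grad z) ≤ ∫ z in Metric.ball (0 : ℂ) ρ,
      (c.grad z + (1 - c.h z) ^ 2 + (c.F z - k) ^ 2) := by
    refine integral_mono (intBall hg ρ) i0 fun z => ?_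
    show c.grad z ≤ c.grad z + (1 - c.h z) ^ 2 + (c.F z - k) ^ 2
    have h2 := sq_nonneg (1 - c.h z)
    have h3 := sq_nonneg (c.F z - k)
    linarith
  have h2 : (∫ z in Metric.ball (0 : ℂ) ρ, (c.F z - k) ^ 2) ≤ ∫ z in Metric.ball (0 : ℂ) ρ,
      (c.grad z + (1 - c.h z) ^ 2 + (c.F z - k) ^ 2) := by
    refine integral_mono (intBall hk2 ρ) i0 fun z => ?_
    show (c.F z - k) ^ 2 ≤ c.grad z + (1 - c.h z) ^ 2 + (c.F z - k) ^ 2
    have h2 := sq_nonneg (1 - c.h z)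
    have h3 := Cf.grad_nonneg c z
    linarith
  exact ⟨by linarith, by linarith, by linarith⟩

/-- flux through a smaller disc -/
theorem flux_sub (hn : 0 < n) (hc : c.Adm n) (hr : c.Rad) {ρ s : ℝ} (hs : 0 ≤ s) (hsρ : s ≤ ρ) :
    |c.beta n s - c.beta n ρ / ρ ^ 2 * s ^ 2| ≤ s * Real.sqrt (dfc c n ρ) := by
  have hpi := Real.pi_pos
  have hF := hc.contDiff_F.continuous
  obtain ⟨-, hd, hd0⟩ := dfc_le (n := n) hc (ρ := ρ)
  obtain ⟨k, hk⟩ : ∃ k, k = 2 * c.beta n ρ / ρ ^ 2 := ⟨_, rfl⟩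
  rw [← hk] at hd
  have hk2 : Continuous fun z => c.F z - k := hF.sub continuous_const
  have h1 := csBall hk2 hs
  have i1 : IntegrableOn (fun z => c.F z) (Metric.ball (0 : ℂ) s) := intBall hF s
  have i3 : IntegrableOn (fun _ => k) (Metric.ball (0 : ℂ) s) := intBall continuous_const s
  have h2 : ∫ z in Metric.ball (0 : ℂ) s, (c.F z - k) =
      2 * π * (c.beta n s - c.beta n ρ / ρ ^ 2 * s ^ 2) := by
    rw [integral_sub i1 i3, flux hn hc hr hs, constBall _ hs, hk]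
    ring
  have h3 : ∫ z in Metric.ball (0 : ℂ) s, (c.F z - k) ^ 2 ≤
      ∫ z in Metric.ball (0 : ℂ) ρ, (c.F z - k) ^ 2 :=
    setIntegral_mono_set (intBall (hk2.pow 2) ρ) (Eventually.of_forall fun z => sq_nonneg _)
      (Metric.ball_subset_ball hsρ).eventuallyLE
  rw [h2] at h1
  have h4 : 0 ≤ π * s ^ 2 := by positivity
  have h5 := mul_le_mul_of_nonneg_left (h3.trans hd) h4
  have h6 : (c.beta n s - c.beta n ρ / ρ ^ 2 * s ^ 2) ^ 2 ≤ s ^ 2 * dfc c n ρ := by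
    have h7 : (2 * π * (c.beta n s - c.beta n ρ / ρ ^ 2 * s ^ 2)) ^ 2 =
        2 * π * (2 * π * (c.beta n s - c.beta n ρ / ρ ^ 2 * s ^ 2) ^ 2) := by ring
    have h8 : 2 * π * (2 * π * (c.beta n s - c.beta n ρ / ρ ^ 2 * s ^ 2) ^ 2) ≤
        2 * π * (s ^ 2 * dfc c n ρ) := by
      rw [← h7]
      calc _ ≤ _ := h1.trans h5
        _ = _ := by ring
    have h9 := le_of_mul_le_mul_left h8 (by positivity)
    have h10 : 1 ≤ 2 * π := by linarith [Real.two_le_pi]
    have h11 := mul_le_mul_of_nonneg_right h10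
      (sq_nonneg (c.beta n s - c.beta n ρ / ρ ^ 2 * s ^ 2))
    linarith
  have h12 := Real.abs_le_sqrt h6
  rwa [Real.sqrt_mul (sq_nonneg s), Real.sqrt_sq hs] at h12

end GO3.Vc
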