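import Pool.Agent.GO3.V.Flux
import Pool.Agent.GO3.Lmo

/-!
# GO3 / V / Sel: the first radius (V1 of the proof text) (helper30)

PROOF of `sel1`.  `exists_neg` (Lmo): `r* ∈ (0, 4000 K n²)` with `|a (r*) - π| < π/4`, so `a = α (β - 1) > 3π/4`, `β (r*) > 3 n³/4`
(`α n³ = π`).  `β` is continuous, `β 0 = 0` (`data_zero`).  Let `r₂ = inf {r ≥ 0 : β r ≥ 3 n³/4}` (closed set, `β r₂ = 3n³/4`,
`β ≤ 3 n³/4` on `[0, r₂]`, `r₂ < r*`), `r₁ = sup {r ∈ [0, r₂] : β r ≤ n³/4}` (`β r₁ = n³/4`, `β ≥ n³/4` on `[r₁, r₂]`).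
`beta_le`: `n³/4 ≤ r₁ √(E/2π) ≤ r₁ n √(K/(2π))`, so `r₁ ≥ n² √(2π)/(4 √K) ≥ n²/(2 √K)`.
`beta_sub`: `n⁶/4 ≤ (E/π)(r₂² - r₁²)/2`, so `r₂² - r₁² ≥ π n⁴/(2K)`, and `r₁² ≤ (4000 K n²)²`, so
`(r₂/r₁)² ≥ 1 + c₀`, `c₀ = π/(2K (4000 K)²)`, `log (r₂/r₁) ≥ (1/2) log (1 + c₀)`.  `sel_Xo` and `int_Xo_E` on `[r₁, r₂]`:
`Xo ρ ≤ 2 E/log (r₂/r₁) ≤ C n²` with `C = 4 K / log (1 + c₀)`.
-/

open MeasureTheory Filter Topology Set
open scoped ContDiff Real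

noncomputable section

namespace GO3.Vc

private theorem first_time {f : ℝ → ℝ} (hf : Continuous f) {b v : ℝ} (hb : 0 ≤ b) (h0 : f 0 ≤ v)
    (hv : v ≤ f b) : ∃ r, 0 ≤ r ∧ r ≤ b ∧ f r = v ∧ ∀ s, 0 ≤ s → s ≤ r → f s ≤ v := by
  set S : Set ℝ := Icc 0 b ∩ f ⁻¹' Ici v with hS
  have hc : IsClosed S := isClosed_Icc.inter (isClosed_Ici.preimage hf)
  have hne : S.Nonempty := ⟨b, ⟨hb, le_rfl⟩, hv⟩
  have hbd : BddBelow S := ⟨0, fun x hx => hx.1.1⟩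
  have hm : sInf S ∈ S := hc.csInf_mem hne hbd
  have hlt : ∀ s, 0 ≤ s → s < sInf S → f s < v := by
    intro s hs0 hs
    by_contra hcon
    exact not_le.2 hs (csInf_le hbd ⟨⟨hs0, hs.le.trans hm.1.2⟩, not_lt.1 hcon⟩)
  have heq : f (sInf S) = v := by
    obtain ⟨x, hx, hxv⟩ := intermediate_value_Icc hm.1.1 hf.continuousOn ⟨h0, hm.2⟩
    have h1 : sInf S ≤ x := csInf_le hbd ⟨⟨hx.1, hx.2.trans hm.1.2⟩, hxv.ge⟩
    have h2 : x = sInf S := le_antisymm hx.2 h1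
    rw [← h2]
    exact hxv
  refine ⟨sInf S, hm.1.1, hm.1.2, heq, fun s hs0 hs => ?_⟩
  rcases hs.lt_or_eq with h | h
  · exact (hlt s hs0 h).le
  · rw [h]
    exact heq.le

private theorem last_time {f : ℝ → ℝ} (hf : Continuous f) {b u : ℝ} (hb : 0 ≤ b) (h0 : f 0 ≤ u)
    (hu : u ≤ f b) : ∃ r, 0 ≤ r ∧ r ≤ b ∧ f r = u ∧ ∀ s, r ≤ s → s ≤ b → u ≤ f s := by
  set S : Set ℝ := Icc 0 b ∩ f ⁻¹' Iic u with hS
  have hc : IsClosed S := isClosed_Icc.inter (isClosed_Iic.preimage hf)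
  have hne : S.Nonempty := ⟨0, ⟨le_rfl, hb⟩, h0⟩
  have hbd : BddAbove S := ⟨b, fun x hx => hx.1.2⟩
  have hm : sSup S ∈ S := hc.csSup_mem hne hbd
  have hlt : ∀ s, s ≤ b → sSup S < s → u < f s := by
    intro s hsb hs
    by_contra hcon
    exact not_le.2 hs (le_csSup hbd ⟨⟨hm.1.1.trans hs.le, hsb⟩, not_lt.1 hcon⟩)
  have heq : f (sSup S) = u := by
    obtain ⟨x, hx, hxv⟩ := intermediate_value_Icc hm.1.2 hf.continuousOn ⟨hm.2, hu⟩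
    have h1 : x ≤ sSup S := le_csSup hbd ⟨⟨hm.1.1.trans hx.1, hx.2⟩, hxv.le⟩
    have h2 : x = sSup S := le_antisymm h1 hx.1
    rw [← h2]
    exact hxv
  refine ⟨sSup S, hm.1.1, hm.1.2, heq, fun s hs hsb => ?_⟩
  rcases hs.lt_or_eq with h | h
  · exact (hlt s hsb h).le
  · rw [← h]
    exact heq.ge

theorem sel1 (K : ℝ) (hK : 1 ≤ K) : ∃ C : ℝ, 0 < C ∧ ∃ n₀ : ℕ, 2 ≤ n₀ ∧ ∀ n : ℕ, n₀ ≤ n → ∀ c : Cf,
    c.Adm n → c.Rad → c.E ≤ K * n ^ 2 → c.Wind n →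
    ∃ ρ : ℝ, n ^ 2 / (2 * Real.sqrt K) ≤ ρ ∧ ρ ≤ 4000 * K * n ^ 2 ∧
      (∀ r, 0 ≤ r → r ≤ ρ → c.beta n r ≤ 3 / 4 * n ^ 3) ∧ n ^ 3 / 4 ≤ c.beta n ρ ∧
      c.Xo ρ ≤ C * n ^ 2 := by
  obtain ⟨n₀, h2, hneg⟩ := exists_neg K hK
  have hK0 : 0 < K := by linarith
  set c₀ : ℝ := π / (2 * K * (4000 * K) ^ 2) with hc₀
  have hc₀p : 0 < c₀ := by
    rw [hc₀]
    exact div_pos Real.pi_pos (by positivity)
  have hlog : 0 < Real.log (1 + c₀) := Real.log_pos (by linarith)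
  refine ⟨4 * K / Real.log (1 + c₀), div_pos (by linarith) hlog, n₀, h2, ?_⟩
  intro n hn c hc hr hE hw
  have hn2 : 2 ≤ n := h2.trans hn
  have hn0 : 0 < n := by omega
  have hnr : (2 : ℝ) ≤ n := by exact_mod_cast hn2
  have hnr0 : (0 : ℝ) < n := by linarith
  have hn3 : (0 : ℝ) < (n : ℝ) ^ 3 := by positivity
  obtain ⟨rs, hrs0, hrsp, -, habs⟩ := hneg n hn c hc hE hw
  -- the flux at `rs`
  have hbs : 3 / 4 * (n : ℝ) ^ 3 ≤ c.beta n rs := by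
    have h1 := (abs_lt.1 habs).1
    unfold Cf.aa al at h1
    have h3 : 3 * π / 4 < π / (n : ℝ) ^ 3 * (c.beta n rs - 1) := by linarith
    have h4 : π / (n : ℝ) ^ 3 * (c.beta n rs - 1) = π * ((c.beta n rs - 1) / (n : ℝ) ^ 3) := by
      ring
    rw [h4] at h3
    have h5 : 3 / 4 < (c.beta n rs - 1) / (n : ℝ) ^ 3 := by
      by_contra hcon
      have := mul_le_mul_of_nonneg_left (not_lt.1 hcon) Real.pi_pos.le
      linarith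
    rw [lt_div_iff₀ hn3] at h5
    linarith
  have hcont := Cf.continuous_beta hn0 hc
  have hz := (Cf.data_zero hn2 hc).1
  obtain ⟨r₂, hr20, hr2s, hb2, hle2⟩ := first_time hcont hrs0.le
    (by rw [hz]; positivity : c.beta n 0 ≤ 3 / 4 * (n : ℝ) ^ 3) hbs
  obtain ⟨r₁, hr10, hr12, hb1, hge1⟩ := last_time hcont hr20
    (by rw [hz]; positivity : c.beta n 0 ≤ (n : ℝ) ^ 3 / 4) (by rw [hb2]; linarith)
  -- lower bound for `r₁`
  have hsK : 0 < Real.sqrt K := Real.sqrt_pos.2 hK0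
  have hr1 : (n : ℝ) ^ 2 / (2 * Real.sqrt K) ≤ r₁ := by
    have h1 := Cf.beta_le hn2 hc hr hr10
    rw [hb1, abs_of_pos (by positivity)] at h1
    have h3 : Real.sqrt (c.E / (2 * π)) ≤ n * Real.sqrt K / 2 := by
      have h4 : c.E / (2 * π) ≤ (n * Real.sqrt K / 2) ^ 2 := by
        have h5 : (n * Real.sqrt K / 2) ^ 2 = K * (n : ℝ) ^ 2 / 4 := by
          rw [div_pow, mul_pow, Real.sq_sqrt hK0.le]
          ring
        rw [h5, div_le_div_iff₀ (by positivity) (by norm_num)]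
        have h6 : (4 : ℝ) ≤ 2 * π := by linarith [Real.pi_gt_three]
        have h7 : 0 ≤ K * (n : ℝ) ^ 2 := by positivity
        nlinarith
      exact (Real.sqrt_le_sqrt h4).trans (le_of_eq (Real.sqrt_sq (by positivity)))
    have h4 : (n : ℝ) ^ 3 / 4 ≤ r₁ * (n * Real.sqrt K / 2) :=
      h1.trans (mul_le_mul_of_nonneg_left h3 hr10)
    rw [div_le_iff₀ (by positivity)]
    have h5 : n * ((n : ℝ) ^ 2) ≤ n * (r₁ * (2 * Real.sqrt K)) := by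
      have e1 : n * ((n : ℝ) ^ 2) = 4 * ((n : ℝ) ^ 3 / 4) := by ring
      have e2 : n * (r₁ * (2 * Real.sqrt K)) = 4 * (r₁ * (n * Real.sqrt K / 2)) := by ring
      rw [e1, e2]
      linarith
    exact le_of_mul_le_mul_left h5 hnr0
  have hr1p : 0 < r₁ := lt_of_lt_of_le (by positivity) hr1
  -- the ratio
  have hr2p : r₂ ≤ 4000 * K * (n : ℝ) ^ 2 := hr2s.trans hrsp.le
  have hratio : 1 + c₀ ≤ (r₂ / r₁) ^ 2 := by
    have h1 := Cf.beta_sub hn2 hc hr hr10 hr12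
    rw [hb1, hb2] at h1
    have e1 : (3 / 4 * (n : ℝ) ^ 3 - (n : ℝ) ^ 3 / 4) ^ 2 = (n : ℝ) ^ 6 / 4 := by ring
    rw [e1] at h1
    have hd : 0 ≤ (r₂ ^ 2 - r₁ ^ 2) / 2 := by nlinarith
    have h3 : c.E / π ≤ K * (n : ℝ) ^ 2 / π := div_le_div_of_nonneg_right hE Real.pi_pos.le
    have h4 := h1.trans (mul_le_mul_of_nonneg_right h3 hd)
    have h5 : π * (n : ℝ) ^ 4 / (2 * K) ≤ r₂ ^ 2 - r₁ ^ 2 := by
      rw [div_le_iff₀ (by positivity)]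
      have e2 : K * (n : ℝ) ^ 2 / π * ((r₂ ^ 2 - r₁ ^ 2) / 2)
          = (K * (n : ℝ) ^ 2 * (r₂ ^ 2 - r₁ ^ 2)) / (2 * π) := by
        field_simp
      rw [e2, div_le_div_iff₀ (by norm_num) (by positivity)] at h4
      have h6 : (n : ℝ) ^ 2 * (π * (n : ℝ) ^ 4) ≤ (n : ℝ) ^ 2 * ((r₂ ^ 2 - r₁ ^ 2) * (2 * K)) := by
        nlinarith
      exact le_of_mul_le_mul_left h6 (by positivity)
    have h6 : r₁ ^ 2 ≤ (4000 * K) ^ 2 * (n : ℝ) ^ 4 := by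
      have h7 : r₁ ≤ 4000 * K * (n : ℝ) ^ 2 := hr12.trans hr2p
      have := pow_le_pow_left₀ hr10 h7 2
      calc r₁ ^ 2 ≤ (4000 * K * (n : ℝ) ^ 2) ^ 2 := this
        _ = _ := by ring
    rw [div_pow, le_div_iff₀ (by positivity)]
    have h7 : c₀ * r₁ ^ 2 ≤ π * (n : ℝ) ^ 4 / (2 * K) := by
      calc c₀ * r₁ ^ 2 ≤ c₀ * ((4000 * K) ^ 2 * (n : ℝ) ^ 4) :=
            mul_le_mul_of_nonneg_left h6 hc₀p.le
        _ = π * (n : ℝ) ^ 4 / (2 * K) := by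
            rw [hc₀]
            field_simp
    linarith
  have h12 : r₁ < r₂ := by
    rcases hr12.lt_or_eq with h | h
    · exact h
    · exfalso
      rw [h, div_self (by rw [← h]; exact hr1p.ne')] at hratio
      linarith
  have hL : Real.log (1 + c₀) / 2 ≤ Real.log (r₂ / r₁) := by
    have h1 := Real.log_le_log (by linarith) hratio
    rw [Real.log_pow] at h1
    push_cast at h1
    linarith
  obtain ⟨ρ, hρ, hX⟩ := sel_Xo (S := 2 * c.E) hn0 hc hr1p h12 (int_Xo_E hn0 hc hr1p h12.le)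
  refine ⟨ρ, hr1.trans hρ.1, hρ.2.trans hr2p, fun r h0 h => hle2 r h0 (h.trans hρ.2),
    hge1 ρ hρ.1 hρ.2, hX.trans ?_⟩
  have hL0 : 0 < Real.log (r₂ / r₁) := lt_of_lt_of_le (by linarith) hL
  rw [div_le_iff₀ hL0]
  have h1 : 2 * c.E ≤ 2 * (K * (n : ℝ) ^ 2) := by linarith
  refine h1.trans ?_
  have e1 : 2 * (K * (n : ℝ) ^ 2) = 4 * K / Real.log (1 + c₀) * (n : ℝ) ^ 2 *
      (Real.log (1 + c₀) / 2) := by
    field_simp
    ring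
  rw [e1]
  exact mul_le_mul_of_nonneg_left hL (by positivity)

end GO3.Vc
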