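import Pool.Agent.GO3.V.Sel
import Pool.Agent.GO3.V.Dfc

/-!
# GO3 / V / Two: the second radius (V4 of the proof text) (helper30)

PROOF.  `sel1`: `ρ`, `C_s`.  `defect` with `C₁ = C_s` at `ρ`: `dfc ρ ≤ C C_s n²/n³ = C₂/n`.  `int_Xo` on `[ρ/2, ρ]`, `dfc_le`, `sel_Xo`:
`ρ' ∈ [ρ/2, ρ]` with `Xo ρ' ≤ 2 dfc/log 2 ≤ C₃/n`.  `flux_sub` (`s = ρ'`): `β ρ' ≥ β ρ (ρ'/ρ)² - ρ' √(dfc) ≥ n³/16 - 4000 K n² √(C₂/n)
≥ n³/20` for large `n`.  `defect` again at `ρ'` (with the constant `C₁ = max C_s C₃`, `C₃/n ≤ C₁ n²`):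
`dfc ρ' ≤ C (C₃/n)/n³ = C C₃/n⁴`.
-/

open MeasureTheory Filter Topology Set
open scoped ContDiff Real

noncomputable section

namespace GO3.Vc

theorem two (K : ℝ) (hK : 1 ≤ K) : ∃ C : ℝ, 0 < C ∧ ∃ n₀ : ℕ, 2 ≤ n₀ ∧ ∀ n : ℕ, n₀ ≤ n →
    ∀ c : Cf, c.Mini n 1 → c.E ≤ K * n ^ 2 → ∃ ρ : ℝ, n ^ 2 / (4 * Real.sqrt K) ≤ ρ ∧
      ρ ≤ 4000 * K * n ^ 2 ∧ n ^ 3 / 20 ≤ c.beta n ρ ∧ c.beta n ρ ≤ 3 / 4 * n ^ 3 ∧
      dfc c n ρ ≤ C / n ^ 4 := by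
  obtain ⟨Cs, hCs, ns, hns, hsel⟩ := sel1 K hK
  obtain ⟨Cd, hCd, nd, hnd, hdef⟩ := defect K hK Cs
  obtain ⟨C2, hC2⟩ : ∃ C2, C2 = Cd * Cs := ⟨_, rfl⟩
  have hC2p : 0 < C2 := by rw [hC2]; positivity
  have hlog : 0 < Real.log 2 := Real.log_pos (by norm_num)
  obtain ⟨C3, hC3⟩ : ∃ C3, C3 = 2 * C2 / Real.log 2 := ⟨_, rfl⟩
  have hC3p : 0 < C3 := by rw [hC3]; positivity
  obtain ⟨Ce, hCe, ne, hne, hdef2⟩ := defect K hK C3
  obtain ⟨N, hN⟩ := exists_nat_ge (320000 * K * Real.sqrt C2)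
  refine ⟨Ce * C3, by positivity, ns + nd + ne + N, by omega, fun n hn c hm hE => ?_⟩
  have hc : c.Adm n := hm.1.1
  have hr : c.Rad := hm.2.1
  have hn0 : 0 < n := by omega
  have hn1 : (1 : ℝ) ≤ n := by exact_mod_cast (show 1 ≤ n by omega)
  have hnp : (0 : ℝ) < n := by linarith
  have hsK : 0 < Real.sqrt K := Real.sqrt_pos.2 (by linarith)
  obtain ⟨ρ, h1, h2, h3, h4, h5⟩ := hsel n (by omega) c hc hr hE hm.1.2.1
  have hρ : 0 < ρ := lt_of_lt_of_le (by positivity) h1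
  have h1' : (n : ℝ) ^ 2 / (4 * Real.sqrt K) ≤ ρ / 2 := by
    have e : (n : ℝ) ^ 2 / (4 * Real.sqrt K) = (n : ℝ) ^ 2 / (2 * Real.sqrt K) / 2 := by
      field_simp
      ring
    rw [e]
    linarith
  have h6 := hdef n (by omega) c hm hE ρ (by linarith) h2 h3
    (le_trans (by
      have : (0 : ℝ) ≤ (n : ℝ) ^ 3 := by positivity
      linarith) h4) h5
  have hd0 := (dfc_le (n := n) hc (ρ := ρ)).2.2
  have h7 : dfc c n ρ ≤ C2 / n := by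
    refine h6.trans ?_
    rw [div_le_div_iff₀ (by positivity) hnp, hC2]
    calc Cd * c.Xo ρ * n ≤ Cd * (Cs * n ^ 2) * n := by gcongr
      _ = Cd * Cs * (n : ℝ) ^ 3 := by ring
  have h8 : ∫ r in (ρ / 2)..ρ, c.Xo r / r ≤ 2 * dfc c n ρ :=
    (int_Xo hn0 hc (by linarith) (by linarith)).trans (dfc_le hc).1
  obtain ⟨ρ', ⟨h9, h10⟩, h11⟩ := sel_Xo hn0 hc (half_pos hρ) (by linarith) h8
  have hρ2 : ρ / (ρ / 2) = 2 := by field_simp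
  rw [hρ2] at h11
  have h12 : c.Xo ρ' ≤ C3 / n := by
    refine h11.trans ?_
    rw [hC3, div_div, div_le_div_iff₀ hlog (by positivity)]
    have e : 2 * dfc c n ρ * (Real.log 2 * n) = 2 * (dfc c n ρ * n) * Real.log 2 := by ring
    rw [e]
    have e2 : dfc c n ρ * n ≤ C2 := by
      rw [le_div_iff₀ hnp] at h7
      exact h7
    have := mul_le_mul_of_nonneg_right (mul_le_mul_of_nonneg_left e2 (show (0 : ℝ) ≤ 2 by norm_num))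
      hlog.le
    linarith
  have hρ' : 0 < ρ' := by linarith
  have h13 := flux_sub hn0 hc hr hρ'.le h10
  have hβ0 : 0 ≤ c.beta n ρ := le_trans (by positivity) h4
  have h14 : (n : ℝ) ^ 3 / 16 ≤ c.beta n ρ / ρ ^ 2 * ρ' ^ 2 := by
    have e1 : c.beta n ρ / ρ ^ 2 * (ρ / 2) ^ 2 ≤ c.beta n ρ / ρ ^ 2 * ρ' ^ 2 := by
      have : (ρ / 2) ^ 2 ≤ ρ' ^ 2 := pow_le_pow_left₀ (by linarith) h9 2
      exact mul_le_mul_of_nonneg_left this (by positivity)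
    have e2 : c.beta n ρ / ρ ^ 2 * (ρ / 2) ^ 2 = c.beta n ρ / 4 := by
      field_simp
      ring
    rw [e2] at e1
    linarith
  have h15 : ρ' * Real.sqrt (dfc c n ρ) ≤ (n : ℝ) ^ 3 / 80 := by
    have e1 : Real.sqrt (dfc c n ρ) ≤ Real.sqrt C2 :=
      Real.sqrt_le_sqrt (h7.trans (div_le_self hC2p.le hn1))
    have e2 : ρ' ≤ 4000 * K * n ^ 2 := h10.trans h2
    have e3 : 320000 * K * Real.sqrt C2 ≤ n := hN.trans (by exact_mod_cast (show N ≤ n by omega))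
    calc ρ' * Real.sqrt (dfc c n ρ) ≤ (4000 * K * n ^ 2) * Real.sqrt C2 :=
          mul_le_mul e2 e1 (Real.sqrt_nonneg _) (by positivity)
      _ = (n : ℝ) ^ 2 / 80 * (320000 * K * Real.sqrt C2) := by ring
      _ ≤ (n : ℝ) ^ 2 / 80 * n := mul_le_mul_of_nonneg_left e3 (by positivity)
      _ = (n : ℝ) ^ 3 / 80 := by ring
  have h16 : (n : ℝ) ^ 3 / 20 ≤ c.beta n ρ' := by
    have := (abs_le.1 h13).1
    linarith
  have h17 : ∀ r, 0 ≤ r → r ≤ ρ' → c.beta n r ≤ 3 / 4 * n ^ 3 := fun r hr0 hr1 =>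
    h3 r hr0 (hr1.trans h10)
  have h18 : c.Xo ρ' ≤ C3 * n ^ 2 := by
    refine h12.trans ((div_le_self hC3p.le hn1).trans ?_)
    have : (1 : ℝ) ≤ (n : ℝ) ^ 2 := one_le_pow₀ hn1
    nlinarith
  have h19 := hdef2 n (by omega) c hm hE ρ' (by linarith) (h10.trans h2) h17 h16 h18
  refine ⟨ρ', by linarith, h10.trans h2, h16, h17 ρ' hρ'.le le_rfl, h19.trans ?_⟩
  rw [div_le_div_iff₀ (by positivity) (by positivity)]
  have e1 : c.Xo ρ' * n ≤ C3 := by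
    rw [le_div_iff₀ hnp] at h12
    exact h12
  calc Ce * c.Xo ρ' * (n : ℝ) ^ 4 = Ce * (c.Xo ρ' * n) * (n : ℝ) ^ 3 := by ring
    _ ≤ Ce * C3 * (n : ℝ) ^ 3 := by gcongr

end GO3.Vc
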