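import Pool.Agent.GO3.V.Vac3
import Pool.Agent.GO3.V.Arg
import Pool.Agent.GO3.Stp

/-!
# GO3 / V / Vac: existence of the vacuum replacement (helper30)

PROOF.  `C = 64`.  Given `c` let `om` be as in `exists_norm` and `c₁ = c.gt om` (`gt_adm`, `gt_data`, `gt_nsq`, `gt_F`, `gt_dens`,
`gt_E`; `‖c₁.w z‖ = ‖c.w z‖`, `c₁.h = c.h`, so `P`, `Xo`, `EOn`, `β` are the same).  `τ x = τ₀ ((x - (ρ - L))/L)` with `τ₀` from `step`
(`ε = 1`), so `|τ'| ≤ 2/L`; `κ` from `frz` at `ρ` with `e`; `η x = 1 - τ₀ ((x - (ρ - e))/e)`, `|η'| ≤ 2/e`.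
`Cc`: `b` of `c₁` is smooth (`contDiff_b`), so its derivative in `r` is bounded on `[ρ/2, ρ] × [0, 2π]` by `Cc`, and
`|b (r,χ) - β| ≤ Cc (ρ - r) ≤ Cc e` (`b (ρ,χ) = β`; periodicity in `χ` (`b_rot`) for other `χ`).  `near`: compactness, as in
`B.Cap`.  `Lw`, `M`: bounds on `closedBall 0 ρ`.  `P` and `Xo` are continuous, so `P x ≤ P ρ + ε'`, `Xo x ≤ Xo ρ + ε'` for
`x ∈ [ρ - e, ρ]`, `e` small.  `vac_E`: the main terms are
`(1/2)(16 ρ/L P + (4L/ρ)(2 Xo + 16 β² L²/ρ² P)) + ρ L P/4 ≤ 64 (ρ/L P + L/ρ Xo + β² L³/ρ³ P + L ρ P)`, all other terms tend to zero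
with `e` and `ε'`.  The statements for `r ≥ ρ`: `vac_data` and `gt_data`; for `r ≤ ρ`: `vac_beta` with `t = η r`, `gt_data`.
-/

open MeasureTheory Filter Topology Set
open scoped ContDiff Real

noncomputable section

namespace GO3.Vc

private theorem va_near {c : Cf} {n : ℕ} (hc : c.Adm n) {s : ℝ} (hs : 0 < s)
    (hw : ∀ χ, ‖c.w (pt s χ)‖ ≤ 1 / 2) (hh : ∀ χ, 0 < c.h (pt s χ)) :
    ∃ e₀ : ℝ, 0 < e₀ ∧ ∀ e, e < e₀ → e < s → ∀ z : ℂ, s - e ≤ ‖z‖ → ‖z‖ ≤ s + e →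
      ‖c.w z‖ ^ 2 ≤ 1 / 2 ∧ 0 < c.h z := by
  set U : Set ℂ := {z | ‖c.w z‖ ^ 2 < 1 / 2 ∧ 0 < c.h z} with hU
  have oU : IsOpen U := by
    have h1 : IsOpen {z : ℂ | ‖c.w z‖ ^ 2 < 1 / 2} :=
      isOpen_lt (hc.sw.continuous.norm.pow 2) continuous_const
    have h2 : IsOpen {z : ℂ | 0 < c.h z} :=
      isOpen_lt continuous_const hc.sh.continuous
    exact h1.inter h2
  have hK : Metric.sphere (0 : ℂ) s ⊆ U := by
    intro z hz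
    rw [mem_sphere_zero_iff_norm] at hz
    obtain ⟨χ, -, h1⟩ := exists_pt z
    rw [hz] at h1
    rw [h1]
    refine ⟨?_, hh χ⟩
    have h2 := hw χ
    have h3 := norm_nonneg (c.w (pt s χ))
    nlinarith
  obtain ⟨δ, hδ, hsub⟩ := (isCompact_sphere (0 : ℂ) s).exists_cthickening_subset_open oU hK
  refine ⟨δ, hδ, fun e he hes z h1 h2 => ?_⟩
  have hz0 : 0 < ‖z‖ := by linarith
  have hm : z ∈ Metric.cthickening δ (Metric.sphere (0 : ℂ) s) := by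
    have hy : ((s / ‖z‖ : ℝ) : ℂ) * z ∈ Metric.sphere (0 : ℂ) s := by
      rw [mem_sphere_zero_iff_norm, norm_mul, Complex.norm_real, Real.norm_of_nonneg (by positivity)]
      field_simp
    refine Metric.mem_cthickening_of_dist_le z _ δ _ hy ?_
    rw [dist_eq_norm]
    have e1 : z - ((s / ‖z‖ : ℝ) : ℂ) * z = ((1 - s / ‖z‖ : ℝ) : ℂ) * z := by
      push_cast
      ring
    rw [e1, norm_mul, Complex.norm_real, Real.norm_eq_abs]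
    have e2 : |1 - s / ‖z‖| * ‖z‖ = |‖z‖ - s| := by
      have e3 : 1 - s / ‖z‖ = (‖z‖ - s) / ‖z‖ := by field_simp
      rw [e3, abs_div, abs_of_pos hz0]
      field_simp
    rw [e2, abs_le]
    constructor <;> linarith
  have h3 := hsub hm
  exact ⟨h3.1.le, h3.2⟩

private theorem va_lip {c : Cf} {n : ℕ} (hc : c.Adm n) {ρ β : ℝ} (hρ : 0 < ρ)
    (hb : ∀ χ, c.b ρ χ = β) : ∃ K : ℝ, 0 ≤ K ∧ ∀ e r χ, e < ρ / 2 → ρ - e ≤ r → r ≤ ρ →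
      |c.b r χ - β| ≤ K * e := by
  set f : ℝ × ℝ → ℝ := fun q => c.b q.1 q.2 with hf
  have fs : ContDiff ℝ ∞ f := hc.contDiff_b
  set S : Set (ℝ × ℝ) := Icc (ρ / 2) ρ ×ˢ Icc (0 : ℝ) (2 * π) with hS
  have cS : IsCompact S := isCompact_Icc.prod isCompact_Icc
  have vS : Convex ℝ S := (convex_Icc _ _).prod (convex_Icc _ _)
  obtain ⟨K, hK⟩ := cS.exists_bound_of_continuousOn (fs.continuous_fderiv (by simp)).continuousOn
  refine ⟨max K 0, le_max_right _ _, fun e r χ he h1 h2 => ?_⟩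
  have hr : 0 < r := by linarith
  obtain ⟨χ', hχ', hp⟩ := exists_pt (pt r χ)
  rw [norm_pt, abs_of_pos hr] at hp
  have hb1 : c.b r χ = c.b r χ' := by
    unfold Cf.b
    rw [← hp]
  have m1 : ((r, χ') : ℝ × ℝ) ∈ S := ⟨⟨by linarith, h2⟩, ⟨hχ'.1, hχ'.2.le⟩⟩
  have m2 : ((ρ, χ') : ℝ × ℝ) ∈ S := ⟨⟨by linarith, le_rfl⟩, ⟨hχ'.1, hχ'.2.le⟩⟩
  have h3 := vS.norm_image_sub_le_of_norm_fderiv_le (𝕜 := ℝ) (f := f) (C := max K 0)
    (fun q _ => (fs.differentiable (by simp)) q) (fun q hq => (hK q hq).trans (le_max_left _ _)) m2 m1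
  have h4 : f (r, χ') - f (ρ, χ') = c.b r χ - β := by
    show c.b r χ' - c.b ρ χ' = _
    rw [hb1, hb χ']
  rw [h4, Real.norm_eq_abs] at h3
  refine h3.trans (mul_le_mul_of_nonneg_left ?_ (le_max_right _ _))
  have h5 : ((r, χ') : ℝ × ℝ) - (ρ, χ') = (r - ρ, 0) := by
    ext <;> simp
  rw [h5, Prod.norm_def]
  simp only [norm_zero, Real.norm_eq_abs]
  refine max_le ?_ (by linarith)
  rw [abs_le]
  constructor <;> linarith

private theorem va_scale {τ₀ : ℝ → ℝ} (hτ : ContDiff ℝ ∞ τ₀)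
    (hd : ∀ x, 0 ≤ deriv τ₀ x ∧ deriv τ₀ x ≤ 2) (a : ℝ) {l : ℝ} (hl : 0 < l) :
    ContDiff ℝ ∞ (fun x => τ₀ ((x - a) / l)) ∧
      ∀ x, |deriv (fun x => τ₀ ((x - a) / l)) x| ≤ 2 / l := by
  refine ⟨hτ.comp ((contDiff_id.sub contDiff_const).div_const l), fun x => ?_⟩
  have h1 : HasDerivAt (fun x : ℝ => (x - a) / l) (1 / l) x :=
    ((hasDerivAt_id x).sub_const a).div_const l
  have h2 : HasDerivAt τ₀ (deriv τ₀ ((x - a) / l)) ((x - a) / l) :=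
    (hτ.differentiable (by simp) _).hasDerivAt
  have h3 : HasDerivAt (fun x => τ₀ ((x - a) / l)) (deriv τ₀ ((x - a) / l) * (1 / l)) x :=
    h2.comp x h1
  rw [h3.deriv, abs_mul, abs_of_nonneg (hd _).1, abs_of_pos (by positivity : 0 < 1 / l)]
  have h4 := mul_le_mul_of_nonneg_right (hd ((x - a) / l)).2 (by positivity : 0 ≤ 1 / l)
  linarith [show 2 * (1 / l) = 2 / l by ring]

/-- the arithmetic of the energy estimate -/
private theorem va_arith {E O β ρ L e Kf ε' ε P X Cc Lw A₁ A₂ Q : ℝ} (hρ : 0 < ρ) (hL : 0 < L)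
    (he : 0 < e) (he1 : e ≤ 1) (hε' : 0 < ε') (hε'1 : ε' ≤ 1) (hP : 0 ≤ P) (hX : 0 ≤ X)
    (hA₁ : A₁ = 8 * ρ / L + 4 * L / ρ + 32 * β ^ 2 * L ^ 3 / ρ ^ 3 + ρ * L / 4)
    (hA₂ : A₂ = 32 * (L / ρ) * Cc ^ 2 * (P + 1) + 8 * π * ρ * Lw ^ 2 + π * ρ * Kf ^ 2)
    (h1 : ε' * A₁ ≤ ε / 2) (h2 : e * A₂ ≤ ε / 2)
    (hQ : Q ≤ E - O + 2 * π * β ^ 2 / ρ ^ 2 + π * ρ * e * Kf ^ 2 +
      1 / 2 * (16 * ρ / L * (P + ε') +
        4 * L / ρ * (2 * (X + ε') + (16 * β ^ 2 * L ^ 2 / ρ ^ 2 + 16 * Cc ^ 2 * e ^ 2) * (P + ε')) +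
        16 * π * ρ * e * Lw ^ 2) + ρ * L * (P + ε') / 4) :
    Q ≤ E - O + 2 * π * β ^ 2 / ρ ^ 2 + 64 * (ρ / L * P + L / ρ * X +
      β ^ 2 * L ^ 3 / ρ ^ 3 * P + L * ρ * P) + ε := by
  have k1 : 0 ≤ ρ / L * P := by positivity
  have k2 : 0 ≤ L / ρ * X := by positivity
  have k3 : 0 ≤ β ^ 2 * L ^ 3 / ρ ^ 3 * P := by positivity
  have k4 : 0 ≤ L * ρ * P := by positivity
  have k5 : 32 * (L / ρ) * Cc ^ 2 * e ^ 2 * (P + ε') ≤ e * (32 * (L / ρ) * Cc ^ 2 * (P + 1)) := by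
    have u1 : e ^ 2 * (P + ε') ≤ e * (P + 1) := by
      have u2 : e ^ 2 ≤ e := by nlinarith
      exact mul_le_mul u2 (by linarith) (by positivity) he.le
    have u3 : 0 ≤ 32 * (L / ρ) * Cc ^ 2 := by positivity
    have u4 := mul_le_mul_of_nonneg_left u1 u3
    linarith [show 32 * (L / ρ) * Cc ^ 2 * e ^ 2 * (P + ε') =
      32 * (L / ρ) * Cc ^ 2 * (e ^ 2 * (P + ε')) by ring,
      show e * (32 * (L / ρ) * Cc ^ 2 * (P + 1)) =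
      32 * (L / ρ) * Cc ^ 2 * (e * (P + 1)) by ring]
  have e1 : E - O + 2 * π * β ^ 2 / ρ ^ 2 + π * ρ * e * Kf ^ 2 +
      1 / 2 * (16 * ρ / L * (P + ε') +
        4 * L / ρ * (2 * (X + ε') + (16 * β ^ 2 * L ^ 2 / ρ ^ 2 + 16 * Cc ^ 2 * e ^ 2) * (P + ε')) +
        16 * π * ρ * e * Lw ^ 2) + ρ * L * (P + ε') / 4 =
      E - O + 2 * π * β ^ 2 / ρ ^ 2 + (8 * (ρ / L * P) + 4 * (L / ρ * X) +
        32 * (β ^ 2 * L ^ 3 / ρ ^ 3 * P) + 1 / 4 * (L * ρ * P)) +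
        ε' * (8 * ρ / L + 4 * L / ρ + 32 * β ^ 2 * L ^ 3 / ρ ^ 3 + ρ * L / 4) +
        32 * (L / ρ) * Cc ^ 2 * e ^ 2 * (P + ε') + e * (8 * π * ρ * Lw ^ 2 + π * ρ * Kf ^ 2) := by
    field_simp
    ring
  rw [e1, ← hA₁] at hQ
  have e2 : e * A₂ = e * (32 * (L / ρ) * Cc ^ 2 * (P + 1)) + e * (8 * π * ρ * Lw ^ 2 + π * ρ * Kf ^ 2) := by
    rw [hA₂]
    ring
  linarith

theorem vac_exists : ∃ C : ℝ, 1 ≤ C ∧ ∀ n : ℕ, 2 ≤ n → ∀ c : Cf, c.Adm n → c.Rad → ∀ ρ L : ℝ, 0 < ρ →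
    0 < L → L ≤ ρ / 2 → (∀ χ, ‖c.w (pt ρ χ)‖ ≤ 1 / 2) → (∀ χ, 0 < c.h (pt ρ χ)) → ∀ ε : ℝ, 0 < ε →
    ∃ c' : Cf, c'.Adm n ∧ c'.h 0 = 1 ∧
      (∀ r, ρ ≤ r → c'.aa n r = c.aa n r ∧ c'.cc n r = c.cc n r ∧ c'.V n r = c.V n r) ∧
      (∀ r, 0 ≤ r → r ≤ ρ → ∃ t ∈ Icc (0 : ℝ) 1,
        c'.beta n r = t * (c.beta n ρ * r ^ 2 / ρ ^ 2) + (1 - t) * c.beta n r) ∧
      c'.E ≤ c.E - c.EOn (Metric.ball 0 ρ) + 2 * π * c.beta n ρ ^ 2 / ρ ^ 2 +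
        C * (ρ / L * (∫ χ in (0 : ℝ)..2 * π, ‖c.w (pt ρ χ)‖ ^ 2) + L / ρ * c.Xo ρ +
          c.beta n ρ ^ 2 * L ^ 3 / ρ ^ 3 * (∫ χ in (0 : ℝ)..2 * π, ‖c.w (pt ρ χ)‖ ^ 2) +
          L * ρ * (∫ χ in (0 : ℝ)..2 * π, ‖c.w (pt ρ χ)‖ ^ 2)) + ε := by
  obtain ⟨a, ha, ha4, -, τ₀, τs, τ0, τ1, τb, τd⟩ := step (ε := 1) one_pos
  have τd' : ∀ x, 0 ≤ deriv τ₀ x ∧ deriv τ₀ x ≤ 2 := fun x =>
    ⟨(τd x).1, by linarith [(τd x).2]⟩
  refine ⟨64, by norm_num, ?_⟩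
  intro n hn c hc hr ρ L hρ hL hLρ hw hh ε hε
  have hn0 : 0 < n := by omega
  have hpi := Real.pi_pos
  obtain ⟨om, hom, hrad, hbρ⟩ := exists_norm hn0 hc hr hρ
  set c₁ : Cf := c.gt om with hc₁
  have A₁ : c₁.Adm n := Cf.gt_adm hn0 hom hc
  have hnw : ∀ z, ‖c₁.w z‖ = ‖c.w z‖ := by
    intro z
    show ‖Complex.exp (om z * Complex.I) * c.w z‖ = ‖c.w z‖
    rw [norm_mul, Complex.norm_exp_ofReal_mul_I, one_mul]
  have hhh : c₁.h = c.h := rfl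
  have hw₁ : ∀ χ, ‖c₁.w (pt ρ χ)‖ ≤ 1 / 2 := fun χ => by rw [hnw]; exact hw χ
  obtain ⟨e₀, he₀, hnear⟩ := va_near A₁ hρ hw₁ hh
  set β : ℝ := c.beta n ρ with hβ
  obtain ⟨Cc, hCc, hlip⟩ := va_lip A₁ hρ hbρ
  -- continuity of the two circle integrals
  set P : ℝ → ℝ := fun x => ∫ χ in (0 : ℝ)..2 * π, ‖c₁.w (pt x χ)‖ ^ 2 with hP
  have cP : Continuous P := by
    have h1 := continuous_circle (fun z => ‖c₁.w z‖ ^ 2) (A₁.sw.continuous.norm.pow 2) 0 0 (2 * π)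
    simpa only [zero_add] using h1
  have cX : Continuous c₁.Xo := by
    have h1 : c₁.Xo = fun r => 2 * (n : ℝ) ^ 3 * c₁.X n r := by
      funext r
      exact Cf.Xo_eq hn0 A₁ r
    rw [h1]
    exact continuous_const.mul (Cf.contDiff_X A₁)
  have n1 : 0 ≤ P ρ := intervalIntegral.integral_nonneg (by positivity) fun χ _ => by positivity
  have n2 : 0 ≤ c₁.Xo ρ :=
    intervalIntegral.integral_nonneg (by positivity) fun χ _ => Cf.nsq_nonneg c₁ _ _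
  -- bounds on the disc
  obtain ⟨L₀, hL₀⟩ := (isCompact_closedBall (0 : ℂ) ρ).exists_bound_of_continuousOn
    (A₁.sw.continuous_fderiv (by simp)).continuousOn
  set Lw : ℝ := max L₀ 0 with hLw
  obtain ⟨M, hM⟩ := (isCompact_closedBall (0 : ℂ) ρ).exists_bound_of_continuousOn
    A₁.contDiff_F.continuous.continuousOn
  set Kf : ℝ := 2 * |β| / ρ ^ 2 + M + 4 / ρ * (2 * |β| / ρ + Cc) with hKf
  -- small errors
  obtain ⟨B₁, hB₁⟩ : ∃ B₁ : ℝ, B₁ = 8 * ρ / L + 4 * L / ρ + 32 * β ^ 2 * L ^ 3 / ρ ^ 3 + ρ * L / 4 :=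
    ⟨_, rfl⟩
  obtain ⟨B₂, hB₂⟩ : ∃ B₂ : ℝ, B₂ = 32 * (L / ρ) * Cc ^ 2 * (P ρ + 1) + 8 * π * ρ * Lw ^ 2 +
    π * ρ * Kf ^ 2 := ⟨_, rfl⟩
  have hB₁0 : 0 ≤ B₁ := by rw [hB₁]; positivity
  have hB₂0 : 0 ≤ B₂ := by rw [hB₂]; positivity
  set ε' : ℝ := min 1 (ε / (2 * (B₁ + 1))) with hε'
  have hε'0 : 0 < ε' := lt_min one_pos (by positivity)
  have hε'1 : ε' ≤ 1 := min_le_left _ _
  have hε'2 : ε' * B₁ ≤ ε / 2 := by
    have h1 : ε' ≤ ε / (2 * (B₁ + 1)) := min_le_right _ _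
    rw [le_div_iff₀ (by positivity)] at h1
    nlinarith
  obtain ⟨δ1, hδ1, hP1⟩ := Metric.continuousAt_iff.1 (cP.continuousAt (x := ρ)) ε' hε'0
  obtain ⟨δ2, hδ2, hX1⟩ := Metric.continuousAt_iff.1 (cX.continuousAt (x := ρ)) ε' hε'0
  -- choice of the layer
  set m : ℝ := min (min (min (e₀ / 2) (L / 4)) 1) (min (min (δ1 / 2) (δ2 / 2))
    (ε / (2 * (B₂ + 1)))) with hm
  have hm0 : 0 < m := by
    rw [hm]
    refine lt_min (lt_min (lt_min (by linarith) (by linarith)) one_pos)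
      (lt_min (lt_min (by linarith) (by linarith)) (by positivity))
  have m1 : m ≤ e₀ / 2 := ((min_le_left _ _).trans (min_le_left _ _)).trans (min_le_left _ _)
  have m2 : m ≤ L / 4 := ((min_le_left _ _).trans (min_le_left _ _)).trans (min_le_right _ _)
  have m3 : m ≤ 1 := (min_le_left _ _).trans (min_le_right _ _)
  have m4 : m ≤ δ1 / 2 := ((min_le_right _ _).trans (min_le_left _ _)).trans (min_le_left _ _)
  have m5 : m ≤ δ2 / 2 := ((min_le_right _ _).trans (min_le_left _ _)).trans (min_le_right _ _)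
  have m6 : m ≤ ε / (2 * (B₂ + 1)) := (min_le_right _ _).trans (min_le_right _ _)
  have m7 : m * B₂ ≤ ε / 2 := by
    rw [le_div_iff₀ (by positivity)] at m6
    nlinarith
  have hmL : 2 * m < L := by linarith
  have hmρ : 2 * m < ρ := by linarith
  obtain ⟨κ, κs, κ1, κ0, κb, κd⟩ := frz hm0 hmρ
  obtain ⟨s1, d1⟩ := va_scale τs τd' (ρ - L) hL
  obtain ⟨s2, d2⟩ := va_scale τs τd' (ρ - m) hm0
  set τ : ℝ → ℝ := fun x => τ₀ ((x - (ρ - L)) / L) with hτ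
  set η : ℝ → ℝ := fun x => 1 - τ₀ ((x - (ρ - m)) / m) with hη
  have D : VDat c₁ n ρ L m β Cc τ κ η := {
    hn := hn
    adm := A₁
    hρ := hρ
    hL := hL
    hLρ := hLρ
    he := hm0
    heL := hmL
    hCc := hCc
    rad := hrad
    bρ := hbρ
    lip := fun r χ h1 h2 => hlip m r χ (by linarith) h1 h2
    near := hnear m (by linarith) (by linarith)
    τs := s1
    τ0 := fun x hx => τ0 _ ((div_nonpos_of_nonpos_of_nonneg (by linarith) hL.le).trans ha.le)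
    τ1 := fun x hx => τ1 _ (by
      have h1 : 1 ≤ (x - (ρ - L)) / L := by rw [le_div_iff₀ hL]; linarith
      linarith)
    τb := fun x => τb _
    τd := d1
    κs := κs
    κ1 := κ1
    κ0 := κ0
    κb := κb
    κd := κd
    ηs := contDiff_const.sub s2
    η1 := fun x hx => by
      show 1 - τ₀ ((x - (ρ - m)) / m) = 1
      rw [τ0 _ ((div_nonpos_of_nonpos_of_nonneg (by linarith) hm0.le).trans ha.le)]
      ring
    η0 := fun x hx => by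
      show 1 - τ₀ ((x - (ρ - m)) / m) = 0
      rw [τ1 _ (by
        have h1 : 1 ≤ (x - (ρ - m)) / m := by rw [le_div_iff₀ hm0]; linarith
        linarith)]
      ring
    ηb := fun x => ⟨by
      show 0 ≤ 1 - τ₀ ((x - (ρ - m)) / m)
      linarith [(τb ((x - (ρ - m)) / m)).2], by
      show 1 - τ₀ ((x - (ρ - m)) / m) ≤ 1
      linarith [(τb ((x - (ρ - m)) / m)).1]⟩
    ηd := fun x => by
      have h1 : deriv η x = -deriv (fun x => τ₀ ((x - (ρ - m)) / m)) x := by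
        show deriv (fun x => 1 - τ₀ ((x - (ρ - m)) / m)) x = _
        exact deriv_const_sub 1
      rw [h1, abs_neg]
      exact d2 x }
  have b1 : ∀ x ∈ Icc (ρ - m) ρ, ∫ χ in (0 : ℝ)..2 * π, ‖c₁.w (pt x χ)‖ ^ 2 ≤ P ρ + ε' := by
    intro x hx
    have h1 : dist x ρ < δ1 := by
      rw [Real.dist_eq, abs_lt]
      constructor <;> linarith [hx.1, hx.2]
    have h2 := hP1 h1
    rw [Real.dist_eq, abs_lt] at h2
    have h3 : P x ≤ P ρ + ε' := by linarith [h2.2]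
    exact h3
  have b2 : ∀ x ∈ Icc (ρ - m) ρ, c₁.Xo x ≤ c₁.Xo ρ + ε' := by
    intro x hx
    have h1 : dist x ρ < δ2 := by
      rw [Real.dist_eq, abs_lt]
      constructor <;> linarith [hx.1, hx.2]
    have h2 := hX1 h1
    rw [Real.dist_eq, abs_lt] at h2
    linarith [h2.2]
  have b3 : ∀ x ∈ Icc (ρ - m) ρ, ∀ χ, ‖fderiv ℝ c₁.w (pt x χ) (er χ)‖ ≤ Lw := by
    intro x hx χ
    have h1 : pt x χ ∈ Metric.closedBall (0 : ℂ) ρ := by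
      rw [mem_closedBall_zero_iff, norm_pt, abs_of_nonneg (by linarith [hx.1])]
      exact hx.2
    have h2 := (fderiv ℝ c₁.w (pt x χ)).le_opNorm (er χ)
    rw [norm_er, mul_one] at h2
    exact h2.trans ((hL₀ _ h1).trans (le_max_left _ _))
  have b4 : ∀ z : ℂ, ‖z‖ ≤ ρ → |c₁.F z| ≤ M := by
    intro z hz
    have h1 := hM z (by rw [mem_closedBall_zero_iff]; exact hz)
    rwa [Real.norm_eq_abs] at h1
  have hE := D.vac_E b1 b2 b3 b4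
  have hfin := va_arith (A₁ := B₁) (A₂ := B₂) hρ hL hm0 m3 hε'0 hε'1 n1 n2 hB₁ hB₂ hε'2 m7 hE
  -- back to the given configuration
  have g1 : c₁.E = c.E := Cf.gt_E hom.s hc.sw hc.sA
  have g2 : c₁.EOn (Metric.ball 0 ρ) = c.EOn (Metric.ball 0 ρ) := by
    have h1 : c₁.dens = c.dens := funext fun z => Cf.gt_dens hom.s hc.sw hc.sA z
    unfold Cf.EOn
    rw [h1]
  have g3 : P ρ = ∫ χ in (0 : ℝ)..2 * π, ‖c.w (pt ρ χ)‖ ^ 2 := by
    simp only [hP, hnw]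
  have g4 : c₁.Xo ρ = c.Xo ρ := by
    unfold Cf.Xo
    exact intervalIntegral.integral_congr fun χ _ => Cf.gt_nsq hom.s hc.sw _ _
  rw [g1, g2, g3, g4] at hfin
  refine ⟨vac c₁ ρ β τ κ η, D.vac_adm, D.vac_zero, fun r hr' => ?_, fun r h0 h1 => ?_, hfin⟩
  · obtain ⟨h1, h2, h3⟩ := D.vac_data hr'
    obtain ⟨-, k2, k3, k4, -⟩ := Cf.gt_data hn0 hom hc r
    exact ⟨h1.trans k2, h2.trans k3, h3.trans k4⟩
  · refine ⟨η r, D.ηb r, ?_⟩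
    rw [D.vac_beta h0, (Cf.gt_data hn0 hom hc r).1]

end GO3.Vc
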