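import Pool.Agent.GO3.B.Pm
import Pool.Agent.GO3.Gau

/-!
# GO3 / V / Vac1: replacement by the vacuum inside a disc (helper30)

`c` is normalised at `ρ` (see `V.Arg.exists_norm`).  The new configuration: `w' = pm τ κ w`, `h' = √(1 - |w'|²)` for `|z| < ρ`,
`h' = h` for `|z| ≥ ρ`, `A' = η (|z|) (β/ρ²) i z + (1 - η (|z|)) A`.

PROOFS (compare `Pool.Agent.GO3.B.CapA`, which is the same construction without the change of `A`).
* `vacW_out`: `pm_out`.  `vacW_sq_le`: as in CapA.  `vacH_eq`: `h > 0` near the circle, so `h = √(1 - ‖w‖²)`.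
* `vac_adm`: `z ↦ η ‖z‖` is smooth (constant `1` near `0`, since `η x = 1` for `x ≤ ρ - e`, `ρ - e > 0`); symmetries of `i z`:
  `i ζ z = ζ (i z)`, `i conj z = - conj (i z)`.  `unit`, smoothness of `h'` as in CapA.  `fin`: `dens` is continuous and equal
  to `c.dens` for `‖z‖ > ρ`.
* `vac_b`: `ip (η (β/ρ²) i z + (1-η) A z) (i z) = η (β/ρ²) r² + (1-η) b r χ`.  `vac_beta`: integrate over `[0, α]` and divide by `α`.
* `vac_data`: for `r ≥ ρ` the fields and the potential on the circle of radius `r` are the same.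
-/

open MeasureTheory Filter Topology Set
open scoped ContDiff Real

noncomputable section

namespace GO3.Vc

open GO3.Cap

/-- the data of a vacuum replacement -/
structure VDat (c : Cf) (n : ℕ) (ρ L e β Cc : ℝ) (τ κ η : ℝ → ℝ) : Prop where
  hn : 2 ≤ n
  adm : c.Adm n
  hρ : 0 < ρ
  hL : 0 < L
  hLρ : L ≤ ρ / 2
  he : 0 < e
  heL : 2 * e < L
  hCc : 0 ≤ Cc
  rad : ∀ z : ℂ, ρ / 2 ≤ ‖z‖ → ip (c.A z) z = 0
  bρ : ∀ χ, c.b ρ χ = β
  lip : ∀ r χ, ρ - e ≤ r → r ≤ ρ → |c.b r χ - β| ≤ Cc * e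
  near : ∀ z : ℂ, ρ - e ≤ ‖z‖ → ‖z‖ ≤ ρ + e → ‖c.w z‖ ^ 2 ≤ 1 / 2 ∧ 0 < c.h z
  τs : ContDiff ℝ ∞ τ
  τ0 : ∀ x, x ≤ ρ - L → τ x = 0
  τ1 : ∀ x, ρ ≤ x → τ x = 1
  τb : ∀ x, 0 ≤ τ x ∧ τ x ≤ 1
  τd : ∀ x, |deriv τ x| ≤ 2 / L
  κs : ContDiff ℝ ∞ κ
  κ1 : ∀ x, ρ ≤ x → κ x = x
  κ0 : ∀ x, x ≤ ρ - 2 * e → κ x = ρ - e
  κb : ∀ x, x ≤ ρ → ρ - e ≤ κ x ∧ κ x ≤ ρ
  κd : ∀ x, 0 ≤ deriv κ x ∧ deriv κ x ≤ 1
  ηs : ContDiff ℝ ∞ η
  η1 : ∀ x, x ≤ ρ - e → η x = 1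
  η0 : ∀ x, ρ ≤ x → η x = 0
  ηb : ∀ x, 0 ≤ η x ∧ η x ≤ 1
  ηd : ∀ x, |deriv η x| ≤ 2 / e

/-- the vacuum replacement -/
def vac (c : Cf) (ρ β : ℝ) (τ κ η : ℝ → ℝ) : Cf where
  w := pm τ κ c.w
  h := fun z => if ‖z‖ < ρ then Real.sqrt (1 - ‖pm τ κ c.w z‖ ^ 2) else c.h z
  A := fun z => ((η ‖z‖ * (β / ρ ^ 2) : ℝ) : ℂ) * (Complex.I * z) + ((1 - η ‖z‖ : ℝ) : ℂ) * c.A z

variable {c : Cf} {n : ℕ} {ρ L e β Cc : ℝ} {τ κ η : ℝ → ℝ}

private theorem dens_cont {c : Cf} (hw : ContDiff ℝ ∞ c.w) (hh : ContDiff ℝ ∞ c.h)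
    (hA : ContDiff ℝ ∞ c.A) : Continuous c.dens := by
  have f1 : ∀ v : ℂ, Continuous fun z => fderiv ℝ c.w z v := fun v =>
    (hw.continuous_fderiv (by simp)).clm_apply continuous_const
  have f2 : ∀ v : ℂ, Continuous fun z => fderiv ℝ c.h z v := fun v =>
    (hh.continuous_fderiv (by simp)).clm_apply continuous_const
  have f3 : ∀ v : ℂ, Continuous fun z => fderiv ℝ c.A z v := fun v =>
    (hA.continuous_fderiv (by simp)).clm_apply continuous_const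
  have cw := hw.continuous
  have ch := hh.continuous
  have cA := hA.continuous
  have f4 : ∀ v : ℂ, Continuous fun z => c.Dw z v := by
    intro v
    unfold Cf.Dw ip
    have := f1 v
    fun_prop
  have f5 : ∀ v : ℂ, Continuous fun z => c.nsq z v := by
    intro v
    unfold Cf.nsq Cf.dh
    exact ((f4 v).norm.pow 2).add ((f2 v).pow 2)
  unfold Cf.dens Cf.grad Cf.F
  have g1 := f5 1
  have g2 := f5 Complex.I
  have g3 := f3 1
  have g4 := f3 Complex.I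
  exact ((g1.add g2).add ((continuous_const.sub ch).pow 2)).add
    (((Complex.continuous_im.comp g3).sub (Complex.continuous_re.comp g4)).pow 2)

private theorem pos_e (D : VDat c n ρ L e β Cc τ κ η) : 0 < ρ - e := by
  linarith [D.hL, D.hLρ, D.he, D.heL, D.hρ]

private theorem pos_L (D : VDat c n ρ L e β Cc τ κ η) : 0 < ρ - L := by
  linarith [D.hL, D.hLρ, D.hρ]

private theorem tau_zero (D : VDat c n ρ L e β Cc τ κ η) : τ ‖(0 : ℂ)‖ = 0 := by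
  rw [norm_zero]
  exact D.τ0 0 (pos_L D).le

theorem VDat.w_smooth (D : VDat c n ρ L e β Cc τ κ η) : ContDiff ℝ ∞ (pm τ κ c.w) :=
  pm_smooth D.τs D.κs D.adm.sw (pos_L D) D.τ0

theorem VDat.w_out (D : VDat c n ρ L e β Cc τ κ η) {z : ℂ} (hz : ρ ≤ ‖z‖) : pm τ κ c.w z = c.w z := by
  have h0 : z ≠ 0 := by
    intro h
    rw [h, norm_zero] at hz
    linarith [D.hρ]
  exact pm_out h0 (D.τ1 _ hz) (D.κ1 _ hz)

theorem VDat.w_sq_le (D : VDat c n ρ L e β Cc τ κ η) {z : ℂ} (hz : ‖z‖ < ρ + e) :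
    ‖pm τ κ c.w z‖ ^ 2 ≤ 1 / 2 := by
  rcases le_or_gt ρ ‖z‖ with h | h
  · rw [D.w_out h]
    exact (D.near z (by linarith [D.he]) hz.le).1
  · by_cases h0 : z = 0
    · rw [h0]
      have h1 : pm τ κ c.w 0 = 0 := pm_zero (tau_zero D)
      rw [h1]
      norm_num
    · obtain ⟨h1, h2⟩ := norm_pm_le (τ := τ) (κ := κ) (f := c.w) (z := z) D.τb h0
      have h3 := D.κb _ h.le
      have h4 : 0 < κ ‖z‖ := by linarith [pos_e D]
      rw [abs_of_pos h4] at h2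
      have h5 := (D.near _ (by rw [h2]; exact h3.1) (by rw [h2]; linarith [D.he])).1
      refine le_trans ?_ h5
      exact pow_le_pow_left₀ (norm_nonneg _) h1 2

theorem VDat.h_eq (D : VDat c n ρ L e β Cc τ κ η) {z : ℂ} (hz : ‖z‖ < ρ + e) :
    (vac c ρ β τ κ η).h z = Real.sqrt (1 - ‖pm τ κ c.w z‖ ^ 2) := by
  rcases le_or_gt ρ ‖z‖ with h | h
  · have h1 : (vac c ρ β τ κ η).h z = c.h z := if_neg (not_lt.2 h)
    rw [h1, D.w_out h]
    have h2 := (D.near z (by linarith [D.he]) hz.le).2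
    have h3 : 1 - ‖c.w z‖ ^ 2 = c.h z ^ 2 := by linarith [D.adm.unit z]
    rw [h3, Real.sqrt_sq h2.le]
  · exact if_pos h

theorem VDat.out (D : VDat c n ρ L e β Cc τ κ η) {z : ℂ} (hz : ρ ≤ ‖z‖) :
    (vac c ρ β τ κ η).w z = c.w z ∧ (vac c ρ β τ κ η).h z = c.h z ∧
      (vac c ρ β τ κ η).A z = c.A z := by
  refine ⟨D.w_out hz, if_neg (not_lt.2 hz), ?_⟩
  change ((η ‖z‖ * (β / ρ ^ 2) : ℝ) : ℂ) * (Complex.I * z) + ((1 - η ‖z‖ : ℝ) : ℂ) * c.A z = c.A z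
  rw [D.η0 _ hz]
  simp

theorem VDat.dens_out (D : VDat c n ρ L e β Cc τ κ η) {z : ℂ} (hz : ρ < ‖z‖) :
    (vac c ρ β τ κ η).dens z = c.dens z := by
  have hU : {y : ℂ | ρ < ‖y‖} ∈ 𝓝 z := (isOpen_lt continuous_const continuous_norm).mem_nhds hz
  have e1 : (vac c ρ β τ κ η).w =ᶠ[𝓝 z] c.w := by
    filter_upwards [hU] with y hy
    exact (D.out (le_of_lt hy)).1
  have e2 : (vac c ρ β τ κ η).h =ᶠ[𝓝 z] c.h := by
    filter_upwards [hU] with y hy
    exact (D.out (le_of_lt hy)).2.1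
  have e3 : (vac c ρ β τ κ η).A =ᶠ[𝓝 z] c.A := by
    filter_upwards [hU] with y hy
    exact (D.out (le_of_lt hy)).2.2
  unfold Cf.dens Cf.grad Cf.nsq Cf.Dw Cf.dh Cf.F
  rw [e1.fderiv_eq, e2.fderiv_eq, e3.fderiv_eq, e1.eq_of_nhds, e2.eq_of_nhds, e3.eq_of_nhds]

private theorem eta_smooth (D : VDat c n ρ L e β Cc τ κ η) :
    ContDiff ℝ ∞ fun z : ℂ => η ‖z‖ := by
  rw [contDiff_iff_contDiffAt]
  intro z
  by_cases hz : z = 0
  · subst hz
    have h1 : (fun z : ℂ => η ‖z‖) =ᶠ[𝓝 0] fun _ => (1 : ℝ) := by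
      filter_upwards [Metric.ball_mem_nhds (0 : ℂ) (pos_e D)] with w hw
      rw [mem_ball_zero_iff] at hw
      exact D.η1 _ hw.le
    exact contDiffAt_const.congr_of_eventuallyEq h1
  · exact D.ηs.contDiffAt.comp z (contDiffAt_norm ℝ hz)

theorem VDat.vac_adm (D : VDat c n ρ L e β Cc τ κ η) : (vac c ρ β τ κ η).Adm n := by
  have hsw : ContDiff ℝ ∞ (vac c ρ β τ κ η).w := D.w_smooth
  have hsh : ContDiff ℝ ∞ (vac c ρ β τ κ η).h := by
    rw [contDiff_iff_contDiffAt]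
    intro z
    rcases lt_or_ge ‖z‖ (ρ + e) with h | h
    · have hU : {y : ℂ | ‖y‖ < ρ + e} ∈ 𝓝 z :=
        (isOpen_lt continuous_norm continuous_const).mem_nhds h
      have e1 : (vac c ρ β τ κ η).h =ᶠ[𝓝 z] fun y => Real.sqrt (1 - ‖pm τ κ c.w y‖ ^ 2) := by
        filter_upwards [hU] with y hy
        exact D.h_eq hy
      refine ContDiffAt.congr_of_eventuallyEq ?_ e1
      have h2 : ContDiff ℝ ∞ fun y => 1 - ‖pm τ κ c.w y‖ ^ 2 :=
        contDiff_const.sub (D.w_smooth.norm_sq ℝ)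
      have h3 : 1 - ‖pm τ κ c.w z‖ ^ 2 ≠ 0 := by
        have := D.w_sq_le h
        linarith
      exact h2.contDiffAt.sqrt h3
    · have hs' : ρ < ‖z‖ := by linarith [D.he]
      have hU : {y : ℂ | ρ < ‖y‖} ∈ 𝓝 z :=
        (isOpen_lt continuous_const continuous_norm).mem_nhds hs'
      have e2 : (vac c ρ β τ κ η).h =ᶠ[𝓝 z] c.h := by
        filter_upwards [hU] with y hy
        exact (D.out (le_of_lt hy)).2.1
      exact D.adm.sh.contDiffAt.congr_of_eventuallyEq e2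
  have hη := eta_smooth D
  have hsA : ContDiff ℝ ∞ (vac c ρ β τ κ η).A := by
    change ContDiff ℝ ∞ fun z : ℂ => ((η ‖z‖ * (β / ρ ^ 2) : ℝ) : ℂ) * (Complex.I * z) +
      ((1 - η ‖z‖ : ℝ) : ℂ) * c.A z
    have h1 : ContDiff ℝ ∞ fun z : ℂ => ((η ‖z‖ * (β / ρ ^ 2) : ℝ) : ℂ) :=
      Complex.ofRealCLM.contDiff.comp (hη.mul contDiff_const)
    have h2 : ContDiff ℝ ∞ fun z : ℂ => ((1 - η ‖z‖ : ℝ) : ℂ) :=
      Complex.ofRealCLM.contDiff.comp (contDiff_const.sub hη)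
    exact (h1.mul (contDiff_const.mul contDiff_id)).add (h2.mul D.adm.sA)
  have hrot : ∀ z, pm τ κ c.w (ze n * z) = ze n * pm τ κ c.w z :=
    pm_rot (norm_ze n) D.adm.rw
  have hstar : ∀ z, pm τ κ c.w (star z) = star (pm τ κ c.w z) := pm_star D.adm.cw
  refine ⟨hsw, hsh, hsA, ?_, ?_, hrot, ?_, ?_, hstar, ?_, ?_⟩
  · intro z
    rcases lt_or_ge ‖z‖ ρ with h | h
    · have h1 : ‖z‖ < ρ + e := by linarith [D.he]
      have h2 := D.w_sq_le h1
      rw [D.h_eq h1, Real.sq_sqrt (by linarith)]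
      change ‖pm τ κ c.w z‖ ^ 2 + (1 - ‖pm τ κ c.w z‖ ^ 2) = 1
      ring
    · rw [(D.out h).1, (D.out h).2.1]
      exact D.adm.unit z
  · have hc := dens_cont hsw hsh hsA
    have i1 : IntegrableOn (vac c ρ β τ κ η).dens (Metric.closedBall 0 ρ) :=
      hc.continuousOn.integrableOn_compact (isCompact_closedBall 0 ρ)
    have i2 : IntegrableOn (vac c ρ β τ κ η).dens (Metric.closedBall 0 ρ)ᶜ := by
      refine (D.adm.fin.integrableOn).congr_fun ?_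
        Metric.isClosed_closedBall.measurableSet.compl
      intro z hz
      rw [mem_compl_iff, mem_closedBall_zero_iff, not_le] at hz
      exact (D.dens_out hz).symm
    have i3 := i1.union i2
    rw [union_compl_self, integrableOn_univ] at i3
    exact i3
  · intro z
    change (if ‖ze n * z‖ < ρ then Real.sqrt (1 - ‖pm τ κ c.w (ze n * z)‖ ^ 2)
      else c.h (ze n * z)) = if ‖z‖ < ρ then Real.sqrt (1 - ‖pm τ κ c.w z‖ ^ 2) else c.h z
    rw [hrot, norm_mul, norm_mul, norm_ze, one_mul, one_mul, D.adm.rh]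
  · intro z
    change ((η ‖ze n * z‖ * (β / ρ ^ 2) : ℝ) : ℂ) * (Complex.I * (ze n * z)) +
      ((1 - η ‖ze n * z‖ : ℝ) : ℂ) * c.A (ze n * z) = ze n *
      (((η ‖z‖ * (β / ρ ^ 2) : ℝ) : ℂ) * (Complex.I * z) + ((1 - η ‖z‖ : ℝ) : ℂ) * c.A z)
    rw [norm_mul, norm_ze, one_mul, D.adm.rA]
    ring
  · intro z
    change (if ‖star z‖ < ρ then Real.sqrt (1 - ‖pm τ κ c.w (star z)‖ ^ 2)
      else c.h (star z)) = if ‖z‖ < ρ then Real.sqrt (1 - ‖pm τ κ c.w z‖ ^ 2) else c.h z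
    rw [hstar, norm_star, norm_star, D.adm.ch]
  · intro z
    change ((η ‖star z‖ * (β / ρ ^ 2) : ℝ) : ℂ) * (Complex.I * star z) +
      ((1 - η ‖star z‖ : ℝ) : ℂ) * c.A (star z) = -star
      (((η ‖z‖ * (β / ρ ^ 2) : ℝ) : ℂ) * (Complex.I * z) + ((1 - η ‖z‖ : ℝ) : ℂ) * c.A z)
    have h2 : ∀ x : ℝ, star (x : ℂ) = (x : ℂ) := fun x => Complex.conj_ofReal x
    have h3 : star Complex.I = -Complex.I := Complex.conj_I
    rw [norm_star, D.adm.cA, star_add, star_mul', star_mul', star_mul', h2, h2, h3]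
    ring

theorem VDat.vac_zero (D : VDat c n ρ L e β Cc τ κ η) : (vac c ρ β τ κ η).h 0 = 1 := by
  have h1 : ‖(0 : ℂ)‖ < ρ + e := by
    rw [norm_zero]
    linarith [D.hρ, D.he]
  have h2 : pm τ κ c.w 0 = 0 := pm_zero (tau_zero D)
  rw [D.h_eq h1, h2]
  simp

theorem VDat.vac_b (D : VDat c n ρ L e β Cc τ κ η) {r : ℝ} (hr : 0 ≤ r) (χ : ℝ) :
    (vac c ρ β τ κ η).b r χ = η r * (β * r ^ 2 / ρ ^ 2) + (1 - η r) * c.b r χ := by
  have hn : ‖pt r χ‖ = r := by rw [norm_pt, abs_of_nonneg hr]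
  have h1 : ∀ (x y : ℝ) (u v w : ℂ), ip ((x : ℂ) * u + (y : ℂ) * v) w = x * ip u w + y * ip v w := by
    intro x y u v w
    unfold ip
    simp only [Complex.add_re, Complex.add_im, Complex.mul_re, Complex.mul_im, Complex.ofReal_re,
      Complex.ofReal_im, zero_mul, sub_zero, add_zero]
    ring
  have h2 : ip (Complex.I * pt r χ) (Complex.I * pt r χ) = r ^ 2 := by
    rw [ip_self, norm_mul, Complex.norm_I, one_mul, hn]
  unfold Cf.b
  change ip (((η ‖pt r χ‖ * (β / ρ ^ 2) : ℝ) : ℂ) * (Complex.I * pt r χ) +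
    ((1 - η ‖pt r χ‖ : ℝ) : ℂ) * c.A (pt r χ)) (Complex.I * pt r χ) = _
  rw [h1, h2, hn]
  ring

private theorem cont_b (D : VDat c n ρ L e β Cc τ κ η) (r : ℝ) : Continuous fun χ => c.b r χ := by
  have h1 : Continuous fun χ : ℝ => pt r χ :=
    continuous_pt.comp (continuous_const.prodMk continuous_id)
  have h2 := D.adm.sA.continuous.comp h1
  unfold Cf.b ip
  exact ((Complex.continuous_re.comp h2).mul
    (Complex.continuous_re.comp (continuous_const.mul h1))).add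
    ((Complex.continuous_im.comp h2).mul
    (Complex.continuous_im.comp (continuous_const.mul h1)))

theorem VDat.vac_beta (D : VDat c n ρ L e β Cc τ κ η) {r : ℝ} (hr : 0 ≤ r) :
    (vac c ρ β τ κ η).beta n r = η r * (β * r ^ 2 / ρ ^ 2) + (1 - η r) * c.beta n r := by
  have hal : 0 < al n := al_pos (by have := D.hn; omega)
  have h1 : (vac c ρ β τ κ η).B r (al n) =
      η r * (β * r ^ 2 / ρ ^ 2) * al n + (1 - η r) * c.B r (al n) := by
    unfold Cf.B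
    have h2 : ∀ t, (vac c ρ β τ κ η).b r t = η r * (β * r ^ 2 / ρ ^ 2) + (1 - η r) * c.b r t :=
      fun t => D.vac_b hr t
    simp only [h2]
    rw [intervalIntegral.integral_add intervalIntegrable_const
      (((cont_b D r).const_mul (1 - η r)).intervalIntegrable _ _),
      intervalIntegral.integral_const, intervalIntegral.integral_const_mul, sub_zero, smul_eq_mul]
    ring
  unfold Cf.beta
  have h3 : ∀ x y z w : ℝ, w ≠ 0 → (x * w + y * z) / w = x + y * (z / w) := by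
    intro x y z w hw
    field_simp
  rw [h1, h3 _ _ _ _ hal.ne']

theorem VDat.vac_data (D : VDat c n ρ L e β Cc τ κ η) {r : ℝ} (hr : ρ ≤ r) :
    (vac c ρ β τ κ η).aa n r = c.aa n r ∧ (vac c ρ β τ κ η).cc n r = c.cc n r ∧
      (vac c ρ β τ κ η).V n r = c.V n r := by
  have hr0 : 0 ≤ r := D.hρ.le.trans hr
  have hn : ∀ χ, ρ ≤ ‖pt r χ‖ := fun χ => by
    rw [norm_pt, abs_of_nonneg hr0]
    exact hr
  have hw : ∀ χ, (vac c ρ β τ κ η).w (pt r χ) = c.w (pt r χ) := fun χ => (D.out (hn χ)).1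
  have hh : ∀ χ, (vac c ρ β τ κ η).h (pt r χ) = c.h (pt r χ) := fun χ => (D.out (hn χ)).2.1
  have hb : ∀ χ, (vac c ρ β τ κ η).b r χ = c.b r χ := fun χ => by
    rw [D.vac_b hr0, D.η0 _ hr]
    ring
  have hB : ∀ χ, (vac c ρ β τ κ η).B r χ = c.B r χ := fun χ => by
    unfold Cf.B
    simp only [hb]
  refine ⟨?_, ?_, ?_⟩
  · unfold Cf.aa Cf.beta
    rw [hB]
  · unfold Cf.cc
    simp only [hh]
  · unfold Cf.V
    simp only [hw, hB]

end GO3.Vc
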