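import Pool.Agent.GO3.V.Vac1
import Pool.Agent.GO3.Bnd

/-!
# GO3 / V / Vac2: field energy of the vacuum replacement (helper30)

PROOFS.  `c' = vac c ρ β τ κ η`.
* `vac_F`: `A' = η (β/ρ²) i z + (1-η) A`, `curl (g V) = g curl V + ⟨∇g, i-rotated V⟩`: at `z = pt r χ`, `r > 0`,
  `∇(η ‖·‖) = η' r er χ`, curl of `i z` is `2`, and `⟨A_V, i er⟩` for `V = (β/ρ²) i z - A` is `(β r²/ρ² - b r χ)/r`.  Concretely compute
  `(fderiv A' z 1).im - (fderiv A' z I).re` with the product rule and `fderiv (η ‖·‖) z v = η' ‖z‖ ip z v / ‖z‖`.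
* `vac_F_in`: for `‖z‖ < ρ - e`: `A' = (β/ρ²) i z` near `z`, `F' = 2 β/ρ²`.
* `vac_F_layer`: for `ρ - e ≤ r < ρ` (`r ≥ ρ/2`): `|F'| ≤ 2|β|/ρ² + M + (2/e)(1/r)(|β| (1 - r²/ρ²) + Cc e)` with
  `1 - r²/ρ² ≤ 2 e/ρ`, `1/r ≤ 2/ρ`.
* `vac_F_int`: split `ball 0 ρ` into `ball 0 (ρ - e)` (area `≤ π ρ²`) and the layer (area `≤ 2 π ρ e`), or `polar_ball` and
  `r ∫ F'² ≤ 2π r (4β²/ρ⁴)` resp. `≤ 2π ρ KF²`.
-/

open MeasureTheory Filter Topology Set
open scoped ContDiff Real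

noncomputable section

namespace GO3.Vc

open GO3.Cap

variable {c : Cf} {n : ℕ} {ρ L e β Cc : ℝ} {τ κ η : ℝ → ℝ}

private theorem v2_norm {z : ℂ} (hz : z ≠ 0) : ∃ N : ℂ →L[ℝ] ℝ,
    HasFDerivAt (fun y : ℂ => ‖y‖) N z ∧ ∀ v, N v = ip z v / ‖z‖ := by
  have h0 : ‖z‖ ≠ 0 := norm_ne_zero_iff.2 hz
  have h1 : HasFDerivAt (fun y : ℂ => ‖y‖ ^ 2) (2 • (innerSL ℝ z)) z :=
    (hasStrictFDerivAt_norm_sq z).hasFDerivAt
  have h2 := h1.sqrt (pow_ne_zero 2 h0)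
  have h3 : (fun y : ℂ => √(‖y‖ ^ 2)) = fun y => ‖y‖ := by
    funext y
    exact Real.sqrt_sq (norm_nonneg y)
  rw [h3, Real.sqrt_sq (norm_nonneg z)] at h2
  refine ⟨_, h2, fun v => ?_⟩
  have h4 : (innerSL ℝ z) v = ip z v := by
    rw [innerSL_apply_apply, Complex.inner]
    unfold ip
    simp only [Complex.mul_re, Complex.conj_re, Complex.conj_im]
    ring
  rw [smul_apply, smul_apply, h4]
  simp only [smul_eq_mul, nsmul_eq_mul]
  push_cast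
  field_simp

private theorem v2_ipr (k r χ : ℝ) (A : ℂ) :
    (pt r χ).re * ((k : ℂ) * (Complex.I * pt r χ) - A).im -
      (pt r χ).im * ((k : ℂ) * (Complex.I * pt r χ) - A).re =
    k * r ^ 2 - ip A (Complex.I * pt r χ) := by
  have h := Complex.sq_norm (pt r χ)
  rw [norm_pt, sq_abs, Complex.normSq_apply] at h
  unfold ip
  simp only [Complex.mul_re, Complex.mul_im, Complex.sub_re, Complex.sub_im, Complex.I_re,
    Complex.I_im, Complex.ofReal_re, Complex.ofReal_im]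
  rw [h]
  ring

private theorem v2_pt_ne {r : ℝ} (hr : 0 < r) (χ : ℝ) : pt r χ ≠ 0 := by
  intro h
  have h1 := norm_pt r χ
  rw [h, norm_zero, abs_of_pos hr] at h1
  linarith

theorem VDat.vac_F (D : VDat c n ρ L e β Cc τ κ η) {r : ℝ} (hr : 0 < r) (χ : ℝ) :
    (vac c ρ β τ κ η).F (pt r χ) = η r * (2 * β / ρ ^ 2) + (1 - η r) * c.F (pt r χ) +
      deriv η r / r * (β * r ^ 2 / ρ ^ 2 - c.b r χ) := by
  have hz := v2_pt_ne hr χ
  have hnr : ‖pt r χ‖ = r := by rw [norm_pt, abs_of_pos hr]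
  obtain ⟨N, hN, hNv⟩ := v2_norm hz
  have hη : HasDerivAt η (deriv η r) ‖pt r χ‖ := by
    rw [hnr]
    exact ((D.ηs.differentiable (by simp)) r).hasDerivAt
  have hg : HasFDerivAt (fun y : ℂ => η ‖y‖) (deriv η r • N) (pt r χ) :=
    hη.comp_hasFDerivAt (pt r χ) hN
  have hA : HasFDerivAt c.A (fderiv ℝ c.A (pt r χ)) (pt r χ) :=
    ((D.adm.sA.differentiable (by simp)) (pt r χ)).hasFDerivAt
  set k : ℝ := β / ρ ^ 2 with hk
  -- the rotation field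
  have hI : HasFDerivAt (fun y : ℂ => (k : ℝ) • (Complex.I * y))
      (k • (ContinuousLinearMap.mul ℝ ℂ Complex.I)) (pt r χ) := by
    have h1 : HasFDerivAt (fun y : ℂ => Complex.I * y) (ContinuousLinearMap.mul ℝ ℂ Complex.I)
        (pt r χ) := (ContinuousLinearMap.mul ℝ ℂ Complex.I).hasFDerivAt
    exact h1.const_smul k
  have h1 : HasFDerivAt (fun y : ℂ => η ‖y‖ • (k • (Complex.I * y)) + (1 - η ‖y‖) • c.A y) _
      (pt r χ) := (hg.smul hI).add ((hg.const_sub 1).smul hA)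
  have he : (vac c ρ β τ κ η).A =
      fun y : ℂ => η ‖y‖ • (k • (Complex.I * y)) + (1 - η ‖y‖) • c.A y := by
    funext y
    show ((η ‖y‖ * k : ℝ) : ℂ) * (Complex.I * y) + ((1 - η ‖y‖ : ℝ) : ℂ) * c.A y = _
    rw [Complex.real_smul, Complex.real_smul, Complex.real_smul]
    push_cast
    ring
  have hF : (vac c ρ β τ κ η).F (pt r χ) =
      (fderiv ℝ (vac c ρ β τ κ η).A (pt r χ) 1).im -
        (fderiv ℝ (vac c ρ β τ κ η).A (pt r χ) Complex.I).re := rfl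
  rw [hF, he, h1.fderiv]
  have hip := v2_ipr k r χ (c.A (pt r χ))
  have hb : c.b r χ = ip (c.A (pt r χ)) (Complex.I * pt r χ) := rfl
  rw [← hb] at hip
  have hN1 : N 1 = (pt r χ).re / r := by
    rw [hNv, hnr]
    unfold ip
    simp
  have hNI : N Complex.I = (pt r χ).im / r := by
    rw [hNv, hnr]
    unfold ip
    simp
  have hcF : c.F (pt r χ) = (fderiv ℝ c.A (pt r χ) 1).im - (fderiv ℝ c.A (pt r χ) Complex.I).re := rfl
  simp only [add_apply, smul_apply,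
    ContinuousLinearMap.smulRight_apply, neg_apply,
    ContinuousLinearMap.mul_apply', hN1, hNI, hnr, Complex.add_im, Complex.add_re,
    Complex.real_smul, Complex.mul_re, Complex.mul_im, Complex.I_re, Complex.I_im,
    Complex.ofReal_re, Complex.ofReal_im, Complex.one_re, Complex.one_im, smul_eq_mul]
  rw [hcF]
  simp only [Complex.mul_re, Complex.mul_im, Complex.sub_re, Complex.sub_im, Complex.I_re,
    Complex.I_im, Complex.ofReal_re, Complex.ofReal_im] at hip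
  have e1 : deriv η r / r * (β * r ^ 2 / ρ ^ 2 - c.b r χ) =
      deriv η r / r * (k * r ^ 2 - c.b r χ) := by
    rw [hk]
    ring
  rw [e1, ← hip]
  have e2 : η r * (2 * β / ρ ^ 2) = η r * (2 * k) := by
    rw [hk]
    ring
  rw [e2]
  field_simp
  ring

theorem VDat.vac_F_in (D : VDat c n ρ L e β Cc τ κ η) {z : ℂ} (hz : ‖z‖ < ρ - e) :
    (vac c ρ β τ κ η).F z = 2 * β / ρ ^ 2 := by
  have hU : {y : ℂ | ‖y‖ < ρ - e} ∈ 𝓝 z :=
    (isOpen_lt continuous_norm continuous_const).mem_nhds hz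
  have e1 : (vac c ρ β τ κ η).A =ᶠ[𝓝 z] fun y => ((β / ρ ^ 2 : ℝ) : ℂ) * (Complex.I * y) := by
    filter_upwards [hU] with y hy
    show ((η ‖y‖ * (β / ρ ^ 2) : ℝ) : ℂ) * (Complex.I * y) + ((1 - η ‖y‖ : ℝ) : ℂ) * c.A y = _
    rw [D.η1 ‖y‖ (le_of_lt hy)]
    simp
  have h1 : HasFDerivAt (fun y : ℂ => ((β / ρ ^ 2 : ℝ) : ℂ) * (Complex.I * y))
      (ContinuousLinearMap.mul ℝ ℂ (((β / ρ ^ 2 : ℝ) : ℂ) * Complex.I)) z := by
    have h2 := (ContinuousLinearMap.mul ℝ ℂ (((β / ρ ^ 2 : ℝ) : ℂ) * Complex.I)).hasFDerivAt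
      (x := z)
    refine h2.congr_of_eventuallyEq (Filter.Eventually.of_forall fun y => ?_)
    simp only [ContinuousLinearMap.mul_apply']
    ring
  have hF : (vac c ρ β τ κ η).F z =
      (fderiv ℝ (vac c ρ β τ κ η).A z 1).im -
        (fderiv ℝ (vac c ρ β τ κ η).A z Complex.I).re := rfl
  rw [hF, e1.fderiv_eq, h1.fderiv]
  simp only [ContinuousLinearMap.mul_apply', Complex.mul_re, Complex.mul_im, Complex.I_re,
    Complex.I_im, Complex.ofReal_re, Complex.ofReal_im, Complex.one_re, Complex.one_im]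
  ring

theorem VDat.vac_F_layer (D : VDat c n ρ L e β Cc τ κ η) {M : ℝ} (hM : ∀ z : ℂ, ‖z‖ ≤ ρ → |c.F z| ≤ M)
    {z : ℂ} (h1 : ρ - e ≤ ‖z‖) (h2 : ‖z‖ < ρ) :
    |(vac c ρ β τ κ η).F z| ≤ 2 * |β| / ρ ^ 2 + M + 4 / ρ * (2 * |β| / ρ + Cc) := by
  have hρ := D.hρ
  have he := D.he
  have heL := D.heL
  have hLρ := D.hLρ
  obtain ⟨χ, -, hχ⟩ := exists_pt z
  have hr2 : ρ / 2 ≤ ‖z‖ := by linarith
  have hr : 0 < ‖z‖ := by linarith
  obtain ⟨r, hrz⟩ : ∃ r, r = ‖z‖ := ⟨_, rfl⟩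
  rw [← hrz] at h1 h2 hχ hr2 hr
  rw [hχ, D.vac_F hr χ]
  have hη := D.ηb r
  have hFz := hM (pt r χ) (by rw [norm_pt, abs_of_pos hr]; exact h2.le)
  have t1 : |η r * (2 * β / ρ ^ 2)| ≤ 2 * |β| / ρ ^ 2 := by
    rw [abs_mul, abs_of_nonneg hη.1, abs_div, abs_mul, abs_two, abs_of_pos (pow_pos hρ 2)]
    exact mul_le_of_le_one_left (by positivity) hη.2
  have t2 : |(1 - η r) * c.F (pt r χ)| ≤ M := by
    rw [abs_mul, abs_of_nonneg (by linarith [hη.2] : 0 ≤ 1 - η r)]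
    exact (mul_le_of_le_one_left (abs_nonneg _) (by linarith [hη.1])).trans hFz
  have t3 : |deriv η r / r * (β * r ^ 2 / ρ ^ 2 - c.b r χ)| ≤ 4 / ρ * (2 * |β| / ρ + Cc) := by
    have u1 : |β * r ^ 2 / ρ ^ 2 - c.b r χ| ≤ e * (2 * |β| / ρ + Cc) := by
      have v1 : β * r ^ 2 / ρ ^ 2 - c.b r χ =
          -(β * (1 - r ^ 2 / ρ ^ 2)) + -(c.b r χ - β) := by ring
      rw [v1]
      refine (abs_add_le _ _).trans ?_
      rw [abs_neg, abs_neg, abs_mul]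
      have v2 := D.lip r χ h1 h2.le
      have v3 : 0 ≤ 1 - r ^ 2 / ρ ^ 2 := by
        rw [sub_nonneg, div_le_one (by positivity)]
        exact pow_le_pow_left₀ hr.le h2.le 2
      have v4 : 1 - r ^ 2 / ρ ^ 2 ≤ 2 * e / ρ := by
        have w1 : 1 - r ^ 2 / ρ ^ 2 = (ρ ^ 2 - r ^ 2) / ρ ^ 2 := by field_simp
        have w2 : 2 * e / ρ = 2 * e * ρ / ρ ^ 2 := by field_simp
        rw [w1, w2]
        refine div_le_div_of_nonneg_right ?_ (by positivity)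
        nlinarith
      rw [abs_of_nonneg v3]
      have v5 : |β| * (1 - r ^ 2 / ρ ^ 2) ≤ |β| * (2 * e / ρ) :=
        mul_le_mul_of_nonneg_left v4 (abs_nonneg _)
      have v6 : |β| * (2 * e / ρ) = e * (2 * |β| / ρ) := by ring
      linarith
    rw [abs_mul, abs_div, abs_of_pos hr]
    have u2 : |deriv η r| / r ≤ (2 / e) / (ρ / 2) :=
      div_le_div₀ (by positivity) (D.ηd r) (by linarith) hr2
    have u3 : 0 ≤ e * (2 * |β| / ρ + Cc) := (abs_nonneg _).trans u1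
    calc |deriv η r| / r * |β * r ^ 2 / ρ ^ 2 - c.b r χ|
        ≤ (2 / e) / (ρ / 2) * (e * (2 * |β| / ρ + Cc)) :=
          mul_le_mul u2 u1 (abs_nonneg _) (by positivity)
      _ = 4 / ρ * (2 * |β| / ρ + Cc) := by
        field_simp
        ring
  have t4 := abs_add_le (η r * (2 * β / ρ ^ 2) + (1 - η r) * c.F (pt r χ))
    (deriv η r / r * (β * r ^ 2 / ρ ^ 2 - c.b r χ))
  have t5 := abs_add_le (η r * (2 * β / ρ ^ 2)) ((1 - η r) * c.F (pt r χ))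
  linarith

theorem VDat.vac_F_int (D : VDat c n ρ L e β Cc τ κ η) {M : ℝ} (hM : ∀ z : ℂ, ‖z‖ ≤ ρ → |c.F z| ≤ M) :
    ∫ z in Metric.ball (0 : ℂ) ρ, (vac c ρ β τ κ η).F z ^ 2 ≤ 4 * π * β ^ 2 / ρ ^ 2 +
      2 * π * ρ * e * (2 * |β| / ρ ^ 2 + M + 4 / ρ * (2 * |β| / ρ + Cc)) ^ 2 := by
  have hρ := D.hρ
  have he := D.he
  have heL := D.heL
  have hLρ := D.hLρ
  have hpi := Real.pi_pos
  set K : ℝ := 2 * |β| / ρ ^ 2 + M + 4 / ρ * (2 * |β| / ρ + Cc) with hK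
  have hsub : Metric.ball (0 : ℂ) (ρ - e) ⊆ Metric.ball (0 : ℂ) ρ :=
    Metric.ball_subset_ball (by linarith)
  have mb : MeasurableSet (Metric.ball (0 : ℂ) (ρ - e)) := Metric.isOpen_ball.measurableSet
  have mb' : MeasurableSet (Metric.ball (0 : ℂ) ρ) := Metric.isOpen_ball.measurableSet
  have hint : IntegrableOn (fun z => (vac c ρ β τ κ η).F z ^ 2) (Metric.ball (0 : ℂ) ρ) :=
    D.vac_adm.int_F.integrableOn
  have hvol : ∀ R : ℝ, 0 ≤ R → volume.real (Metric.ball (0 : ℂ) R) = π * R ^ 2 := by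
    intro R hR
    rw [measureReal_def, Complex.volume_ball, ENNReal.toReal_mul, ENNReal.toReal_pow,
      ENNReal.toReal_ofReal hR]
    have : (NNReal.pi : ENNReal).toReal = π := rfl
    rw [this]
    ring
  have hv1 := hvol (ρ - e) (by linarith)
  have hv2 := hvol ρ hρ.le
  have hsplit : ∫ z in Metric.ball (0 : ℂ) ρ, (vac c ρ β τ κ η).F z ^ 2 =
      (∫ z in Metric.ball (0 : ℂ) (ρ - e), (vac c ρ β τ κ η).F z ^ 2) +
        ∫ z in Metric.ball (0 : ℂ) ρ \ Metric.ball (0 : ℂ) (ρ - e), (vac c ρ β τ κ η).F z ^ 2 := by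
    have h1 := setIntegral_union (μ := volume) (f := fun z => (vac c ρ β τ κ η).F z ^ 2)
      disjoint_sdiff_self_right
      (mb'.diff mb) (hint.mono_set hsub) (hint.mono_set sdiff_subset)
    rw [← h1, union_sdiff_cancel hsub]
  have p1 : ∫ z in Metric.ball (0 : ℂ) (ρ - e), (vac c ρ β τ κ η).F z ^ 2 ≤
      4 * π * β ^ 2 / ρ ^ 2 := by
    have h1 : ∫ z in Metric.ball (0 : ℂ) (ρ - e), (vac c ρ β τ κ η).F z ^ 2 =
        ∫ z in Metric.ball (0 : ℂ) (ρ - e), (2 * β / ρ ^ 2) ^ 2 := by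
      refine setIntegral_congr_fun mb fun z hz => ?_
      rw [mem_ball_zero_iff] at hz
      show (vac c ρ β τ κ η).F z ^ 2 = _
      rw [D.vac_F_in hz]
    rw [h1, setIntegral_const, smul_eq_mul, hv1]
    have h2 : (ρ - e) ^ 2 ≤ ρ ^ 2 := pow_le_pow_left₀ (by linarith) (by linarith) 2
    have h3 : π * (ρ - e) ^ 2 * (2 * β / ρ ^ 2) ^ 2 ≤ π * ρ ^ 2 * (2 * β / ρ ^ 2) ^ 2 :=
      mul_le_mul_of_nonneg_right (mul_le_mul_of_nonneg_left h2 hpi.le) (sq_nonneg _)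
    refine h3.trans (le_of_eq ?_)
    field_simp
    ring
  have p2 : ∫ z in Metric.ball (0 : ℂ) ρ \ Metric.ball (0 : ℂ) (ρ - e),
      (vac c ρ β τ κ η).F z ^ 2 ≤ 2 * π * ρ * e * K ^ 2 := by
    have hfin : volume (Metric.ball (0 : ℂ) ρ \ Metric.ball (0 : ℂ) (ρ - e)) ≠ ⊤ :=
      ((measure_mono sdiff_subset).trans_lt measure_ball_lt_top).ne
    have h1 : ∫ z in Metric.ball (0 : ℂ) ρ \ Metric.ball (0 : ℂ) (ρ - e),
        (vac c ρ β τ κ η).F z ^ 2 ≤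
        ∫ z in Metric.ball (0 : ℂ) ρ \ Metric.ball (0 : ℂ) (ρ - e), K ^ 2 := by
      refine setIntegral_mono_on (hint.mono_set sdiff_subset) (integrableOn_const hfin)
        (mb'.diff mb) fun z hz => ?_
      obtain ⟨hz1, hz2⟩ := hz
      rw [mem_ball_zero_iff] at hz1 hz2
      have h2 := D.vac_F_layer hM (not_lt.1 hz2) hz1
      rw [← sq_abs]
      exact pow_le_pow_left₀ (abs_nonneg _) h2 2
    refine h1.trans ?_
    rw [setIntegral_const, smul_eq_mul, measureReal_sdiff hsub mb measure_ball_lt_top.ne, hv1, hv2]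
    refine mul_le_mul_of_nonneg_right ?_ (sq_nonneg _)
    nlinarith [mul_pos hpi (pow_pos he 2)]
  rw [hsplit]
  linarith

end GO3.Vc
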