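import Pool.Agent.GO3.V.Vac2

/-!
# GO3 / V / Vac3: energy of the vacuum replacement (helper30)

PROOFS (compare `Pool.Agent.GO3.B.CapE`).  `c' = vac c ρ β τ κ η`, `κ = κ r`, `0 < r < ρ`.
* `vac_nsq_le`: `tan` for `c'` and `‖w'‖² ≤ 1/2`, as in CapE.
* `vac_Dr`: `ip (A' z) (er χ) = 0`: `ip (i z) (er χ) = 0`, and `(1 - η) ≠ 0` only for `r > ρ - e ≥ ρ/2` where `rad` applies
  (`er χ = z/r`).  So `Dw' = fderiv w' (er χ) = τ' w (pt κ χ) + τ κ' dw (er χ)` (`pm_dr`), `|τ'| ≤ 2/L`, `τ ≤ 1`.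
* `vac_Dchi`: `pm_dchi`: `D_χ w' = τ (dw (I pt κ χ) - i b'(r,χ) w) = τ (D_χ w (pt κ χ) + i (b (κ,χ) - b'(r,χ)) w (pt κ χ))`;
  `|b (κ,χ) - β| ≤ Cc e` (`lip`), `|β - b'(r,χ)| ≤ η |β| (1 - r²/ρ²) + (1-η) |β - b (r,χ)| ≤ 2 |β| L/ρ + Cc e` (`vac_b`; `1 - η ≠ 0`
  only for `r > ρ - e`); `|x + y|² ≤ 2 |x|² + 2 |y|²` twice.
* `vac_Dchi_zero`: `τ r = 0` for `r ≤ ρ - L`.  Also `w' = 0` near such points with `r < ρ - L`, so `grad' = 0` there
  (`vac_grad_zero`).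
* `vac_circle`: for `ρ - L ≤ r < ρ`, `r ≥ ρ/2`: `grad_polar`, `vac_nsq_le`:
  `r ∫ grad' ≤ 2 r (8/L² P + 2 κ'² 2π Lw²) + (2/r) (2 X₁ + (16 β² L²/ρ² + 16 Cc² e²) P)`, `κ' = 0` for `r < ρ - 2e`.
* `vac_pot`: `0 ≤ 1 - h' ≤ ‖w'‖²` (`√(1-x) ≥ 1 - x`), `(1-h')² ≤ ‖w'‖²/2`, zero for `r ≤ ρ - L`, and
  `∫ ‖w'‖² dχ ≤ P`; `polar_ball`.
* `vac_E`: the densities agree for `‖z‖ > ρ`; `E' = E - EOn (ball 0 ρ) + 1/2 ∫_{ball} dens'`, and `vac_F_int`, `vac_pot`,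
  `∫_{ball} grad'` by `polar_ball` and `vac_circle` integrated over `(ρ - L, ρ)`.
-/

open MeasureTheory Filter Topology Set
open scoped ContDiff Real

noncomputable section

namespace GO3.Vc

open GO3.Cap

variable {c : Cf} {n : ℕ} {ρ L e β Cc : ℝ} {τ κ η : ℝ → ℝ}

theorem VDat.vac_nsq_le (D : VDat c n ρ L e β Cc τ κ η) {z : ℂ} (hz : ‖z‖ < ρ) (v : ℂ) :
    (vac c ρ β τ κ η).nsq z v ≤ 2 * ‖(vac c ρ β τ κ η).Dw z v‖ ^ 2 := by
  have ht := D.vac_adm.tan z v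
  have hu := D.vac_adm.unit z
  have hw : ‖(vac c ρ β τ κ η).w z‖ ^ 2 ≤ 1 / 2 := D.w_sq_le (by linarith [D.he])
  set W := (vac c ρ β τ κ η).w z
  set Q := (vac c ρ β τ κ η).Dw z v
  set H := (vac c ρ β τ κ η).h z
  set d := (vac c ρ β τ κ η).dh z v with hd
  have h1 : |(star W * Q).re| ≤ ‖W‖ * ‖Q‖ := by
    refine (Complex.abs_re_le_norm _).trans ?_
    rw [norm_mul, norm_star]
  have h2 : (H * d) ^ 2 ≤ ‖W‖ ^ 2 * ‖Q‖ ^ 2 := by
    have h3 : H * d = -(star W * Q).re := by linarith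
    rw [h3, neg_sq, ← mul_pow, ← sq_abs (star W * Q).re]
    exact pow_le_pow_left₀ (abs_nonneg _) h1 2
  have h4 : d ^ 2 ≤ ‖Q‖ ^ 2 := by
    have h5 : 1 / 2 ≤ H ^ 2 := by linarith
    have h6 : 1 / 2 * d ^ 2 ≤ (H * d) ^ 2 := by
      rw [mul_pow]
      exact mul_le_mul_of_nonneg_right h5 (sq_nonneg _)
    have h7 : ‖W‖ ^ 2 * ‖Q‖ ^ 2 ≤ 1 / 2 * ‖Q‖ ^ 2 :=
      mul_le_mul_of_nonneg_right hw (sq_nonneg _)
    linarith
  have h8 : (vac c ρ β τ κ η).nsq z v = ‖Q‖ ^ 2 + d ^ 2 := rfl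
  rw [h8]
  linarith

private theorem nsq2 (x y : ℂ) : ‖x + y‖ ^ 2 ≤ 2 * ‖x‖ ^ 2 + 2 * ‖y‖ ^ 2 := by
  have h1 := pow_le_pow_left₀ (norm_nonneg _) (norm_add_le x y) 2
  nlinarith [sq_nonneg (‖x‖ - ‖y‖)]

private theorem ip_add_smul (s t : ℝ) (x y v : ℂ) :
    ip ((s : ℂ) * x + (t : ℂ) * y) v = s * ip x v + t * ip y v := by
  unfold ip
  simp only [Complex.add_re, Complex.add_im, Complex.mul_re, Complex.mul_im, Complex.ofReal_re,
    Complex.ofReal_im]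
  ring

private theorem ip_smul_right (s : ℝ) (x v : ℂ) : ip x ((s : ℂ) * v) = s * ip x v := by
  unfold ip
  simp only [Complex.mul_re, Complex.mul_im, Complex.ofReal_re, Complex.ofReal_im]
  ring

private theorem ip_I_er (r χ : ℝ) : ip (Complex.I * pt r χ) (er χ) = 0 := by
  rw [pt_eq]
  unfold ip
  simp only [Complex.mul_re, Complex.mul_im, Complex.ofReal_re, Complex.ofReal_im, Complex.I_re,
    Complex.I_im]
  ring

private theorem posL (D : VDat c n ρ L e β Cc τ κ η) : 0 < ρ - L := by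
  linarith [D.hLρ, D.hρ]

private theorem half_le (D : VDat c n ρ L e β Cc τ κ η) : ρ / 2 ≤ ρ - e := by
  linarith [D.hLρ, D.hρ, D.heL]

private theorem ipA (D : VDat c n ρ L e β Cc τ κ η) {r : ℝ} (h0 : 0 < r) (χ : ℝ) :
    ip ((vac c ρ β τ κ η).A (pt r χ)) (er χ) = 0 := by
  have hn : ‖pt r χ‖ = r := by rw [norm_pt, abs_of_pos h0]
  show ip (((η ‖pt r χ‖ * (β / ρ ^ 2) : ℝ) : ℂ) * (Complex.I * pt r χ) +
    ((1 - η ‖pt r χ‖ : ℝ) : ℂ) * c.A (pt r χ)) (er χ) = 0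
  rw [ip_add_smul, ip_I_er, mul_zero, zero_add, hn]
  rcases le_total r (ρ - e) with h | h
  · rw [D.η1 r h]
    simp
  · have h1 := D.rad (pt r χ) (by rw [hn]; linarith [half_le D])
    have h2 : ip (c.A (pt r χ)) (pt r χ) = r * ip (c.A (pt r χ)) (er χ) := by
      conv_lhs => rw [pt_eq r χ]
      rw [ip_smul_right]
      rw [← pt_eq r χ]
    rw [h2] at h1
    rcases mul_eq_zero.1 h1 with h3 | h3
    · exact absurd h3 h0.ne'
    · rw [h3, mul_zero]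

theorem VDat.vac_Dr (D : VDat c n ρ L e β Cc τ κ η) {r : ℝ} (h0 : 0 < r) (h1 : r < ρ) (χ : ℝ) :
    ‖(vac c ρ β τ κ η).Dw (pt r χ) (er χ)‖ ^ 2 ≤ 8 / L ^ 2 * ‖c.w (pt (κ r) χ)‖ ^ 2 +
      2 * (deriv κ r) ^ 2 * ‖fderiv ℝ c.w (pt (κ r) χ) (er χ)‖ ^ 2 := by
  have e0 : (vac c ρ β τ κ η).Dw (pt r χ) (er χ) = fderiv ℝ (pm τ κ c.w) (pt r χ) (er χ) := by
    show fderiv ℝ (pm τ κ c.w) (pt r χ) (er χ) -
      Complex.I * ((ip ((vac c ρ β τ κ η).A (pt r χ)) (er χ) : ℝ) : ℂ) *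
        (vac c ρ β τ κ η).w (pt r χ) = _
    rw [ipA D h0 χ]
    simp
  rw [e0, pm_dr D.τs D.κs D.adm.sw (posL D) D.τ0 h0]
  refine (nsq2 _ _).trans ?_
  rw [norm_mul, norm_mul, Complex.norm_real, Complex.norm_real, Real.norm_eq_abs,
    Real.norm_eq_abs, mul_pow, mul_pow, sq_abs, sq_abs]
  have hL := D.hL
  have h3 : (deriv τ r) ^ 2 ≤ 4 / L ^ 2 := by
    have h4 := pow_le_pow_left₀ (abs_nonneg _) (D.τd r) 2
    rw [sq_abs, div_pow] at h4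
    norm_num at h4
    exact h4
  have h4 : (τ r * deriv κ r) ^ 2 ≤ (deriv κ r) ^ 2 := by
    rw [mul_pow]
    have := D.τb r
    refine mul_le_of_le_one_left (sq_nonneg _) ?_
    nlinarith [this.1, this.2]
  have h5 := mul_le_mul_of_nonneg_right h3 (sq_nonneg ‖c.w (pt (κ r) χ)‖)
  have h6 := mul_le_mul_of_nonneg_right h4 (sq_nonneg ‖fderiv ℝ c.w (pt (κ r) χ) (er χ)‖)
  have e1 : 8 / L ^ 2 * ‖c.w (pt (κ r) χ)‖ ^ 2 = 2 * (4 / L ^ 2 * ‖c.w (pt (κ r) χ)‖ ^ 2) := by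
    ring
  rw [e1]
  linarith

private theorem Dchi_eq (D : VDat c n ρ L e β Cc τ κ η) {r : ℝ} (h0 : 0 < r) (χ : ℝ) :
    (vac c ρ β τ κ η).Dw (pt r χ) (Complex.I * pt r χ) = (τ r : ℂ) *
      (c.Dw (pt (κ r) χ) (Complex.I * pt (κ r) χ) +
        Complex.I * ((c.b (κ r) χ - (vac c ρ β τ κ η).b r χ : ℝ) : ℂ) * c.w (pt (κ r) χ)) := by
  rw [Cf.Dw_chi, Cf.Dw_chi]
  have h2 : fderiv ℝ (vac c ρ β τ κ η).w (pt r χ) (Complex.I * pt r χ) = _ :=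
    pm_dchi D.τs D.κs D.adm.sw (posL D) D.τ0 h0
  have h3 : (vac c ρ β τ κ η).w (pt r χ) = (τ r : ℂ) * c.w (pt (κ r) χ) := pm_pt h0
  rw [h2, h3]
  push_cast
  ring

private theorem b_close (D : VDat c n ρ L e β Cc τ κ η) {r : ℝ} (h0 : ρ - L ≤ r) (h1 : r < ρ)
    (χ : ℝ) : |c.b (κ r) χ - (vac c ρ β τ κ η).b r χ| ≤ 2 * |β| * L / ρ + 2 * (Cc * e) := by
  have hρ := D.hρ
  have hr0 : 0 < r := lt_of_lt_of_le (posL D) h0
  have hκ := D.κb r h1.le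
  have h2 := D.lip (κ r) χ hκ.1 hκ.2
  have hη := D.ηb r
  have hCe : 0 ≤ Cc * e := mul_nonneg D.hCc D.he.le
  have h3 : (1 - η r) * |c.b r χ - β| ≤ Cc * e := by
    rcases le_total r (ρ - e) with h | h
    · rw [D.η1 r h]
      simpa using hCe
    · have h4 := D.lip r χ h h1.le
      calc (1 - η r) * |c.b r χ - β| ≤ 1 * |c.b r χ - β| :=
            mul_le_mul_of_nonneg_right (by linarith [hη.1]) (abs_nonneg _)
        _ ≤ Cc * e := by rw [one_mul]; exact h4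
  have h5 : 1 - r ^ 2 / ρ ^ 2 ≤ 2 * L / ρ := by
    have e1 : 1 - r ^ 2 / ρ ^ 2 = (ρ - r) * (ρ + r) / ρ ^ 2 := by
      field_simp
      ring
    rw [e1, div_le_div_iff₀ (by positivity) hρ]
    have h6 : (ρ - r) * (ρ + r) ≤ L * (2 * ρ) :=
      mul_le_mul (by linarith) (by linarith) (by linarith) D.hL.le
    have h7 := mul_le_mul_of_nonneg_right h6 hρ.le
    calc (ρ - r) * (ρ + r) * ρ ≤ L * (2 * ρ) * ρ := h7
      _ = 2 * L * ρ ^ 2 := by ring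
  have h50 : 0 ≤ 1 - r ^ 2 / ρ ^ 2 := by
    have : r ^ 2 / ρ ^ 2 ≤ 1 := by
      rw [div_le_one (by positivity)]
      exact pow_le_pow_left₀ hr0.le h1.le 2
    linarith
  have h6 : β - (vac c ρ β τ κ η).b r χ =
      η r * (β * (1 - r ^ 2 / ρ ^ 2)) + (1 - η r) * (β - c.b r χ) := by
    rw [D.vac_b hr0.le]
    ring
  have h7 : |β - (vac c ρ β τ κ η).b r χ| ≤ 2 * |β| * L / ρ + Cc * e := by
    rw [h6]
    refine (abs_add_le _ _).trans (add_le_add ?_ ?_)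
    · rw [abs_mul, abs_of_nonneg hη.1, abs_mul, abs_of_nonneg h50]
      calc η r * (|β| * (1 - r ^ 2 / ρ ^ 2)) ≤ 1 * (|β| * (2 * L / ρ)) :=
            mul_le_mul hη.2 (mul_le_mul_of_nonneg_left h5 (abs_nonneg _))
              (mul_nonneg (abs_nonneg _) h50) (by norm_num)
        _ = 2 * |β| * L / ρ := by ring
    · rw [abs_mul, abs_of_nonneg (by linarith [hη.2] : 0 ≤ 1 - η r), abs_sub_comm]
      exact h3
  have h8 : c.b (κ r) χ - (vac c ρ β τ κ η).b r χ =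
      (c.b (κ r) χ - β) + (β - (vac c ρ β τ κ η).b r χ) := by ring
  rw [h8]
  refine (abs_add_le _ _).trans ?_
  linarith

theorem VDat.vac_Dchi (D : VDat c n ρ L e β Cc τ κ η) {r : ℝ} (h0 : ρ - L ≤ r) (h1 : r < ρ) (χ : ℝ) :
    ‖(vac c ρ β τ κ η).Dw (pt r χ) (Complex.I * pt r χ)‖ ^ 2 ≤
      2 * ‖c.Dw (pt (κ r) χ) (Complex.I * pt (κ r) χ)‖ ^ 2 +
        (16 * β ^ 2 * L ^ 2 / ρ ^ 2 + 16 * Cc ^ 2 * e ^ 2) * ‖c.w (pt (κ r) χ)‖ ^ 2 := by
  have hr0 : 0 < r := lt_of_lt_of_le (posL D) h0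
  have hρ := D.hρ
  rw [Dchi_eq D hr0, norm_mul, mul_pow, Complex.norm_real, Real.norm_eq_abs, sq_abs]
  have hτ := D.τb r
  have h2 : τ r ^ 2 ≤ 1 := by nlinarith [hτ.1, hτ.2]
  refine (mul_le_of_le_one_left (sq_nonneg _) h2).trans ((nsq2 _ _).trans ?_)
  rw [norm_mul, norm_mul, Complex.norm_I, one_mul, Complex.norm_real, Real.norm_eq_abs, mul_pow]
  have h3 := b_close D h0 h1 χ
  have h4 := pow_le_pow_left₀ (abs_nonneg _) h3 2
  have h5 : (2 * |β| * L / ρ + 2 * (Cc * e)) ^ 2 ≤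
      8 * β ^ 2 * L ^ 2 / ρ ^ 2 + 8 * Cc ^ 2 * e ^ 2 := by
    have e1 : (2 * |β| * L / ρ + 2 * (Cc * e)) ^ 2 ≤
        2 * (2 * |β| * L / ρ) ^ 2 + 2 * (2 * (Cc * e)) ^ 2 := by
      nlinarith [sq_nonneg (2 * |β| * L / ρ - 2 * (Cc * e))]
    refine e1.trans (le_of_eq ?_)
    rw [div_pow, mul_pow, mul_pow, sq_abs]
    ring
  have h6 := mul_le_mul_of_nonneg_right (h4.trans h5) (sq_nonneg ‖c.w (pt (κ r) χ)‖)
  have e2 : (16 * β ^ 2 * L ^ 2 / ρ ^ 2 + 16 * Cc ^ 2 * e ^ 2) * ‖c.w (pt (κ r) χ)‖ ^ 2 =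
      2 * ((8 * β ^ 2 * L ^ 2 / ρ ^ 2 + 8 * Cc ^ 2 * e ^ 2) * ‖c.w (pt (κ r) χ)‖ ^ 2) := by ring
  rw [e2]
  linarith

theorem VDat.vac_grad_zero (D : VDat c n ρ L e β Cc τ κ η) {z : ℂ} (hz : ‖z‖ < ρ - L) :
    (vac c ρ β τ κ η).grad z = 0 := by
  have hz' : ∀ᶠ y in 𝓝 z, ‖y‖ < ρ - L := (continuous_norm.tendsto z).eventually (Iio_mem_nhds hz)
  have hw : (vac c ρ β τ κ η).w =ᶠ[𝓝 z] fun _ => (0 : ℂ) := by
    filter_upwards [hz'] with y hy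
    exact pm_zero (D.τ0 _ hy.le)
  have hh : (vac c ρ β τ κ η).h =ᶠ[𝓝 z] fun _ => (1 : ℝ) := by
    filter_upwards [hz'] with y hy
    rw [D.h_eq (by linarith [D.he, D.hL]), pm_zero (D.τ0 _ hy.le)]
    simp
  have h1 : fderiv ℝ (vac c ρ β τ κ η).w z = 0 := by
    rw [hw.fderiv_eq]
    simp
  have h2 : fderiv ℝ (vac c ρ β τ κ η).h z = 0 := by
    rw [hh.fderiv_eq]
    simp
  have h3 : (vac c ρ β τ κ η).w z = 0 := hw.eq_of_nhds
  unfold Cf.grad Cf.nsq Cf.Dw Cf.dh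
  rw [h1, h2, h3]
  simp

private theorem kd_zero (D : VDat c n ρ L e β Cc τ κ η) {r : ℝ} (h : r < ρ - 2 * e) :
    deriv κ r = 0 := by
  have h1 : κ =ᶠ[𝓝 r] fun _ => ρ - e := by
    filter_upwards [Iio_mem_nhds h] with x hx
    exact D.κ0 x (le_of_lt hx)
  rw [h1.deriv_eq]
  simp

private theorem lin_int (f1 f2 : ℝ → ℝ) (c1 : Continuous f1) (c2 : Continuous f2) (a b k q : ℝ) :
    ∫ χ in (0 : ℝ)..2 * π, (a * f1 χ + b + k * (2 * f2 χ + q * f1 χ)) =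
      a * (∫ χ in (0 : ℝ)..2 * π, f1 χ) + 2 * π * b + k * (2 * (∫ χ in (0 : ℝ)..2 * π, f2 χ) +
        q * ∫ χ in (0 : ℝ)..2 * π, f1 χ) := by
  have i1 : IntervalIntegrable (fun χ => a * f1 χ) volume 0 (2 * π) :=
    (continuous_const.mul c1).intervalIntegrable _ _
  have i2 : IntervalIntegrable (fun _ : ℝ => b) volume 0 (2 * π) :=
    continuous_const.intervalIntegrable _ _
  have i12 : IntervalIntegrable (fun χ => a * f1 χ + b) volume 0 (2 * π) :=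
    ((continuous_const.mul c1).add continuous_const).intervalIntegrable _ _
  have i3 : IntervalIntegrable (fun χ => 2 * f2 χ) volume 0 (2 * π) :=
    (continuous_const.mul c2).intervalIntegrable _ _
  have i4 : IntervalIntegrable (fun χ => q * f1 χ) volume 0 (2 * π) :=
    (continuous_const.mul c1).intervalIntegrable _ _
  have i34 : IntervalIntegrable (fun χ => k * (2 * f2 χ + q * f1 χ)) volume 0 (2 * π) :=
    (continuous_const.mul ((continuous_const.mul c2).add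
      (continuous_const.mul c1))).intervalIntegrable _ _
  rw [intervalIntegral.integral_add i12 i34, intervalIntegral.integral_add i1 i2,
    intervalIntegral.integral_const_mul, intervalIntegral.integral_const,
    intervalIntegral.integral_const_mul, intervalIntegral.integral_add i3 i4,
    intervalIntegral.integral_const_mul, intervalIntegral.integral_const_mul,
    smul_eq_mul, sub_zero]

theorem VDat.vac_circle (D : VDat c n ρ L e β Cc τ κ η) {P X₁ Lw : ℝ}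
    (hP : ∀ x ∈ Icc (ρ - e) ρ, ∫ χ in (0 : ℝ)..2 * π, ‖c.w (pt x χ)‖ ^ 2 ≤ P)
    (hX : ∀ x ∈ Icc (ρ - e) ρ, c.Xo x ≤ X₁)
    (hLw : ∀ x ∈ Icc (ρ - e) ρ, ∀ χ, ‖fderiv ℝ c.w (pt x χ) (er χ)‖ ≤ Lw) {r : ℝ} (h0 : ρ - L ≤ r)
    (h1 : r < ρ) :
    r * ∫ χ in (0 : ℝ)..2 * π, (vac c ρ β τ κ η).grad (pt r χ) ≤
      16 * ρ / L ^ 2 * P +
        4 / ρ * (2 * X₁ + (16 * β ^ 2 * L ^ 2 / ρ ^ 2 + 16 * Cc ^ 2 * e ^ 2) * P) +
        if ρ - 2 * e ≤ r then 8 * π * ρ * Lw ^ 2 else 0 := by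
  have hκ := D.κb r h1.le
  have hκ' : κ r ∈ Icc (ρ - e) ρ := hκ
  have hρ := D.hρ
  have he := D.he
  have hL := D.hL
  have hLρ := D.hLρ
  have hpi := Real.pi_pos
  have hr0 : 0 < r := lt_of_lt_of_le (posL D) h0
  have hr2 : ρ / 2 ≤ r := by linarith
  set Q : ℝ := 16 * β ^ 2 * L ^ 2 / ρ ^ 2 + 16 * Cc ^ 2 * e ^ 2 with hQ
  have hQ0 : 0 ≤ Q := by rw [hQ]; positivity
  set d : ℝ := deriv κ r with hd
  -- pointwise bound
  have hpt : ∀ χ : ℝ, (vac c ρ β τ κ η).grad (pt r χ) ≤ 16 / L ^ 2 * ‖c.w (pt (κ r) χ)‖ ^ 2 +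
      4 * d ^ 2 * Lw ^ 2 + 2 / r ^ 2 * (2 * c.nsq (pt (κ r) χ) (Complex.I * pt (κ r) χ) +
        Q * ‖c.w (pt (κ r) χ)‖ ^ 2) := by
    intro χ
    have hz : ‖pt r χ‖ < ρ := by
      rw [norm_pt, abs_of_pos hr0]
      exact h1
    rw [Cf.grad_polar _ hr0.ne']
    have a1 := D.vac_nsq_le hz (er χ)
    have a2 := D.vac_Dr hr0 h1 χ
    have a3 := hLw (κ r) hκ' χ
    have a4 : ‖fderiv ℝ c.w (pt (κ r) χ) (er χ)‖ ^ 2 ≤ Lw ^ 2 := pow_le_pow_left₀ (norm_nonneg _) a3 2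
    have a5 : 2 * d ^ 2 * ‖fderiv ℝ c.w (pt (κ r) χ) (er χ)‖ ^ 2 ≤ 2 * d ^ 2 * Lw ^ 2 :=
      mul_le_mul_of_nonneg_left a4 (by positivity)
    have b1 : (vac c ρ β τ κ η).nsq (pt r χ) (Complex.I * pt r χ) / r ^ 2 ≤
        2 / r ^ 2 * (2 * c.nsq (pt (κ r) χ) (Complex.I * pt (κ r) χ) +
        Q * ‖c.w (pt (κ r) χ)‖ ^ 2) := by
      have b2 := D.vac_nsq_le hz (Complex.I * pt r χ)
      have b3 := D.vac_Dchi h0 h1 χ
      have b4 := Cf.norm_Dw_le c (pt (κ r) χ) (Complex.I * pt (κ r) χ)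
      rw [div_mul_eq_mul_div, div_le_div_iff_of_pos_right (by positivity)]
      linarith
    have e1 : 16 / L ^ 2 * ‖c.w (pt (κ r) χ)‖ ^ 2 = 2 * (8 / L ^ 2 * ‖c.w (pt (κ r) χ)‖ ^ 2) := by
      ring
    rw [e1]
    linarith
  -- continuity
  have cpt : ∀ x : ℝ, Continuous fun χ : ℝ => pt x χ := fun x =>
    continuous_pt.comp (continuous_const.prodMk continuous_id)
  have cw : Continuous fun χ : ℝ => ‖c.w (pt (κ r) χ)‖ ^ 2 :=
    ((D.adm.sw.continuous.comp (cpt _)).norm).pow 2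
  have cn : Continuous fun χ : ℝ => c.nsq (pt (κ r) χ) (Complex.I * pt (κ r) χ) :=
    D.adm.contDiff_nsq.continuous.comp ((cpt _).prodMk (continuous_const.mul (cpt _)))
  have cg : Continuous fun χ : ℝ => (vac c ρ β τ κ η).grad (pt r χ) :=
    D.vac_adm.contDiff_grad.continuous.comp (cpt _)
  have cR : Continuous fun χ : ℝ => 16 / L ^ 2 * ‖c.w (pt (κ r) χ)‖ ^ 2 +
      4 * d ^ 2 * Lw ^ 2 + 2 / r ^ 2 * (2 * c.nsq (pt (κ r) χ) (Complex.I * pt (κ r) χ) +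
        Q * ‖c.w (pt (κ r) χ)‖ ^ 2) :=
    ((continuous_const.mul cw).add continuous_const).add
      (continuous_const.mul ((continuous_const.mul cn).add (continuous_const.mul cw)))
  have hint := intervalIntegral.integral_mono_on (μ := volume) (by positivity : (0 : ℝ) ≤ 2 * π)
    (cg.intervalIntegrable _ _) (cR.intervalIntegrable _ _) (fun χ _ => hpt χ)
  have hval : ∫ χ in (0 : ℝ)..2 * π, (16 / L ^ 2 * ‖c.w (pt (κ r) χ)‖ ^ 2 +
      4 * d ^ 2 * Lw ^ 2 + 2 / r ^ 2 * (2 * c.nsq (pt (κ r) χ) (Complex.I * pt (κ r) χ) +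
        Q * ‖c.w (pt (κ r) χ)‖ ^ 2)) =
      16 / L ^ 2 * (∫ χ in (0 : ℝ)..2 * π, ‖c.w (pt (κ r) χ)‖ ^ 2) + 2 * π * (4 * d ^ 2 * Lw ^ 2) +
      2 / r ^ 2 * (2 * c.Xo (κ r) + Q * ∫ χ in (0 : ℝ)..2 * π, ‖c.w (pt (κ r) χ)‖ ^ 2) := by
    exact lin_int _ _ cw cn _ _ _ _
  rw [hval] at hint
  have i1 := hP (κ r) hκ'
  have i2 := hX (κ r) hκ'
  have n1 : 0 ≤ ∫ χ in (0 : ℝ)..2 * π, ‖c.w (pt (κ r) χ)‖ ^ 2 :=
    intervalIntegral.integral_nonneg (by positivity) fun χ _ => by positivity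
  have n2 : 0 ≤ c.Xo (κ r) :=
    intervalIntegral.integral_nonneg (by positivity) fun χ _ => Cf.nsq_nonneg c _ _
  have nP : 0 ≤ P := n1.trans i1
  have nX : 0 ≤ X₁ := n2.trans i2
  -- multiply by `r`
  have m1 : r * (16 / L ^ 2 * ∫ χ in (0 : ℝ)..2 * π, ‖c.w (pt (κ r) χ)‖ ^ 2) ≤
      16 * ρ / L ^ 2 * P := by
    have u1 : 16 / L ^ 2 * (∫ χ in (0 : ℝ)..2 * π, ‖c.w (pt (κ r) χ)‖ ^ 2) ≤ 16 / L ^ 2 * P :=
      mul_le_mul_of_nonneg_left i1 (by positivity)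
    have u2 : r * (16 / L ^ 2 * P) ≤ ρ * (16 / L ^ 2 * P) :=
      mul_le_mul_of_nonneg_right h1.le (by positivity)
    have u3 : ρ * (16 / L ^ 2 * P) = 16 * ρ / L ^ 2 * P := by
      ring
    have u4 := mul_le_mul_of_nonneg_left u1 hr0.le
    linarith
  have m2 : r * (2 * π * (4 * d ^ 2 * Lw ^ 2)) ≤ if ρ - 2 * e ≤ r then 8 * π * ρ * Lw ^ 2 else 0 := by
    split_ifs with hr
    · have u1 : d ^ 2 ≤ 1 := by
        have := D.κd r
        rw [← hd] at this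
        nlinarith [this.1, this.2]
      have u2 : r * d ^ 2 ≤ ρ * 1 := mul_le_mul h1.le u1 (sq_nonneg _) hρ.le
      have u3 : 0 ≤ 8 * π * Lw ^ 2 := by positivity
      have u4 := mul_le_mul_of_nonneg_left u2 u3
      calc r * (2 * π * (4 * d ^ 2 * Lw ^ 2)) = 8 * π * Lw ^ 2 * (r * d ^ 2) := by ring
        _ ≤ 8 * π * Lw ^ 2 * (ρ * 1) := u4
        _ = 8 * π * ρ * Lw ^ 2 := by ring
    · have u1 : d = 0 := kd_zero D (not_le.1 hr)
      rw [u1]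
      simp
  have m3 : r * (2 / r ^ 2 * (2 * c.Xo (κ r) + Q * ∫ χ in (0 : ℝ)..2 * π, ‖c.w (pt (κ r) χ)‖ ^ 2)) ≤
      4 / ρ * (2 * X₁ + Q * P) := by
    have u0 : 2 * c.Xo (κ r) + Q * (∫ χ in (0 : ℝ)..2 * π, ‖c.w (pt (κ r) χ)‖ ^ 2) ≤
        2 * X₁ + Q * P := by
      have := mul_le_mul_of_nonneg_left i1 hQ0
      linarith
    have u5 : 0 ≤ 2 * X₁ + Q * P := by positivity
    have u1 : r * (2 / r ^ 2) ≤ 4 / ρ := by
      have u2 : r * (2 / r ^ 2) = 2 / r := by field_simp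
      rw [u2, div_le_div_iff₀ hr0 hρ]
      linarith
    have u3 : 0 ≤ r * (2 / r ^ 2) := by positivity
    calc r * (2 / r ^ 2 * (2 * c.Xo (κ r) + Q * ∫ χ in (0 : ℝ)..2 * π, ‖c.w (pt (κ r) χ)‖ ^ 2))
        = r * (2 / r ^ 2) * (2 * c.Xo (κ r) + Q * ∫ χ in (0 : ℝ)..2 * π, ‖c.w (pt (κ r) χ)‖ ^ 2) := by
          ring
      _ ≤ r * (2 / r ^ 2) * (2 * X₁ + Q * P) := mul_le_mul_of_nonneg_left u0 u3
      _ ≤ 4 / ρ * (2 * X₁ + Q * P) := mul_le_mul_of_nonneg_right u1 u5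
  have hfin := mul_le_mul_of_nonneg_left hint hr0.le
  rw [mul_add, mul_add] at hfin
  linarith

private theorem pot_le (D : VDat c n ρ L e β Cc τ κ η) {z : ℂ} (hz : ‖z‖ < ρ) :
    (1 - (vac c ρ β τ κ η).h z) ^ 2 ≤ 1 / 2 * ‖pm τ κ c.w z‖ ^ 2 := by
  have h1 := D.w_sq_le (z := z) (by linarith [D.he])
  rw [D.h_eq (by linarith [D.he])]
  set x : ℝ := ‖pm τ κ c.w z‖ ^ 2 with hx
  have hx0 : 0 ≤ x := by rw [hx]; positivity
  have h2 : Real.sqrt (1 - x) ≤ 1 := by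
    rw [Real.sqrt_le_iff]
    constructor
    · norm_num
    · linarith
  have h3 : 1 - x ≤ Real.sqrt (1 - x) := by
    refine Real.le_sqrt_of_sq_le ?_
    nlinarith
  have h4 : 0 ≤ 1 - Real.sqrt (1 - x) := by linarith
  have h5 : (1 - Real.sqrt (1 - x)) ^ 2 ≤ x ^ 2 := pow_le_pow_left₀ h4 (by linarith) 2
  nlinarith

theorem VDat.vac_pot (D : VDat c n ρ L e β Cc τ κ η) {P : ℝ}
    (hP : ∀ x ∈ Icc (ρ - e) ρ, ∫ χ in (0 : ℝ)..2 * π, ‖c.w (pt x χ)‖ ^ 2 ≤ P) :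
    ∫ z in Metric.ball (0 : ℂ) ρ, (1 - (vac c ρ β τ κ η).h z) ^ 2 ≤ ρ * L * P / 2 := by
  have hρ := D.hρ
  have hL := D.hL
  have hpi := Real.pi_pos
  have hpos := posL D
  have A' := D.vac_adm
  have ch : Continuous fun z => (1 - (vac c ρ β τ κ η).h z) ^ 2 :=
    (continuous_const.sub A'.sh.continuous).pow 2
  rw [polar_ball _ ch 0 hρ.le]
  set g : ℝ → ℝ := fun r => r * ∫ χ in (0 : ℝ)..2 * π, (1 - (vac c ρ β τ κ η).h (0 + pt r χ)) ^ 2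
    with hg
  have gcont : Continuous g := continuous_id.mul (continuous_circle _ ch 0 0 (2 * π))
  have cpt : ∀ x : ℝ, Continuous fun χ : ℝ => pt x χ := fun x =>
    continuous_pt.comp (continuous_const.prodMk continuous_id)
  have nP : 0 ≤ P := by
    refine le_trans ?_ (hP ρ ⟨by linarith [D.he], le_rfl⟩)
    exact intervalIntegral.integral_nonneg (by positivity) fun χ _ => by positivity
  have g1 : ∀ r, 0 < r → r < ρ - L → g r ≤ 0 := by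
    intro r h0 h1
    rw [hg]
    have h2 : ∀ χ, (1 - (vac c ρ β τ κ η).h (0 + pt r χ)) ^ 2 = 0 := by
      intro χ
      have hz : ‖pt r χ‖ = r := by rw [norm_pt, abs_of_pos h0]
      rw [zero_add, D.h_eq (by rw [hz]; linarith [D.he]), pm_zero (D.τ0 _ (by rw [hz]; exact h1.le))]
      simp
    simp only [h2]
    simp
  have g2 : ∀ r, ρ - L < r → r < ρ → g r ≤ ρ * (1 / 2 * P) := by
    intro r h0 h1
    have hr0 : 0 < r := hpos.trans h0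
    have hκ' : κ r ∈ Icc (ρ - e) ρ := D.κb r h1.le
    have hz : ∀ χ, ‖pt r χ‖ < ρ := fun χ => by
      rw [norm_pt, abs_of_pos hr0]
      exact h1
    have h2 : ∫ χ in (0 : ℝ)..2 * π, (1 - (vac c ρ β τ κ η).h (0 + pt r χ)) ^ 2 ≤
        ∫ χ in (0 : ℝ)..2 * π, 1 / 2 * ‖c.w (pt (κ r) χ)‖ ^ 2 := by
      refine intervalIntegral.integral_mono_on (by positivity) ?_ ?_ fun χ _ => ?_
      · refine Continuous.intervalIntegrable ?_ _ _
        exact ch.comp (continuous_const.add (cpt r))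
      · refine Continuous.intervalIntegrable ?_ _ _
        exact continuous_const.mul (((D.adm.sw.continuous.comp (cpt _)).norm).pow 2)
      · rw [zero_add]
        refine (pot_le D (hz χ)).trans ?_
        rw [pm_pt hr0, norm_mul, mul_pow, Complex.norm_real, Real.norm_eq_abs, sq_abs]
        have hτ := D.τb r
        have h3 : τ r ^ 2 ≤ 1 := by nlinarith [hτ.1, hτ.2]
        have h4 := mul_le_of_le_one_left (sq_nonneg ‖c.w (pt (κ r) χ)‖) h3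
        linarith
    rw [intervalIntegral.integral_const_mul] at h2
    have h3 := hP (κ r) hκ'
    have h4 : ∫ χ in (0 : ℝ)..2 * π, (1 - (vac c ρ β τ κ η).h (0 + pt r χ)) ^ 2 ≤ 1 / 2 * P := by
      linarith
    calc g r = r * ∫ χ in (0 : ℝ)..2 * π, (1 - (vac c ρ β τ κ η).h (0 + pt r χ)) ^ 2 := rfl
      _ ≤ r * (1 / 2 * P) := mul_le_mul_of_nonneg_left h4 hr0.le
      _ ≤ ρ * (1 / 2 * P) := mul_le_mul_of_nonneg_right h1.le (by positivity)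
  have p1 : ∫ r in (0 : ℝ)..(ρ - L), g r ≤ 0 := by
    have := intervalIntegral.integral_mono_on_of_le_Ioo hpos.le (gcont.intervalIntegrable _ _)
      (continuous_const.intervalIntegrable (μ := volume) _ _ :
        IntervalIntegrable (fun _ => (0 : ℝ)) volume _ _)
      (fun r hr => g1 r hr.1 hr.2)
    simpa using this
  have p2 : ∫ r in (ρ - L)..ρ, g r ≤ L * (ρ * (1 / 2 * P)) := by
    have := intervalIntegral.integral_mono_on_of_le_Ioo (by linarith : ρ - L ≤ ρ)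
      (gcont.intervalIntegrable _ _)
      (continuous_const.intervalIntegrable (μ := volume) _ _ :
        IntervalIntegrable (fun _ => ρ * (1 / 2 * P)) volume _ _)
      (fun r hr => g2 r hr.1 hr.2)
    rw [intervalIntegral.integral_const, smul_eq_mul] at this
    have e1 : ρ - (ρ - L) = L := by ring
    rwa [e1] at this
  have p3 : (∫ r in (0 : ℝ)..(ρ - L), g r) + ∫ r in (ρ - L)..ρ, g r = ∫ r in (0 : ℝ)..ρ, g r :=
    intervalIntegral.integral_add_adjacent_intervals (gcont.intervalIntegrable _ _)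
      (gcont.intervalIntegrable _ _)
  have p4 : ∫ r in (0 : ℝ)..ρ, g r ≤ ρ * L * P / 2 := by
    rw [← p3]
    calc _ ≤ 0 + L * (ρ * (1 / 2 * P)) := add_le_add p1 p2
      _ = ρ * L * P / 2 := by ring
  exact p4

private theorem dens_ball {c : Cf} (hc : c.Adm n) (S : Set ℂ) : ∫ z in S, c.dens z =
    (∫ z in S, c.grad z) + (∫ z in S, (1 - c.h z) ^ 2) + ∫ z in S, c.F z ^ 2 := by
  have i1 : IntegrableOn (fun z => c.grad z) S := hc.int_grad.integrableOn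
  have i2 : IntegrableOn (fun z => (1 - c.h z) ^ 2) S := hc.int_pot.integrableOn
  have i3 : IntegrableOn (fun z => c.F z ^ 2) S := hc.int_F.integrableOn
  have i12 : IntegrableOn (fun z => c.grad z + (1 - c.h z) ^ 2) S := Integrable.add i1 i2
  unfold Cf.dens
  rw [integral_add i12 i3, integral_add i1 i2]

theorem VDat.vac_E (D : VDat c n ρ L e β Cc τ κ η) {P X₁ Lw M : ℝ}
    (hP : ∀ x ∈ Icc (ρ - e) ρ, ∫ χ in (0 : ℝ)..2 * π, ‖c.w (pt x χ)‖ ^ 2 ≤ P)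
    (hX : ∀ x ∈ Icc (ρ - e) ρ, c.Xo x ≤ X₁)
    (hLw : ∀ x ∈ Icc (ρ - e) ρ, ∀ χ, ‖fderiv ℝ c.w (pt x χ) (er χ)‖ ≤ Lw)
    (hM : ∀ z : ℂ, ‖z‖ ≤ ρ → |c.F z| ≤ M) :
    (vac c ρ β τ κ η).E ≤ c.E - c.EOn (Metric.ball 0 ρ) + 2 * π * β ^ 2 / ρ ^ 2 +
      π * ρ * e * (2 * |β| / ρ ^ 2 + M + 4 / ρ * (2 * |β| / ρ + Cc)) ^ 2 +
      1 / 2 * (16 * ρ / L * P +
        4 * L / ρ * (2 * X₁ + (16 * β ^ 2 * L ^ 2 / ρ ^ 2 + 16 * Cc ^ 2 * e ^ 2) * P) +
        16 * π * ρ * e * Lw ^ 2) + ρ * L * P / 4 := by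
  have hρ := D.hρ
  have he := D.he
  have hL := D.hL
  have heL := D.heL
  have hpos := posL D
  have hpi := Real.pi_pos
  have A' := D.vac_adm
  have hFint := D.vac_F_int hM
  have hpot := D.vac_pot hP
  set c' := vac c ρ β τ κ η with hc'
  have mb : MeasurableSet (Metric.ball (0 : ℂ) ρ) := Metric.isOpen_ball.measurableSet
  -- outside
  have hout : ∫ z in (Metric.ball (0 : ℂ) ρ)ᶜ, c'.dens z = ∫ z in (Metric.ball (0 : ℂ) ρ)ᶜ, c.dens z := by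
    refine setIntegral_congr_ae mb.compl ?_
    have h1 : volume (Metric.sphere (0 : ℂ) ρ) = 0 := Measure.addHaar_sphere _ _ _
    have h2 : ∀ᵐ z : ℂ, z ∉ Metric.sphere (0 : ℂ) ρ := measure_eq_zero_iff_ae_notMem.1 h1
    filter_upwards [h2] with z hz hz2
    rw [mem_compl_iff, mem_ball_zero_iff, not_lt] at hz2
    rw [mem_sphere_zero_iff_norm] at hz
    exact D.dens_out (lt_of_le_of_ne hz2 (Ne.symm hz))
  have hsp' := integral_add_compl mb A'.fin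
  have hsp := integral_add_compl mb D.adm.fin
  -- inside
  have hin' := dens_ball A' (Metric.ball (0 : ℂ) ρ)
  -- the gradient part
  set A₀ : ℝ := 16 * ρ / L ^ 2 * P +
        4 / ρ * (2 * X₁ + (16 * β ^ 2 * L ^ 2 / ρ ^ 2 + 16 * Cc ^ 2 * e ^ 2) * P) with hA₀
  set g : ℝ → ℝ := fun r => r * ∫ χ in (0 : ℝ)..2 * π, c'.grad (0 + pt r χ) with hg
  have cgr : Continuous c'.grad := A'.contDiff_grad.continuous
  have gcont : Continuous g := continuous_id.mul (continuous_circle _ cgr 0 0 (2 * π))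
  have hgrad : ∫ z in Metric.ball (0 : ℂ) ρ, c'.grad z = ∫ r in (0 : ℝ)..ρ, g r :=
    polar_ball _ cgr 0 hρ.le
  have hcir : ∀ r, ρ - L ≤ r → r < ρ → g r ≤ A₀ + if ρ - 2 * e ≤ r then 8 * π * ρ * Lw ^ 2 else 0 := by
    intro r h0 h1
    have h2 := D.vac_circle hP hX hLw h0 h1
    rw [hg]
    simp only [zero_add]
    exact h2
  have g1 : ∀ r, 0 < r → r < ρ - L → g r ≤ 0 := by
    intro r h0 h1
    rw [hg]
    have h2 : ∀ χ, c'.grad (0 + pt r χ) = 0 := by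
      intro χ
      have hz : ‖pt r χ‖ = r := by rw [norm_pt, abs_of_pos h0]
      rw [zero_add]
      exact D.vac_grad_zero (by rw [hz]; exact h1)
    simp only [h2]
    simp
  have p0 : ∫ r in (0 : ℝ)..(ρ - L), g r ≤ 0 := by
    have := intervalIntegral.integral_mono_on_of_le_Ioo hpos.le (gcont.intervalIntegrable _ _)
      (continuous_const.intervalIntegrable (μ := volume) _ _ :
        IntervalIntegrable (fun _ => (0 : ℝ)) volume _ _)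
      (fun r hr => g1 r hr.1 hr.2)
    simpa using this
  have p1 : ∫ r in (ρ - L)..(ρ - 2 * e), g r ≤ (L - 2 * e) * A₀ := by
    have := intervalIntegral.integral_mono_on_of_le_Ioo (by linarith : ρ - L ≤ ρ - 2 * e)
      (gcont.intervalIntegrable _ _)
      (continuous_const.intervalIntegrable (μ := volume) _ _ : IntervalIntegrable (fun _ => A₀) volume _ _)
      (fun r hr => by
        have h2 := hcir r hr.1.le (by linarith [hr.2])
        rw [if_neg (not_le.2 hr.2), add_zero] at h2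
        exact h2)
    rw [intervalIntegral.integral_const, smul_eq_mul] at this
    have e1 : ρ - 2 * e - (ρ - L) = L - 2 * e := by ring
    rwa [e1] at this
  have p2 : ∫ r in (ρ - 2 * e)..ρ, g r ≤ (2 * e) * (A₀ + 8 * π * ρ * Lw ^ 2) := by
    have := intervalIntegral.integral_mono_on_of_le_Ioo (by linarith : ρ - 2 * e ≤ ρ)
      (gcont.intervalIntegrable _ _)
      (continuous_const.intervalIntegrable (μ := volume) _ _ :
        IntervalIntegrable (fun _ => A₀ + 8 * π * ρ * Lw ^ 2) volume _ _)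
      (fun r hr => by
        have h2 := hcir r (by linarith [hr.1]) hr.2
        rw [if_pos hr.1.le] at h2
        exact h2)
    rw [intervalIntegral.integral_const, smul_eq_mul] at this
    have e1 : ρ - (ρ - 2 * e) = 2 * e := by ring
    rwa [e1] at this
  have p3 : (∫ r in (0 : ℝ)..(ρ - L), g r) + (∫ r in (ρ - L)..(ρ - 2 * e), g r) =
      ∫ r in (0 : ℝ)..(ρ - 2 * e), g r :=
    intervalIntegral.integral_add_adjacent_intervals (gcont.intervalIntegrable _ _)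
      (gcont.intervalIntegrable _ _)
  have p3' : (∫ r in (0 : ℝ)..(ρ - 2 * e), g r) + ∫ r in (ρ - 2 * e)..ρ, g r =
      ∫ r in (0 : ℝ)..ρ, g r :=
    intervalIntegral.integral_add_adjacent_intervals (gcont.intervalIntegrable _ _)
      (gcont.intervalIntegrable _ _)
  have p4 : L * A₀ = 16 * ρ / L * P +
        4 * L / ρ * (2 * X₁ + (16 * β ^ 2 * L ^ 2 / ρ ^ 2 + 16 * Cc ^ 2 * e ^ 2) * P) := by
    rw [hA₀]
    set Y := (2 * X₁ + (16 * β ^ 2 * L ^ 2 / ρ ^ 2 + 16 * Cc ^ 2 * e ^ 2) * P)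
    field_simp
  have p5 : ∫ z in Metric.ball (0 : ℂ) ρ, c'.grad z ≤ 16 * ρ / L * P +
        4 * L / ρ * (2 * X₁ + (16 * β ^ 2 * L ^ 2 / ρ ^ 2 + 16 * Cc ^ 2 * e ^ 2) * P) +
        16 * π * ρ * e * Lw ^ 2 := by
    rw [hgrad, ← p3', ← p3]
    calc _ ≤ 0 + (L - 2 * e) * A₀ + (2 * e) * (A₀ + 8 * π * ρ * Lw ^ 2) :=
          add_le_add (add_le_add p0 p1) p2
      _ = L * A₀ + 16 * π * ρ * e * Lw ^ 2 := by ring
      _ = _ := by rw [p4]
  have q1 : c'.E = 1 / 2 * ∫ z, c'.dens z := rfl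
  have q2 : c.E = 1 / 2 * ∫ z, c.dens z := rfl
  have q3 : c.EOn (Metric.ball 0 ρ) = 1 / 2 * ∫ z in Metric.ball (0 : ℂ) ρ, c.dens z := rfl
  have q4 : c'.E = c.E - c.EOn (Metric.ball 0 ρ) +
      1 / 2 * ∫ z in Metric.ball (0 : ℂ) ρ, c'.dens z := by
    rw [q1, q2, q3, ← hsp', ← hsp, hout]
    ring
  rw [q4, hin']
  have e5 : 1 / 2 * (4 * π * β ^ 2 / ρ ^ 2) = 2 * π * β ^ 2 / ρ ^ 2 := by ring
  rw [← e5]
  linarith

end GO3.Vc
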